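import Pool.Agent.H471R4.BW.Stubs

set_option autoImplicit false

namespace Pool.Agent.H471R4.BW

open Finset Filter

theorem bfm_ev (δ h η κ C c : ℝ) (hδ : 0 < δ) (hη : 0 < η) (hκ : h < κ) (hC : 0 ≤ C)
    (hc : 0 < c) : ∀ᶠ x : ℝ in atTop, 3 ≤ x ∧ 2 * x ^ h ≤ x ^ κ ∧
      200 ≤ δ * x ^ (1 / 4 : ℝ) / 32 ∧ 8 * (Real.log x) ^ 2 ≤ δ * x ^ (1 / 4 : ℝ) / 32 ∧
      C * Real.log x ≤ c * x ^ η := by
  filter_upwards [eventually_ge_atTop 3,
    (tendsto_rpow_atTop (by linarith : 0 < κ - h)).eventually_ge_atTop 2,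
    (tendsto_rpow_atTop (by norm_num : (0 : ℝ) < 1 / 4)).eventually_ge_atTop (6400 / δ),
    (tendsto_rpow_atTop (by norm_num : (0 : ℝ) < 1 / 8)).eventually_ge_atTop (65536 / δ),
    (tendsto_rpow_atTop (by linarith : 0 < η / 2)).eventually_ge_atTop (C * (2 / η) / c)]
    with x h3 h4 h5 h6 h7
  have hx : 0 < x := by linarith
  refine ⟨h3, ?_, ?_, ?_, ?_⟩
  · have e : x ^ κ = x ^ (κ - h) * x ^ h := by
      rw [← Real.rpow_add hx]
      congr 1
      ring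
    rw [e]
    exact mul_le_mul_of_nonneg_right h4 (Real.rpow_nonneg hx.le _)
  · rw [div_le_iff₀ hδ] at h5
    linarith
  · have h8 : Real.log x ≤ x ^ (1 / 16 : ℝ) / (1 / 16) :=
      Real.log_le_rpow_div hx.le (by norm_num)
    have h9 : 0 ≤ Real.log x := Real.log_nonneg (by linarith)
    have e1 : x ^ (1 / 8 : ℝ) = x ^ (1 / 16 : ℝ) * x ^ (1 / 16 : ℝ) := by
      rw [← Real.rpow_add hx]
      norm_num
    have e2 : x ^ (1 / 4 : ℝ) = x ^ (1 / 8 : ℝ) * x ^ (1 / 8 : ℝ) := by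
      rw [← Real.rpow_add hx]
      norm_num
    have h10 : (Real.log x) ^ 2 ≤ 256 * x ^ (1 / 8 : ℝ) := by
      have h11 : (Real.log x) ^ 2 ≤ (x ^ (1 / 16 : ℝ) / (1 / 16)) ^ 2 :=
        pow_le_pow_left₀ h9 h8 2
      rw [e1]
      calc (Real.log x) ^ 2 ≤ (x ^ (1 / 16 : ℝ) / (1 / 16)) ^ 2 := h11
        _ = 256 * (x ^ (1 / 16 : ℝ) * x ^ (1 / 16 : ℝ)) := by ring
    rw [div_le_iff₀ hδ] at h6
    have h12 : 0 ≤ x ^ (1 / 8 : ℝ) := Real.rpow_nonneg hx.le _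
    have h13 : 65536 * x ^ (1 / 8 : ℝ) ≤ x ^ (1 / 8 : ℝ) * δ * x ^ (1 / 8 : ℝ) :=
      mul_le_mul_of_nonneg_right h6 h12
    rw [e2]
    linarith
  · have h8 : Real.log x ≤ x ^ (η / 2) / (η / 2) :=
      Real.log_le_rpow_div hx.le (by linarith)
    have e1 : x ^ η = x ^ (η / 2) * x ^ (η / 2) := by
      rw [← Real.rpow_add hx]
      congr 1
      ring
    have h9 : 0 ≤ x ^ (η / 2) := Real.rpow_nonneg hx.le _
    rw [div_le_iff₀ hc] at h7
    rw [e1]
    calc C * Real.log x ≤ C * (x ^ (η / 2) / (η / 2)) := mul_le_mul_of_nonneg_left h8 hC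
      _ = C * (2 / η) * x ^ (η / 2) := by
          field_simp
      _ ≤ x ^ (η / 2) * c * x ^ (η / 2) := mul_le_mul_of_nonneg_right h7 h9
      _ = c * (x ^ (η / 2) * x ^ (η / 2)) := by ring

/-- the primes used as multipliers -/
def bfmA (M N : ℕ) : Finset ℕ := (range (M + 1)).filter (fun a => a.Prime ∧ Nat.Coprime a N)

theorem bfm_omega (N : ℕ) (hN : 1 ≤ N) : (N.primeFactors.card : ℝ) ≤ 2 * Real.log N := by
  have h1 : 2 ^ N.primeFactors.card ≤ N := by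
    have h2 : ∏ p ∈ N.primeFactors, p ≤ N :=
      Nat.le_of_dvd (by omega) (Nat.prod_primeFactors_dvd N)
    refine le_trans ?_ h2
    exact Finset.pow_card_le_prod N.primeFactors (fun p => p) 2
      (fun p hp => (Nat.prime_of_mem_primeFactors hp).two_le)
  have h2 : ((2 : ℝ)) ^ N.primeFactors.card ≤ N := by exact_mod_cast h1
  have h3 := Real.log_le_log (by positivity) h2
  rw [Real.log_pow] at h3
  have h4 : (0.5 : ℝ) ≤ Real.log 2 := by linarith [Real.log_two_gt_d9]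
  have h5 : (0 : ℝ) ≤ N.primeFactors.card := Nat.cast_nonneg _
  nlinarith

theorem bfm_card (M N : ℕ) (hN : 1 ≤ N) :
    (Nat.primeCounting M : ℝ) ≤ (bfmA M N).card + 2 * Real.log N := by
  have h1 : (range (M + 1)).filter Nat.Prime ⊆ bfmA M N ∪ N.primeFactors := by
    intro a ha
    rw [mem_filter] at ha
    rw [mem_union]
    by_cases hc : Nat.Coprime a N
    · left
      exact mem_filter.2 ⟨ha.1, ha.2, hc⟩
    · right
      rw [Nat.mem_primeFactors]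
      refine ⟨ha.2, ?_, by omega⟩
      by_contra hd
      exact hc ((Nat.Prime.coprime_iff_not_dvd ha.2).2 hd)
  have h2 : Nat.primeCounting M = ((range (M + 1)).filter Nat.Prime).card := by
    rw [Nat.primeCounting, Nat.primeCounting', Nat.count_eq_card_filter_range]
  have h3 := (card_le_card h1).trans (card_union_le _ _)
  rw [← h2] at h3
  have h4 := bfm_omega N hN
  have h5 : (Nat.primeCounting M : ℝ) ≤ (bfmA M N).card + N.primeFactors.card := by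
    exact_mod_cast h3
  linarith

theorem bfm_count (M N : ℕ) (hM : 200 ≤ M) (hMN : M ≤ N)
    (hlog : 8 * (Real.log N) ^ 2 ≤ M) : (M : ℝ) / (4 * Real.log N) ≤ (bfmA M N).card := by
  have hM' : (200 : ℝ) ≤ M := by exact_mod_cast hM
  have hMN' : (M : ℝ) ≤ N := by exact_mod_cast hMN
  have hL : 0 < Real.log N := Real.log_pos (by linarith)
  have h1 : (M : ℝ) * Real.log 2 - Real.log (M + 1) ≤ Nat.primeCounting M * Real.log M :=
    (Chebyshev.psi_ge M).trans (Chebyshev.psi_le_primeCounting_mul_log M)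
  have h2 : (0.693 : ℝ) ≤ Real.log 2 := by linarith [Real.log_two_gt_d9]
  have h3 : Real.log ((M : ℝ) + 1) ≤ 0.19 * M := by
    have e1 : Real.log ((M : ℝ) + 1) = 2 * Real.log (Real.sqrt ((M : ℝ) + 1)) := by
      rw [Real.log_sqrt (by linarith)]
      ring
    have e2 := Real.log_le_sub_one_of_pos (Real.sqrt_pos.2 (by linarith : (0 : ℝ) < (M : ℝ) + 1))
    have e3 := Real.sq_sqrt (by linarith : (0 : ℝ) ≤ (M : ℝ) + 1)
    have e4 := sq_nonneg (Real.sqrt ((M : ℝ) + 1) - 12)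
    rw [e1]
    nlinarith
  have h4 : Real.log M ≤ Real.log N := Real.log_le_log (by linarith) hMN'
  have h5 : (0 : ℝ) ≤ Nat.primeCounting M := Nat.cast_nonneg _
  have h6 : (Nat.primeCounting M : ℝ) * Real.log M ≤ Nat.primeCounting M * Real.log N :=
    mul_le_mul_of_nonneg_left h4 h5
  have h7 : (M : ℝ) / 2 ≤ Nat.primeCounting M * Real.log N := by nlinarith
  have h8 := bfm_card M N (by omega)
  have h9 : (Nat.primeCounting M : ℝ) * Real.log N ≤
      ((bfmA M N).card + 2 * Real.log N) * Real.log N := mul_le_mul_of_nonneg_right h8 hL.le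
  rw [div_le_iff₀ (by positivity)]
  nlinarith

theorem bfm_core (h : BIN) (δ η κ : ℝ) (K : ℕ → ℝ) (hδ : 0 < δ) (hδ1 : δ ≤ 1)
    (hη : 0 < η) (hK : ∀ r, 0 ≤ K r) (r : ℕ) (hr : 1 ≤ r) (hrη : 1 / (2 * (r : ℝ)) ≤ η)
    (N : ℕ) (hN3 : (3 : ℝ) ≤ N)
    (ha : 2 * (N : ℝ) ^ (1 / (2 * (r : ℝ))) ≤ (N : ℝ) ^ κ)
    (hb : 200 ≤ δ * (N : ℝ) ^ (1 / 4 : ℝ) / 32)
    (hc : 8 * (Real.log N) ^ 2 ≤ δ * (N : ℝ) ^ (1 / 4 : ℝ) / 32)
    (hd : 3 * ((r : ℝ) ^ (2 * r) + K r) * 128 * Real.log N ≤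
      ((δ / 2) ^ (2 * r) * δ) * (N : ℝ) ^ η)
    [NeZero N] (χ : DirichletCharacter ℂ N) (hF : Fam κ K N χ) (X : ℕ)
    (hX1 : (N : ℝ) ^ (1 / 4 + η) ≤ X) (hX2 : (X : ℝ) ≤ Real.sqrt N) :
    ‖shortSum N χ X‖ ≤ δ * X := by
  have hNpos : (0 : ℝ) < N := by linarith
  have hN1 : (1 : ℝ) ≤ N := by linarith
  have hr' : (1 : ℝ) ≤ r := by exact_mod_cast hr
  set s : ℝ := 1 / (2 * (r : ℝ)) with hs
  have hs0 : 0 < s := by positivity
  have hNs1 : 1 ≤ (N : ℝ) ^ s := Real.one_le_rpow hN1 hs0.le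
  set B : ℕ := ⌈(N : ℝ) ^ s⌉₊ with hB
  have hB1 : (N : ℝ) ^ s ≤ B := Nat.le_ceil _
  have hB2 : (B : ℝ) ≤ 2 * (N : ℝ) ^ s := by
    have := (Nat.ceil_lt_add_one (by linarith : (0 : ℝ) ≤ (N : ℝ) ^ s)).le
    linarith
  have hBone : (1 : ℝ) ≤ B := hNs1.trans hB1
  have hBpos : (0 : ℝ) < B := by linarith
  have hX0 : (1 : ℝ) ≤ X := by
    refine le_trans ?_ hX1
    exact Real.one_le_rpow hN1 (by linarith)
  have hXpos : (0 : ℝ) < X := by linarith
  set M : ℕ := ⌊δ * X / (8 * B)⌋₊ with hM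
  have hM1 : (M : ℝ) ≤ δ * X / (8 * B) := Nat.floor_le (by positivity)
  have hM2 : δ * X / (8 * B) - 1 < M := Nat.sub_one_lt_floor _
  -- lower bound for `X / B`
  have hq : (N : ℝ) ^ (1 / 4 : ℝ) * B ≤ 2 * X := by
    have e1 : (N : ℝ) ^ (1 / 4 : ℝ) * (N : ℝ) ^ s ≤ (N : ℝ) ^ (1 / 4 + η) := by
      rw [← Real.rpow_add hNpos]
      exact Real.rpow_le_rpow_of_exponent_le hN1 (by linarith)
    have e2 : 0 ≤ (N : ℝ) ^ (1 / 4 : ℝ) := Real.rpow_nonneg hNpos.le _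
    nlinarith
  have hM3 : δ * (N : ℝ) ^ (1 / 4 : ℝ) / 16 ≤ δ * X / (8 * B) := by
    rw [div_le_div_iff₀ (by norm_num) (by positivity)]
    nlinarith
  have hM4 : δ * (N : ℝ) ^ (1 / 4 : ℝ) / 32 ≤ M := by linarith
  have hM200 : 200 ≤ M := by exact_mod_cast hb.trans hM4
  have hXX : (X : ℝ) * X ≤ N := by
    have := Real.mul_self_sqrt hNpos.le
    nlinarith [Real.sqrt_nonneg (N : ℝ)]
  have hMX : (M : ℝ) * (8 * B) ≤ δ * X := by
    rwa [le_div_iff₀ (by positivity)] at hM1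
  have hMX8 : (M : ℝ) * 8 ≤ X := by
    have e1 : (M : ℝ) * 8 ≤ M * (8 * B) := by
      have : (0 : ℝ) ≤ M := Nat.cast_nonneg _
      nlinarith
    nlinarith
  have hMXN : M * X < N := by
    have : (M : ℝ) * X < N := by nlinarith
    exact_mod_cast this
  have hMN : M ≤ N := by
    have h1 : M ≤ M * X := Nat.le_mul_of_pos_right M (by exact_mod_cast hXpos)
    omega
  have hcard := bfm_count M N hM200 hMN (hc.trans hM4)
  have hL : 0 < Real.log N := Real.log_pos (by linarith)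
  have hMpos : (0 : ℝ) < M := by
    have : (200 : ℝ) ≤ M := by exact_mod_cast hM200
    linarith
  have hcardpos : (0 : ℝ) < (bfmA M N).card := lt_of_lt_of_le (by positivity) hcard
  have hne : (bfmA M N).Nonempty := by
    rw [← card_pos]
    exact_mod_cast hcardpos
  have hBr : Real.sqrt N ≤ (B : ℝ) ^ r := by
    have e1 : ((N : ℝ) ^ s) ^ r = Real.sqrt N := by
      rw [Real.sqrt_eq_rpow, ← Real.rpow_natCast, ← Real.rpow_mul hNpos.le, hs]
      congr 1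
      field_simp
    rw [← e1]
    exact pow_le_pow_left₀ (by linarith) hB1 r
  have hmain := h N χ (bfmA M N) X M B r (K r) hr (hK r) (by exact_mod_cast hBone)
    (by exact_mod_cast hX0) hne (fun a ha => (mem_filter.1 ha).2.1)
    (fun a ha => (mem_filter.1 ha).2.2)
    (fun a ha => Nat.lt_succ_iff.1 (mem_range.1 (mem_filter.1 ha).1)) hMXN hBr
    (hF r B hr (hB2.trans ha))
  -- the second term
  have hAX : δ * ((N : ℝ) ^ η * Real.sqrt N) / (128 * Real.log N) ≤ (bfmA M N).card * X := by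
    have e1 : (N : ℝ) ^ (1 / 4 : ℝ) * (N : ℝ) ^ (1 / 4 + η) = (N : ℝ) ^ η * Real.sqrt N := by
      rw [Real.sqrt_eq_rpow, ← Real.rpow_add hNpos, ← Real.rpow_add hNpos]
      congr 1
      ring
    rw [← e1]
    have e2 : δ * (N : ℝ) ^ (1 / 4 : ℝ) / (128 * Real.log N) ≤ (bfmA M N).card := by
      refine le_trans ?_ hcard
      rw [div_le_div_iff₀ (by positivity) (by positivity)]
      nlinarith
    have e3 : 0 ≤ (N : ℝ) ^ (1 / 4 + η) := Real.rpow_nonneg hNpos.le _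
    calc δ * ((N : ℝ) ^ (1 / 4 : ℝ) * (N : ℝ) ^ (1 / 4 + η)) / (128 * Real.log N)
        = (δ * (N : ℝ) ^ (1 / 4 : ℝ) / (128 * Real.log N)) * (N : ℝ) ^ (1 / 4 + η) := by ring
      _ ≤ (bfmA M N).card * X := mul_le_mul e2 hX1 e3 hcardpos.le
  have hsq : 0 < Real.sqrt N := Real.sqrt_pos.2 hNpos
  have hNη : 0 < (N : ℝ) ^ η := Real.rpow_pos_of_pos hNpos _
  have hKr := hK r
  have hQ : 3 * ((r : ℝ) ^ (2 * r) + K r) * Real.sqrt N / ((bfmA M N).card * X) ≤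
      (δ / 2) ^ (2 * r) := by
    rw [div_le_iff₀ (by positivity)]
    have e1 : 3 * ((r : ℝ) ^ (2 * r) + K r) * Real.sqrt N ≤
        (δ / 2) ^ (2 * r) * (δ * ((N : ℝ) ^ η * Real.sqrt N) / (128 * Real.log N)) := by
      rw [mul_div_assoc', le_div_iff₀ (by positivity)]
      have := mul_le_mul_of_nonneg_right hd hsq.le
      nlinarith
    exact e1.trans (mul_le_mul_of_nonneg_left hAX (by positivity))
  have hQ0 : 0 ≤ 3 * ((r : ℝ) ^ (2 * r) + K r) * Real.sqrt N / ((bfmA M N).card * X) := by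
    positivity
  have hroot : (3 * ((r : ℝ) ^ (2 * r) + K r) * Real.sqrt N / ((bfmA M N).card * X)) ^
      (1 / (2 * r : ℝ)) ≤ δ / 2 := by
    calc (3 * ((r : ℝ) ^ (2 * r) + K r) * Real.sqrt N / ((bfmA M N).card * X)) ^
      (1 / (2 * r : ℝ)) ≤ ((δ / 2) ^ (2 * r)) ^ (1 / (2 * r : ℝ)) :=
          Real.rpow_le_rpow hQ0 hQ (by positivity)
      _ = δ / 2 := by
          rw [← Real.rpow_natCast, ← Real.rpow_mul (by positivity)]
          have : ((2 * r : ℕ) : ℝ) * (1 / (2 * r : ℝ)) = 1 := by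
            push_cast
            field_simp
          rw [this, Real.rpow_one]
  have hfirst : 2 * (M : ℝ) * B ≤ δ * X / 4 := by linarith
  calc ‖shortSum N χ X‖ ≤ _ := hmain
    _ ≤ δ * X / 4 + X * (δ / 2) := add_le_add hfirst (mul_le_mul_of_nonneg_left hroot hXpos.le)
    _ ≤ δ * X := by nlinarith

theorem bfm (h : BIN) : BFM := by
  intro η δ κ K hη hδ hκ hK
  have hδ' : 0 < min δ 1 := lt_min hδ one_pos
  obtain ⟨r, hr⟩ := exists_nat_gt (max (1 / η) (1 / κ))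
  have hr1 : 1 / η < r := lt_of_le_of_lt (le_max_left _ _) hr
  have hr2 : 1 / κ < r := lt_of_le_of_lt (le_max_right _ _) hr
  have hrpos : (0 : ℝ) < r := lt_trans (by positivity) hr1
  have hr0 : 1 ≤ r := by exact_mod_cast hrpos
  have hrη : 1 / (2 * (r : ℝ)) ≤ η := by
    rw [div_lt_iff₀ hη] at hr1
    rw [div_le_iff₀ (by positivity)]
    nlinarith
  have hrκ : 1 / (2 * (r : ℝ)) < κ := by
    rw [div_lt_iff₀ hκ] at hr2
    rw [div_lt_iff₀ (by positivity)]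
    nlinarith
  have hKr := hK r
  have hev := tendsto_natCast_atTop_atTop.eventually (bfm_ev (min δ 1) (1 / (2 * (r : ℝ))) η κ
    (3 * ((r : ℝ) ^ (2 * r) + K r) * 128) (((min δ 1) / 2) ^ (2 * r) * (min δ 1)) hδ' hη hrκ
    (by positivity) (by positivity))
  obtain ⟨N0, hN0⟩ := eventually_atTop.1 hev
  refine ⟨N0, fun N hN _ χ hF X hX1 hX2 => ?_⟩
  obtain ⟨h3, ha, hb, hc, hd⟩ := hN0 N hN
  have := bfm_core h (min δ 1) η κ K hδ' (min_le_right _ _) hη hK r hr0 hrη N h3 ha hb hc hd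
    χ hF X hX1 hX2
  refine this.trans (mul_le_mul_of_nonneg_right (min_le_left _ _) (Nat.cast_nonneg _))

end Pool.Agent.H471R4.BW
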