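import Pool.Agent.H471R4.BW.Stubs

/-! Task BGE (helper227). -/

set_option autoImplicit false

namespace Pool.Agent.H471R4.BW

theorem bge (h1 : BFM) (h2 : VIN) : BGE := by
  intro η δ κ K hη hδ hκ hK
  obtain ⟨N0, hN0⟩ := h1 η (2 * δ) κ K hη (by linarith) hκ hK
  refine ⟨N0, fun N hN _ χ hχ X y hX hX' hy => ?_⟩
  have h3 := hN0 N hN χ hχ X hX hX'
  have h4 := h2 N χ y X hy
  have hNpos : (0 : ℝ) < N := by
    have : 0 < N := Nat.pos_of_ne_zero (NeZero.ne N)
    exact_mod_cast this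
  have hXpos : (0 : ℝ) < X := lt_of_lt_of_le (Real.rpow_pos_of_pos hNpos _) hX
  have h5 : (X : ℝ) * (1 - 2 * badSum N χ y X) ≤ X * (2 * δ) := by
    calc _ ≤ _ := h4
      _ ≤ _ := h3
      _ = _ := by ring
  have h6 := le_of_mul_le_mul_left h5 hXpos
  linarith

end Pool.Agent.H471R4.BW
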