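import Pool.Agent.H471R4.BW.Stubs

set_option autoImplicit false

/-! Project BW, task BIN. -/

namespace Pool.Agent.H471R4.BW

open Finset

theorem bin (h1 : MOM) (h2 : NU1) (h3 : NU2) (h4 : SHF) (h5 : HOL) : BIN := by
  intro N _ χ A X M B r K hr hK hB hX hA hAp hAc hAM hMX hNB hC
  set Tf : ZMod N → ℝ := fun x => ‖∑ b ∈ range B, χ (x + (b : ZMod N))‖ with hTf
  set P : ℝ := (A.card : ℝ) with hP
  have hP1 : 1 ≤ P := by
    rw [hP]; exact_mod_cast hA.card_pos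
  have hX1 : (1 : ℝ) ≤ X := by exact_mod_cast hX
  have hB1 : (1 : ℝ) ≤ B := by exact_mod_cast hB
  have hP0 : 0 < P := by linarith
  have hX0 : (0 : ℝ) < X := by linarith
  have hB0 : (0 : ℝ) < B := by linarith
  set S : ℝ := ∑ x : ZMod N, (nu N A X x : ℝ) * Tf x with hS
  have hS0 : 0 ≤ S := Finset.sum_nonneg (fun x _ => mul_nonneg (Nat.cast_nonneg _) (norm_nonneg _))
  have e1 : ∑ x : ZMod N, (nu N A X x : ℝ) = P * X := by
    have := h2 N A X hAc
    rw [hP]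
    exact_mod_cast this
  have e2 : ∑ x : ZMod N, ((nu N A X x : ℝ)) ^ 2 ≤ 3 * P * X := by
    have := h3 N A X M hAp hAc hAM hMX
    rw [hP]
    exact_mod_cast this
  have e3 : ∑ x : ZMod N, Tf x ^ (2 * r) ≤
      ((r : ℝ) ^ (2 * r) + K) * (B : ℝ) ^ (2 * r) * Real.sqrt N := by
    refine (h1 N χ r B K hr hK hC).trans ?_
    have hN0 : (0 : ℝ) ≤ N := Nat.cast_nonneg _
    have hNs : (N : ℝ) = Real.sqrt N * Real.sqrt N := (Real.mul_self_sqrt hN0).symm
    have h6 : (B : ℝ) ^ r * N ≤ (B : ℝ) ^ (2 * r) * Real.sqrt N := by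
      calc (B : ℝ) ^ r * N = (B : ℝ) ^ r * (Real.sqrt N * Real.sqrt N) := by rw [← hNs]
        _ = (B : ℝ) ^ r * Real.sqrt N * Real.sqrt N := by ring
        _ ≤ (B : ℝ) ^ r * (B : ℝ) ^ r * Real.sqrt N := by
            apply mul_le_mul_of_nonneg_right _ (Real.sqrt_nonneg _)
            exact mul_le_mul_of_nonneg_left hNB (by positivity)
        _ = (B : ℝ) ^ (2 * r) * Real.sqrt N := by rw [two_mul, pow_add]
    have h7 : (r : ℝ) ^ (2 * r) * ((B : ℝ) ^ r * N) ≤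
        (r : ℝ) ^ (2 * r) * ((B : ℝ) ^ (2 * r) * Real.sqrt N) :=
      mul_le_mul_of_nonneg_left h6 (by positivity)
    nlinarith [h7]
  set Q : ℝ := 3 * ((r : ℝ) ^ (2 * r) + K) * Real.sqrt N / (P * X) with hQ
  have hQ0 : 0 ≤ Q := by rw [hQ]; positivity
  have hH := h5 (ZMod N) r hr (fun x => (nu N A X x : ℝ)) Tf (fun x => Nat.cast_nonneg _)
    (fun x => norm_nonneg _)
  have hpow : S ^ (2 * r) ≤ (P * X * B) ^ (2 * r) * Q := by
    refine hH.trans ?_
    rw [e1]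
    have h8 : (P * (X : ℝ)) ^ (2 * r - 2) * (∑ x : ZMod N, ((nu N A X x : ℝ)) ^ 2) *
        ∑ x : ZMod N, Tf x ^ (2 * r) ≤ (P * (X : ℝ)) ^ (2 * r - 2) * (3 * P * X) *
        (((r : ℝ) ^ (2 * r) + K) * (B : ℝ) ^ (2 * r) * Real.sqrt N) := by
      apply mul_le_mul _ e3 (Finset.sum_nonneg (fun x _ => by positivity)) (by positivity)
      exact mul_le_mul_of_nonneg_left e2 (by positivity)
    refine h8.trans (le_of_eq ?_)
    have h9 : (P * (X : ℝ) * B) ^ (2 * r) =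
        (P * (X : ℝ)) ^ (2 * r - 2) * (P * X) ^ 2 * (B : ℝ) ^ (2 * r) := by
      rw [← pow_add, mul_pow (P * (X : ℝ)) (B : ℝ)]
      congr 2
      omega
    rw [h9, hQ]
    field_simp
  have hroot : S ≤ P * X * B * Q ^ (1 / (2 * r : ℝ)) := by
    have hr0 : (2 * r : ℕ) ≠ 0 := by omega
    have hq : (Q ^ (1 / (2 * r : ℝ))) ^ (2 * r) = Q := by
      rw [← Real.rpow_natCast, ← Real.rpow_mul hQ0]
      have : 1 / (2 * (r : ℝ)) * ((2 * r : ℕ) : ℝ) = 1 := by
        push_cast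
        have : (r : ℝ) ≠ 0 := by
          have : (1 : ℝ) ≤ r := by exact_mod_cast hr
          linarith
        field_simp
      rw [this, Real.rpow_one]
    have h10 : S ^ (2 * r) ≤ (P * X * B * Q ^ (1 / (2 * r : ℝ))) ^ (2 * r) := by
      rw [mul_pow (P * (X : ℝ) * B), hq]
      exact hpow
    exact (pow_le_pow_iff_left₀ hS0 (by positivity) hr0).1 h10
  have hsh := h4 N χ A X M B hAc hAM
  have hfin : P * B * ‖shortSum N χ X‖ ≤
      P * B * (2 * M * B + X * Q ^ (1 / (2 * r : ℝ))) := by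
    calc P * B * ‖shortSum N χ X‖ ≤ S + P * B * (2 * M * B) := hsh
      _ ≤ P * X * B * Q ^ (1 / (2 * r : ℝ)) + P * B * (2 * M * B) := by linarith
      _ = _ := by ring
  exact le_of_mul_le_mul_left hfin (by positivity)

end Pool.Agent.H471R4.BW
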