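import Pool.Agent.H471R4.BW.Stubs2
import Pool.Agent.H341R2.Stepanov

/-!
# COR: the core of Stepanov's method for characters of prime order
-/

set_option autoImplicit false

namespace Pool.Agent.H471R4.BW

open Polynomial Finset
open Pool.Agent.H341R2 (T T_spec natDegree_T_le)

theorem cor (hNV : NV1) : COR := by
  classical
  intro F _ _ t ht f hd hf0 hns a ℓ J A Q hQ hA hℓ hJ hdim
  obtain ⟨q, hq⟩ : ∃ q, q = Fintype.card F := ⟨_, rfl⟩
  rw [← hq] at hQ hA hℓ ⊢
  have hf : f ≠ 0 := by
    rintro rfl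
    simp at hd
  have ht0 : 0 < t := ht.pos
  let V := Fin t → Fin J → degreeLT F (A + 1)
  let W := (k : Fin ℓ) → (Fin (A + k * (f.natDegree - 1) + J) → F)
  let σ : ℕ → V →ₗ[F] F[X] := fun k => ∑ j : Fin J, ∑ i : Fin t,
    (LinearMap.mulLeft F (X ^ (j : ℕ))) ∘ₗ
      (a ^ (i : ℕ) • ((T f (ℓ + (i : ℕ) * Q) k) ∘ₗ (degreeLT F (A + 1)).subtype ∘ₗ
        (LinearMap.proj j) ∘ₗ (LinearMap.proj i)))
  have hσ : ∀ k (v : V), σ k v = ∑ j : Fin J, X ^ (j : ℕ) *
      ∑ i : Fin t, a ^ (i : ℕ) • T f (ℓ + (i : ℕ) * Q) k (v i j : F[X]) := by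
    intro k v
    simp only [σ, LinearMap.sum_apply, LinearMap.comp_apply, LinearMap.mulLeft_apply,
      LinearMap.smul_apply, LinearMap.proj_apply, Submodule.subtype_apply, Finset.mul_sum]
    rfl
  let Φ : V →ₗ[F] W := LinearMap.pi fun k => LinearMap.pi fun i => (lcoeff F (i : ℕ)) ∘ₗ (σ k)
  have hfin : Module.finrank F W < Module.finrank F V := by
    have h1 : Module.finrank F W = ∑ k ∈ Finset.range ℓ, (A + k * (f.natDegree - 1) + J) := by
      simp only [W]
      rw [Module.finrank_pi_fintype, Finset.sum_range]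
      refine Finset.sum_congr rfl fun k _ => ?_
      simp
    have h2 : Module.finrank F (degreeLT F (A + 1)) = A + 1 := by
      rw [(degreeLTEquiv F (A + 1)).finrank_eq]
      simp
    have h3 : Module.finrank F V = t * (J * (A + 1)) := by
      simp only [V]
      rw [Module.finrank_pi_fintype]
      simp only [Module.finrank_pi_fintype, h2, Finset.sum_const, Finset.card_univ, Fintype.card_fin,
        smul_eq_mul]
    rw [h1, h3]
    exact hdim
  have hker : LinearMap.ker Φ ≠ ⊥ := LinearMap.ker_ne_bot_of_finrank_lt hfin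
  obtain ⟨v, hv, hv0⟩ := (Submodule.ne_bot_iff _).1 hker
  have hdegv : ∀ w : degreeLT F (A + 1), (w : F[X]).natDegree ≤ A := by
    intro w
    have := mem_degreeLT.1 w.2
    by_cases h0 : (w : F[X]) = 0
    · rw [h0]; simp
    · exact Nat.lt_succ_iff.1 ((natDegree_lt_iff_degree_lt h0).2 this)
  have hσ0 : ∀ k < ℓ, σ k v = 0 := by
    intro k hk
    by_contra hne
    have hdeg : (σ k v).natDegree < A + k * (f.natDegree - 1) + J := by
      have h1 : (σ k v).natDegree ≤ A + k * (f.natDegree - 1) + (J - 1) := by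
        rw [hσ]
        refine natDegree_sum_le_of_forall_le _ _ fun j _ => ?_
        refine natDegree_mul_le.trans ?_
        rw [natDegree_X_pow]
        have h2 : ∀ n, k ≤ n → ∀ w : degreeLT F (A + 1),
            (T f n k (w : F[X])).natDegree ≤ k * (f.natDegree - 1) + A := by
          intro n hn w
          have h3 := hdegv w
          exact (natDegree_T_le f hd n k hn _).trans (by omega)
        have h4 : (∑ i : Fin t, a ^ (i : ℕ) • T f (ℓ + (i : ℕ) * Q) k (v i j : F[X])).natDegree ≤
            k * (f.natDegree - 1) + A := by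
          refine natDegree_sum_le_of_forall_le _ _ fun i _ => ?_
          exact (natDegree_smul_le _ _).trans (h2 (ℓ + (i : ℕ) * Q) (by omega) _)
        have := j.2
        omega
      omega
    apply hne
    ext i
    by_cases hi : i < A + k * (f.natDegree - 1) + J
    · have h1 := congrFun (congrFun (LinearMap.mem_ker.1 hv) ⟨k, hk⟩) ⟨i, hi⟩
      simpa [Φ] using h1
    · rw [coeff_eq_zero_of_natDegree_lt (by omega)]
      simp
  -- the auxiliary polynomial
  obtain ⟨R, hR⟩ : ∃ R : F[X], R = ∑ j : Fin J,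
    (∑ i : Fin t, f ^ (ℓ + (i : ℕ) * Q) * (v i j : F[X])) * X ^ ((j : ℕ) * q) := ⟨_, rfl⟩
  have hR' : R = f ^ ℓ * ∑ j : Fin J, (∑ i : Fin t, (v i j : F[X]) * f ^ ((i : ℕ) * Q)) *
    X ^ ((j : ℕ) * q) := by
    rw [hR, Finset.mul_sum]
    refine Finset.sum_congr rfl fun j _ => ?_
    rw [← mul_assoc, Finset.mul_sum]
    congr 1
    refine Finset.sum_congr rfl fun i _ => ?_
    rw [pow_add]
    ring
  have hRne : R ≠ 0 := by
    intro hR0
    rw [hR'] at hR0
    have h1 := (mul_eq_zero.1 hR0).resolve_left (pow_ne_zero _ hf)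
    let r : Fin t → ℕ → F[X] := fun i j => if h : j < J then (v i ⟨j, h⟩ : F[X]) else 0
    have h2 := hNV F t ht f hf0 hns A Q (by rw [← hq]; exact hQ) (by rw [← hq]; exact hA) J r
      (by
        intro i j
        simp only [r]
        split_ifs
        · exact hdegv _
        · simp)
      (by
        rw [Finset.sum_range]
        rw [← h1]
        refine Finset.sum_congr rfl fun j _ => ?_
        simp [r, hq])
    apply hv0
    funext i j
    have := h2 i j j.2
    simp only [r, j.2, dite_true] at this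
    exact Subtype.ext this
  have hdegR : R.natDegree ≤ ℓ * f.natDegree + (t - 1) * Q * f.natDegree + A + (J - 1) * q := by
    rw [hR]
    refine natDegree_sum_le_of_forall_le _ _ fun j _ => ?_
    refine natDegree_mul_le.trans ?_
    rw [natDegree_X_pow]
    have h1 : (∑ i : Fin t, f ^ (ℓ + (i : ℕ) * Q) * (v i j : F[X])).natDegree ≤
        ℓ * f.natDegree + (t - 1) * Q * f.natDegree + A := by
      refine natDegree_sum_le_of_forall_le _ _ fun i _ => ?_
      refine natDegree_mul_le.trans ?_
      rw [natDegree_pow, Nat.add_mul]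
      have := hdegv (v i j)
      have h2 : (i : ℕ) * Q * f.natDegree ≤ (t - 1) * Q * f.natDegree := by
        apply Nat.mul_le_mul_right
        apply Nat.mul_le_mul_right
        have := i.2
        omega
      omega
    have h2 : (j : ℕ) * q ≤ (J - 1) * q := Nat.mul_le_mul_right _ (by have := j.2; omega)
    omega
  have hvan : ∀ x : F, (f.eval x = 0 ∨ f.eval x ^ Q = a) → (X - C x) ^ ℓ ∣ R := by
    intro x hx
    by_cases hx0 : f.eval x = 0
    · rw [hR']
      exact Dvd.dvd.mul_right (pow_dvd_pow_of_dvd (dvd_iff_isRoot.2 hx0) ℓ) _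
    · have hxa := hx.resolve_left hx0
      obtain ⟨R₁, hR₁⟩ : ∃ R₁ : F[X], R₁ = ∑ j : Fin J, (x ^ (j : ℕ)) •
        (∑ i : Fin t, f ^ (ℓ + (i : ℕ) * Q) * (v i j : F[X])) := ⟨_, rfl⟩
      have h1 : (X - C x) ^ ℓ ∣ R - R₁ := by
        rw [hR, hR₁, ← Finset.sum_sub_distrib]
        refine Finset.dvd_sum fun j _ => ?_
        rw [smul_eq_C_mul, mul_comm (C (x ^ (j : ℕ))), ← mul_sub]
        refine Dvd.dvd.mul_left ?_ _
        have h2 : (X : F[X]) ^ q - C x = (X - C x) ^ q := by
          obtain ⟨p, hp⟩ := CharP.exists F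
          have := hp
          have : Fact p.Prime := ⟨CharP.char_is_prime F p⟩
          obtain ⟨n, -, hn⟩ := FiniteField.card F p
          have h3 := sub_pow_char_pow (p := p) (X : F[X]) (C x) (n : ℕ)
          rw [hq]
          rw [← hn, ← C_pow, FiniteField.pow_card] at h3
          exact h3.symm
        have h3 : (X : F[X]) ^ q - C x ∣ X ^ ((j : ℕ) * q) - C (x ^ (j : ℕ)) := by
          rw [mul_comm, pow_mul, C_pow]
          exact sub_dvd_pow_sub_pow _ _ _
        rw [h2] at h3
        exact (pow_dvd_pow _ hℓ).trans h3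
      have h2 : (X - C x) ^ ℓ ∣ R₁ := by
        rw [X_sub_C_pow_dvd_iff, X_pow_dvd_iff]
        intro k hk
        have h3 : (R₁.comp (X + C x)).coeff k = (taylor x R₁).coeff k := by
          rw [taylor_apply]
        rw [h3, taylor_coeff, hR₁, map_sum]
        simp only [map_smul, map_sum, eval_finsetSum]
        have h4 : ∀ j : Fin J, eval x (x ^ (j : ℕ) • ∑ i : Fin t,
            hasseDeriv k (f ^ (ℓ + (i : ℕ) * Q) * (v i j : F[X]))) =
            eval x f ^ (ℓ - k) * eval x (X ^ (j : ℕ) *
              ∑ i : Fin t, a ^ (i : ℕ) • T f (ℓ + (i : ℕ) * Q) k (v i j : F[X])) := by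
          intro j
          rw [eval_smul, eval_finsetSum, eval_mul, eval_finsetSum, eval_pow, eval_X, smul_eq_mul,
            mul_left_comm, Finset.mul_sum, Finset.mul_sum, Finset.mul_sum]
          apply Finset.sum_congr rfl
          intro i _
          rw [← T_spec f (ℓ + (i : ℕ) * Q) k (by omega)]
          have h5 : ℓ + (i : ℕ) * Q - k = (ℓ - k) + Q * (i : ℕ) := by
            rw [mul_comm Q]; omega
          rw [h5]
          simp only [eval_smul, eval_mul, eval_pow, smul_eq_mul, pow_add, pow_mul, hxa]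
          ring
        rw [Finset.sum_congr rfl fun j _ => h4 j, ← Finset.mul_sum, ← eval_finsetSum, ← hσ,
          hσ0 k hk, eval_zero, mul_zero]
      have h3 := dvd_add h1 h2
      rwa [sub_add_cancel] at h3
  have hprod : ∏ x ∈ Finset.univ.filter (fun x : F => f.eval x = 0 ∨ f.eval x ^ Q = a),
      (X - C x) ^ ℓ ∣ R := by
    refine Finset.prod_dvd_of_coprime ?_ ?_
    · intro x _ y _ hxy
      exact (isCoprime_X_sub_C_of_isUnit_sub (sub_ne_zero.2 hxy).isUnit).pow
    · intro x hx
      exact hvan x (Finset.mem_filter.1 hx).2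
  have h1 := natDegree_le_of_dvd hprod hRne
  rw [natDegree_prod_of_monic _ _ fun x _ => (monic_X_sub_C x).pow ℓ] at h1
  simp only [natDegree_pow, natDegree_X_sub_C, mul_one, Finset.sum_const, smul_eq_mul] at h1
  rw [mul_comm ℓ]
  exact h1.trans hdegR

end Pool.Agent.H471R4.BW
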