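import Pool.Agent.H471R4.BW.Stubs2

/-!
# CRD: the one-sided bound `q / t + O(√q)` from the core of Stepanov's method
-/

set_option autoImplicit false

namespace Pool.Agent.H471R4.BW

open Polynomial Finset

/-- the dimension count -/
lemma crd_dim (t d e m J D Q q : ℕ) (ht : 2 ≤ t) (hQ : t * Q + 1 = q) (he1 : 1 ≤ e) (hed : e ≤ d)
    (hD : D + e = Q) (hm1 : m * m ≤ q)
    (hbig : (d + 3) + (d + 2) * (1 + t * d) + 1 ≤ m) (hJ : J = m / t + (d + 3)) :
    ∑ k ∈ range m, (D + k * (e - 1) + J) < t * (J * (D + 1)) := by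
  have hmt : m < t * (m / t + 1) := by
    have := Nat.lt_mul_div_succ m (show 0 < t by omega)
    exact this
  have hmt2 : m / t ≤ m / 2 := Nat.div_le_div_left ht (by norm_num)
  have hm2 : 2 * (m / 2) ≤ m := Nat.mul_div_le m 2
  have hJ1 : m + 1 + t * (d + 2) ≤ t * J := by
    rw [hJ]
    have : t * (m / t + (d + 3)) = t * (m / t + 1) + t * (d + 2) := by ring
    omega
  have hJ2 : 2 * J ≤ m + 2 * (d + 3) := by omega
  have hsum : ∑ k ∈ range m, (D + k * (e - 1) + J) ≤ m * (D + m * d + J) := by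
    have : ∑ k ∈ range m, (D + k * (e - 1) + J) ≤ ∑ k ∈ range m, (D + m * d + J) := by
      refine Finset.sum_le_sum fun k hk => ?_
      have h1 : k * (e - 1) ≤ m * d :=
        Nat.mul_le_mul (Finset.mem_range.1 hk).le (by omega)
      omega
    simpa using this
  refine lt_of_le_of_lt hsum ?_
  -- lower bound for the right side
  have h1 : (m + 1 + t * (d + 2)) * (D + 1) ≤ t * (J * (D + 1)) := by
    rw [← mul_assoc]
    exact Nat.mul_le_mul_right _ hJ1
  refine lt_of_lt_of_le ?_ h1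
  have h2 : m * m ≤ t * D + t * d + 1 := by
    have : t * Q = t * D + t * e := by rw [← hD]; ring
    have h3 : t * e ≤ t * d := Nat.mul_le_mul_left _ hed
    omega
  have h4 : 2 * (m * J) ≤ m * m + 2 * ((d + 3) * m) := by
    have := Nat.mul_le_mul_left m hJ2
    nlinarith
  have h5 : (d + 2) * (m * m) ≤ (d + 2) * (t * D + t * d + 1) := Nat.mul_le_mul_left _ h2
  have h6 : ((d + 3) + (d + 2) * (1 + t * d) + 1) * m ≤ m * m := Nat.mul_le_mul_right _ hbig
  have h7 : (d + 2) * (1 + t * d) ≤ (d + 2) * (1 + t * d) * m := Nat.le_mul_of_pos_right _ (by omega)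
  nlinarith

theorem crd (h : COR) : CRD := by
  classical
  intro t d ht
  obtain ⟨M0, hM0⟩ : ∃ M0 : ℕ, M0 = (d + 3) + (d + 2) * (1 + t * d) + 1 := ⟨_, rfl⟩
  refine ⟨(M0 : ℝ) + 5 * d + 6, by positivity, ?_⟩
  intro F _ _ f hf1 hfd hf0 hns a Q hQ
  obtain ⟨q, hq⟩ : ∃ q, q = Fintype.card F := ⟨_, rfl⟩
  obtain ⟨N, hN⟩ : ∃ N, N = (univ.filter fun x : F => f.eval x = 0 ∨ f.eval x ^ Q = a).card :=
    ⟨_, rfl⟩
  have key := fun m J D => h F t ht f hf1 hf0 hns a m J D Q hQ
  have hNq : N ≤ q := by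
    rw [hN, hq]; exact Finset.card_le_univ _
  rw [← hq] at key hQ ⊢
  have hgoal : (N : ℝ) ≤ q / t + ((M0 : ℝ) + 5 * d + 6) * Real.sqrt q := by
    obtain ⟨m, hm⟩ : ∃ m, m = Nat.sqrt q := ⟨_, rfl⟩
    have hm1 : m * m ≤ q := by rw [hm]; exact Nat.sqrt_le q
    have hm2 : q < (m + 1) * (m + 1) := by rw [hm]; exact Nat.lt_succ_sqrt q
    have hm3 : 1 ≤ m := by
      by_contra h0
      have : m = 0 := by omega
      subst this
      omega
    have hq0 : (0 : ℝ) ≤ q := Nat.cast_nonneg q
    have hs : Real.sqrt q ≤ m + 1 := by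
      rw [Real.sqrt_le_left (by positivity)]
      have : (q : ℝ) ≤ ((m + 1) * (m + 1) : ℕ) := by exact_mod_cast hm2.le
      push_cast at this
      nlinarith
    have hsq : Real.sqrt q * Real.sqrt q = q := Real.mul_self_sqrt hq0
    have hs0 : 0 ≤ Real.sqrt q := Real.sqrt_nonneg _
    have ht2 : 2 ≤ t := ht.two_le
    have htR : (0 : ℝ) < t := by exact_mod_cast ht.pos
    have hqt : (0 : ℝ) ≤ q / t := by positivity
    by_cases hbig : m < M0
    · have h1 : (N : ℝ) ≤ q := by exact_mod_cast hNq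
      have h2 : (m : ℝ) + 1 ≤ M0 := by exact_mod_cast hbig
      have h3 : Real.sqrt q * Real.sqrt q ≤ M0 * Real.sqrt q :=
        mul_le_mul_of_nonneg_right (hs.trans h2) hs0
      have h4 : 0 ≤ (5 * (d : ℝ) + 6) * Real.sqrt q := by positivity
      nlinarith
    · push Not at hbig
      obtain ⟨e, he⟩ : ∃ e, e = f.natDegree := ⟨_, rfl⟩
      rw [← he] at key hf1 hfd
      have hQe : e ≤ Q := by
        refine hfd.trans ?_
        by_contra hlt
        push Not at hlt
        have h1 : t * Q ≤ t * d := Nat.mul_le_mul_left _ hlt.le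
        have h2 : M0 * M0 ≤ m * m := Nat.mul_le_mul hbig hbig
        have h3 : t * d + 2 ≤ M0 := by
          rw [hM0]; nlinarith [Nat.zero_le (t * d), Nat.zero_le (d * (1 + t * d))]
        nlinarith
      obtain ⟨D, hD⟩ : ∃ D, D + e = Q := ⟨Q - e, by omega⟩
      obtain ⟨J, hJ⟩ : ∃ J, J = m / t + (d + 3) := ⟨_, rfl⟩
      have hJ1 : 1 ≤ J := by
        rw [hJ]
        exact le_trans (by omega) (Nat.le_add_left (d + 3) (m / t))
      have hk := key m J D (by rw [hD]; omega) (le_trans (by nlinarith) hm1) hJ1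
        (crd_dim t d e m J D Q q ht2 hQ hf1 hfd hD hm1 (by omega) hJ)
      rw [← hN] at hk
      have hJ2 : t * (J - 1) ≤ m + t * (d + 2) := by
        have h1 : J - 1 = m / t + (d + 2) := by
          rw [hJ]
          rfl
        rw [h1, mul_add]
        have := Nat.mul_div_le m t
        omega
      -- pass to the reals
      have hJR : ((J - 1 : ℕ) : ℝ) ≤ m / t + (d + 2) := by
        have : (t : ℝ) * ((J - 1 : ℕ) : ℝ) ≤ m + t * (d + 2) := by exact_mod_cast hJ2
        rw [← mul_le_mul_iff_right₀ htR]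
        calc (t : ℝ) * ((J - 1 : ℕ) : ℝ) ≤ m + t * (d + 2) := this
          _ = t * (m / t + (d + 2)) := by field_simp
      have hA : (t - 1) * Q * e ≤ q * d := by
        refine Nat.mul_le_mul ?_ hfd
        have : (t - 1) * Q ≤ t * Q := Nat.mul_le_mul_right _ (by omega)
        omega
      have hB : D ≤ q := by
        have : Q ≤ t * Q := Nat.le_mul_of_pos_left _ (by omega)
        omega
      have hme : m * e ≤ m * d := Nat.mul_le_mul_left _ hfd
      have hk2 : m * N ≤ m * d + q * d + q + (J - 1) * q := by omega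
      have hk3 : (m : ℝ) * N ≤ m * d + q * d + q + ((J - 1 : ℕ) : ℝ) * q := by exact_mod_cast hk2
      have hk4 : ((J - 1 : ℕ) : ℝ) * q ≤ (m / t + (d + 2)) * q := mul_le_mul_of_nonneg_right hJR hq0
      have hmR : (1 : ℝ) ≤ m := by exact_mod_cast hm3
      have hq2 : (q : ℝ) ≤ 2 * m * Real.sqrt q := by
        have : Real.sqrt q ≤ 2 * m := by linarith
        nlinarith [mul_le_mul_of_nonneg_right this hs0]
      have hs1 : 1 ≤ Real.sqrt q := by
        rw [Real.one_le_sqrt]
        exact_mod_cast (show 1 ≤ q by omega)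
      have hd0 : (0 : ℝ) ≤ d := Nat.cast_nonneg d
      have hk5 : (m : ℝ) * N ≤ m * (q / t + (5 * d + 6) * Real.sqrt q) := by
        have h1 : (m / t + ((d : ℝ) + 2)) * q = m * (q / t) + (d + 2) * q := by ring
        have h2 : (2 * (d : ℝ) + 3) * q ≤ (2 * d + 3) * (2 * m * Real.sqrt q) :=
          mul_le_mul_of_nonneg_left hq2 (by positivity)
        have h3 : (m : ℝ) * d ≤ m * (d * Real.sqrt q) := by
          refine mul_le_mul_of_nonneg_left ?_ (by positivity)
          nlinarith
        calc (m : ℝ) * N ≤ m * d + q * d + q + (m * (q / t) + (d + 2) * q) := by linarith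
          _ = m * d + (2 * d + 3) * q + m * (q / t) := by ring
          _ ≤ m * (d * Real.sqrt q) + (2 * d + 3) * (2 * m * Real.sqrt q) + m * (q / t) := by
            linarith
          _ = m * (q / t + (5 * d + 6) * Real.sqrt q) := by ring
      have hk6 : (N : ℝ) ≤ q / t + (5 * d + 6) * Real.sqrt q :=
        le_of_mul_le_mul_left hk5 (by linarith)
      have h4 : 0 ≤ (M0 : ℝ) * Real.sqrt q := by positivity
      nlinarith
  convert hgoal
  exact hN.symm

end Pool.Agent.H471R4.BW
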