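import Pool.Agent.H471R4.BW.Stubs
import Pool.Agent.H341R2.Stepanov

set_option autoImplicit false

namespace Pool.Agent.H471R4.BW

open Finset Polynomial

private theorem cs0_rm {F : Type} [Field F] [DecidableEq F] {ι : Type} [DecidableEq ι]
    (s : Finset ι) (e : ι → F) (a : F) :
    (∏ i ∈ s, (X + C (e i)) : F[X]).rootMultiplicity a = (s.filter (fun i => e i = -a)).card := by
  induction s using Finset.induction_on with
  | empty => simp
  | insert i s hi ih =>
    have hne : ∀ t : Finset ι, (∏ i ∈ t, (X + C (e i)) : F[X]) ≠ 0 := fun t =>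
      (monic_prod_of_monic _ _ fun j _ => monic_X_add_C _).ne_zero
    rw [Finset.prod_insert hi, rootMultiplicity_mul (mul_ne_zero (monic_X_add_C _).ne_zero (hne s)),
      ih, Finset.filter_insert]
    have h1 : (X + C (e i) : F[X]).rootMultiplicity a = if e i = -a then 1 else 0 := by
      have : (X + C (e i) : F[X]) = X - C (-(e i)) := by simp
      rw [this, rootMultiplicity_X_sub_C]
      congr 1
      exact propext ⟨fun h => by rw [h]; simp, fun h => by rw [h]; simp⟩
    rw [h1]
    split_ifs with h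
    · rw [Finset.card_insert_of_notMem (by simp [hi])]; ring
    · simp

theorem cs0 : CS0 := by
  intro p _ hp2 r B hB b c hb hc hu
  classical
  obtain ⟨v, hv⟩ := hu
  have hpos : 0 < r ∧ v < B := by
    by_contra hcon
    have h1 : (univ.filter fun i => b i = v) = ∅ := by
      rw [Finset.filter_eq_empty_iff]
      intro i _ hi
      exact hcon ⟨i.pos, hi ▸ hb i⟩
    have h2 : (univ.filter fun i => c i = v) = ∅ := by
      rw [Finset.filter_eq_empty_iff]
      intro i _ hi
      exact hcon ⟨i.pos, hi ▸ hc i⟩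
    rw [h1, h2] at hv
    simp at hv
  obtain ⟨hr, hvB⟩ := hpos
  set f : (ZMod p)[X] := (∏ i, (X + C (b i : ZMod p))) * ∏ i, (X + C (c i : ZMod p)) with hf
  have hm1 : (∏ i, (X + C (b i : ZMod p)) : (ZMod p)[X]).Monic :=
    monic_prod_of_monic _ _ fun j _ => monic_X_add_C _
  have hm2 : (∏ i, (X + C (c i : ZMod p)) : (ZMod p)[X]).Monic :=
    monic_prod_of_monic _ _ fun j _ => monic_X_add_C _
  have hdeg : f.natDegree = 2 * r := by
    rw [hf, hm1.natDegree_mul hm2, natDegree_prod_of_monic _ _ fun j _ => monic_X_add_C _,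
      natDegree_prod_of_monic _ _ fun j _ => monic_X_add_C _]
    simp only [natDegree_X_add_C, Finset.sum_const, Finset.card_univ, Fintype.card_fin]
    simp only [smul_eq_mul, mul_one]
    ring
  have hcast : ∀ w : ℕ, w < B → ((w : ZMod p) = -(-(v : ZMod p)) ↔ w = v) := by
    intro w hw
    rw [neg_neg, ZMod.natCast_eq_natCast_iff', Nat.mod_eq_of_lt (hw.trans_le hB),
      Nat.mod_eq_of_lt (hvB.trans_le hB)]
  have hroot : f.rootMultiplicity (-(v : ZMod p)) = 1 := by
    rw [hf, rootMultiplicity_mul (mul_ne_zero hm1.ne_zero hm2.ne_zero), cs0_rm, cs0_rm, ← hv]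
    congr 2
    · exact Finset.filter_congr fun i _ => hcast _ (hb i)
    · exact Finset.filter_congr fun i _ => hcast _ (hc i)
  have hns : ∀ (d : ZMod p) (h : (ZMod p)[X]), f ≠ C d * h ^ 2 := by
    intro d h hfh
    have hf0 : f ≠ 0 := (hm1.mul hm2).ne_zero
    have hd0 : d ≠ 0 := by
      rintro rfl
      exact hf0 (by rw [hfh]; simp)
    have hh0 : h ≠ 0 := by
      rintro rfl
      exact hf0 (by rw [hfh]; simp)
    rw [hfh, ← count_roots, roots_C_mul _ hd0, roots_pow, Multiset.count_nsmul] at hroot
    omega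
  have := Pool.Agent.H341R2.weil_bound (F := ZMod p) (by rw [ZMod.ringChar_zmod_n]; exact hp2) f
    (by omega) hns
  rw [hdeg, ZMod.card] at this
  calc _ = |∑ x : ZMod p, (quadraticChar (ZMod p) (f.eval x) : ℝ)| := by
        congr 1
        refine Finset.sum_congr rfl fun x _ => ?_
        rw [hf, eval_mul, eval_prod, eval_prod]
        simp
    _ ≤ _ := this
    _ = _ := by push_cast; ring

end Pool.Agent.H471R4.BW
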