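import Pool.Agent.H471R4.BW.Stubs2

set_option autoImplicit false

namespace Pool.Agent.H471R4.BW

open Finset

namespace CS1x

lemma jchar_eq (p : ℕ) [NeZero p] [Fact p.Prime] (x : ZMod p) :
    jchar p x = ((quadraticChar (ZMod p) x : ℤ) : ℂ) := by
  have h1 : jchar p x = ((jacobiSym (x.val : ℤ) p : ℤ) : ℂ) := rfl
  rw [h1, ← jacobiSym.legendreSym.to_jacobiSym, legendreSym]
  congr 2
  push_cast
  rw [ZMod.natCast_zmod_val]

end CS1x

open CS1x in
theorem cs1 (h : CS0) : CS1 := by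
  intro κ p _ hp hp2 hκ r B hr hB b c hb hc hu
  have : Fact p.Prime := ⟨hp⟩
  have hp1 : (1 : ℝ) ≤ p := by exact_mod_cast hp.one_lt.le
  have hBp : B ≤ p := by
    have h1 : (p : ℝ) ^ κ ≤ (p : ℝ) ^ (1 : ℝ) := Real.rpow_le_rpow_of_exponent_le hp1 hκ
    rw [Real.rpow_one] at h1
    exact_mod_cast hB.trans h1
  have h0 := h p hp2 r B hBp b c hb hc hu
  have h1 : ∑ x : ZMod p, (∏ i, jchar p (x + (b i : ZMod p))) *
      ∏ i, (starRingEnd ℂ) (jchar p (x + (c i : ZMod p))) =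
      ((∑ x : ZMod p, ((quadraticChar (ZMod p) ((∏ i, (x + (b i : ZMod p))) *
        ∏ i, (x + (c i : ZMod p))) : ℤ) : ℝ) : ℝ) : ℂ) := by
    rw [Complex.ofReal_sum]
    refine Finset.sum_congr rfl fun x _ => ?_
    rw [map_mul, map_prod, map_prod]
    push_cast
    simp only [jchar_eq, map_intCast]
  rw [h1, Complex.norm_real, Real.norm_eq_abs]
  refine h0.trans ?_
  refine mul_le_mul_of_nonneg_right ?_ (Real.sqrt_nonneg _)
  unfold KR
  have hr' : (1 : ℝ) ≤ r := by exact_mod_cast hr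
  nlinarith

end Pool.Agent.H471R4.BW
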