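import Pool.Agent.H471R4.BW.Stubs

set_option autoImplicit false

/-! CS2: complete sums modulo a product of two primes. -/

namespace Pool.Agent.H471R4.BW

open Finset

namespace CS2h

/-- the product of the shifts -/
def Fp {r : ℕ} (R : Type) [CommRing R] (b c : Fin r → ℕ) (x : R) : R :=
  (∏ i, (x + (b i : R))) * ∏ i, (x + (c i : R))

theorem Fp_map {r : ℕ} {R S : Type} [CommRing R] [CommRing S] (φ : R →+* S) (b c : Fin r → ℕ)
    (x : R) : φ (Fp R b c x) = Fp S b c (φ x) := by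
  unfold Fp
  rw [map_mul, map_prod, map_prod]
  simp

/-- the Jacobi symbol of a product of two primes -/
theorem jac (p q : ℕ) [Fact p.Prime] [Fact q.Prime] (a : ℤ) :
    jacobiSym a (p * q) = quadraticChar (ZMod p) (a : ZMod p) * quadraticChar (ZMod q) (a : ZMod q) := by
  rw [jacobiSym.mul_right' a (Fact.out : p.Prime).ne_zero (Fact.out : q.Prime).ne_zero,
    ← jacobiSym.legendreSym.to_jacobiSym, ← jacobiSym.legendreSym.to_jacobiSym]
  rfl

theorem jch (p q : ℕ) [Fact p.Prime] [Fact q.Prime] [NeZero (p * q)]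
    (φ : ZMod (p * q) →+* ZMod p) (ψ : ZMod (p * q) →+* ZMod q) (x : ZMod (p * q)) :
    jchar (p * q) x = ((quadraticChar (ZMod p) (φ x) * quadraticChar (ZMod q) (ψ x) : ℤ) : ℂ) := by
  have h1 : jchar (p * q) x = ((jacobiSym (x.val : ℤ) (p * q) : ℤ) : ℂ) := rfl
  rw [h1, jac]
  have h2 : ((x.val : ℤ) : ZMod p) = φ x := by
    conv_rhs => rw [← ZMod.natCast_zmod_val x]
    rw [map_natCast]
    push_cast
    rfl
  have h3 : ((x.val : ℤ) : ZMod q) = ψ x := by
    conv_rhs => rw [← ZMod.natCast_zmod_val x]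
    rw [map_natCast]
    push_cast
    rfl
  rw [h2, h3]

theorem prodch (p q : ℕ) [Fact p.Prime] [Fact q.Prime] [NeZero (p * q)]
    (φ : ZMod (p * q) →+* ZMod p) (ψ : ZMod (p * q) →+* ZMod q) {r : ℕ} (b c : Fin r → ℕ)
    (x : ZMod (p * q)) :
    (∏ i, jchar (p * q) (x + (b i : ZMod (p * q)))) *
      ∏ i, (starRingEnd ℂ) (jchar (p * q) (x + (c i : ZMod (p * q)))) =
    ((quadraticChar (ZMod p) (Fp (ZMod p) b c (φ x)) *
      quadraticChar (ZMod q) (Fp (ZMod q) b c (ψ x)) : ℤ) : ℂ) := by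
  have h1 : ∀ y : ZMod (p * q), (starRingEnd ℂ) (jchar (p * q) y) = jchar (p * q) y := by
    intro y
    rw [jch p q φ ψ y]
    exact map_intCast (starRingEnd ℂ) _
  simp only [h1]
  rw [← map_prod, ← map_prod, ← map_mul]
  have h2 : (∏ i, (x + (b i : ZMod (p * q)))) * ∏ i, (x + (c i : ZMod (p * q))) =
      Fp (ZMod (p * q)) b c x := rfl
  rw [h2, jch p q φ ψ, Fp_map, Fp_map]

end CS2h

open CS2h

theorem cs2 (h : CS0) : CS2 := by
  intro κ p q _ hp hq hp2 hq2 hpq hkp hkq r B hr hB b c hb hc hu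
  have : Fact p.Prime := ⟨hp⟩
  have : Fact q.Prime := ⟨hq⟩
  have hco : Nat.Coprime p q := (Nat.coprime_primes hp hq).2 hpq
  have hBp : B ≤ p := by exact_mod_cast hB.trans hkp
  have hBq : B ≤ q := by exact_mod_cast hB.trans hkq
  let e := ZMod.chineseRemainder hco
  let φ : ZMod (p * q) →+* ZMod p := (RingHom.fst (ZMod p) (ZMod q)).comp e.toRingHom
  let ψ : ZMod (p * q) →+* ZMod q := (RingHom.snd (ZMod p) (ZMod q)).comp e.toRingHom
  have h1 : ∑ x : ZMod (p * q), (∏ i, jchar (p * q) (x + (b i : ZMod (p * q)))) *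
      ∏ i, (starRingEnd ℂ) (jchar (p * q) (x + (c i : ZMod (p * q)))) =
      (((∑ y : ZMod p, quadraticChar (ZMod p) (Fp (ZMod p) b c y)) *
        (∑ z : ZMod q, quadraticChar (ZMod q) (Fp (ZMod q) b c z)) : ℤ) : ℂ) := by
    have e1 : ∑ x : ZMod (p * q), (∏ i, jchar (p * q) (x + (b i : ZMod (p * q)))) *
        ∏ i, (starRingEnd ℂ) (jchar (p * q) (x + (c i : ZMod (p * q)))) =
        ∑ x : ZMod (p * q), (fun w : ZMod p × ZMod q =>
          ((quadraticChar (ZMod p) (Fp (ZMod p) b c w.1) *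
            quadraticChar (ZMod q) (Fp (ZMod q) b c w.2) : ℤ) : ℂ)) (e.toEquiv x) := by
      refine Finset.sum_congr rfl fun x _ => ?_
      exact prodch p q φ ψ b c x
    rw [e1, Equiv.sum_comp e.toEquiv (fun w : ZMod p × ZMod q =>
          ((quadraticChar (ZMod p) (Fp (ZMod p) b c w.1) *
            quadraticChar (ZMod q) (Fp (ZMod q) b c w.2) : ℤ) : ℂ)), Finset.sum_mul_sum,
      Fintype.sum_prod_type]
    push_cast
    rfl
  rw [h1]
  set u : ℤ := ∑ y : ZMod p, quadraticChar (ZMod p) (Fp (ZMod p) b c y) with hud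
  set w : ℤ := ∑ z : ZMod q, quadraticChar (ZMod q) (Fp (ZMod q) b c z) with hwd
  have h2 : |(u : ℝ)| ≤ 10 * r * Real.sqrt p := by
    have := h p hp2 r B hBp b c hb hc hu
    rw [hud]
    push_cast
    exact this
  have h3 : |(w : ℝ)| ≤ 10 * r * Real.sqrt q := by
    have := h q hq2 r B hBq b c hb hc hu
    rw [hwd]
    push_cast
    exact this
  have h4 : ‖((u * w : ℤ) : ℂ)‖ = |(u : ℝ)| * |(w : ℝ)| := by
    rw [Complex.norm_intCast]
    push_cast
    rw [abs_mul]
  rw [h4]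
  calc |(u : ℝ)| * |(w : ℝ)| ≤ (10 * r * Real.sqrt p) * (10 * r * Real.sqrt q) :=
        mul_le_mul h2 h3 (abs_nonneg _) (by positivity)
    _ = KR r * Real.sqrt ((p * q : ℕ) : ℝ) := by
        unfold KR
        push_cast
        rw [Real.sqrt_mul (Nat.cast_nonneg p)]
        ring

end Pool.Agent.H471R4.BW
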