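import Pool.Agent.H471R4.BW.Stubs2

set_option autoImplicit false

namespace Pool.Agent.H471R4.BW

open Finset Polynomial

theorem csl_conj {q t : ℕ} [Fact q.Prime] (ht : t.Prime) (χ : DirichletCharacter ℂ q)
    (hχ : χ ^ t = 1) (z : ZMod q) : (starRingEnd ℂ) (χ z) = χ z ^ (t - 1) := by
  by_cases hz : z = 0
  · have h0 : χ z = 0 := by
      rw [hz]
      exact MulChar.map_zero χ
    have ht2 := ht.two_le
    rw [h0, map_zero, zero_pow (by omega)]
  · have hu : IsUnit z := isUnit_iff_ne_zero.2 hz
    have h1 : χ z ^ t = 1 := by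
      rw [← MulChar.pow_apply' χ ht.ne_zero, hχ, MulChar.one_apply hu]
    have h2 : ‖χ z‖ = 1 := Complex.norm_eq_one_of_pow_eq_one h1 ht.ne_zero
    have h3 : χ z ≠ 0 := by
      intro h
      rw [h, norm_zero] at h2
      exact zero_ne_one h2
    rw [← Complex.inv_eq_conj h2]
    have h4 : χ z ^ t = χ z ^ (t - 1) * χ z := by
      rw [← pow_succ]
      congr 1
      have := ht.two_le
      omega
    rw [h4] at h1
    exact (eq_inv_of_mul_eq_one_left h1).symm

theorem csl_rm_prod {F ι : Type} [Field F] (s : Finset ι) (f : ι → F[X]) (a : F)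
    (hf : ∀ i ∈ s, f i ≠ 0) :
    rootMultiplicity a (∏ i ∈ s, f i) = ∑ i ∈ s, rootMultiplicity a (f i) := by
  classical
  induction s using Finset.induction_on with
  | empty =>
    rw [prod_empty, sum_empty, ← C_1, rootMultiplicity_C]
  | insert i s hi ih =>
    rw [prod_insert hi, sum_insert hi, rootMultiplicity_mul, ih]
    · exact fun j hj => hf j (mem_insert_of_mem hj)
    · exact mul_ne_zero (hf i (mem_insert_self _ _))
        (prod_ne_zero_iff.2 fun j hj => hf j (mem_insert_of_mem hj))

theorem csl_rm_pow {F : Type} [Field F] (f : F[X]) (a : F) (hf : f ≠ 0) (n : ℕ) :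
    rootMultiplicity a (f ^ n) = n * rootMultiplicity a f := by
  induction n with
  | zero => rw [pow_zero, zero_mul, ← C_1, rootMultiplicity_C]
  | succ n ih =>
    rw [pow_succ, rootMultiplicity_mul (mul_ne_zero (pow_ne_zero _ hf) hf), ih]
    ring

open Classical in
theorem csl_count {q r B : ℕ} [Fact q.Prime] (hB : B ≤ q) (b : Fin r → ℕ)
    (hb : ∀ i, b i < B) (v : ℕ) (hv : v < B) :
    ∑ i, rootMultiplicity (-(v : ZMod q)) (X + C (b i : ZMod q) : (ZMod q)[X]) =
      (univ.filter fun i => b i = v).card := by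
  rw [card_filter]
  refine sum_congr rfl fun i _ => ?_
  have e : (X + C (b i : ZMod q) : (ZMod q)[X]) = X - C (-(b i : ZMod q)) := by
    rw [map_neg, sub_neg_eq_add]
  rw [e, rootMultiplicity_X_sub_C]
  have h : -(v : ZMod q) = -(b i : ZMod q) ↔ b i = v := by
    rw [neg_inj]
    constructor
    · intro h
      have h1 := congrArg ZMod.val h
      rw [ZMod.val_natCast_of_lt (lt_of_lt_of_le hv hB),
        ZMod.val_natCast_of_lt (lt_of_lt_of_le (hb i) hB)] at h1
      exact h1.symm
    · intro h
      rw [h]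
  by_cases hc : b i = v
  · rw [if_pos (h.2 hc), if_pos hc]
  · rw [if_neg (fun h' => hc (h.1 h')), if_neg hc]

theorem csl (h : WEL) : CSL := by
  classical
  intro t ht
  have ht2 := ht.two_le
  refine ⟨fun r => (h t (r * t) ht).choose, fun r => (h t (r * t) ht).choose_spec.1, ?_⟩
  intro κ q _ hq htq hκ χ hχ1 hχt r B hr hBκ b c hb hc huniq
  have : Fact q.Prime := ⟨hq⟩
  have hspec := (h t (r * t) ht).choose_spec.2
  have hq1 : (1 : ℝ) ≤ q := by exact_mod_cast hq.one_le
  have hBq : B ≤ q := by
    have h1 : (B : ℝ) ≤ (q : ℝ) := by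
      refine hBκ.trans ?_
      calc (q : ℝ) ^ κ ≤ (q : ℝ) ^ (1 : ℝ) := Real.rpow_le_rpow_of_exponent_le hq1 hκ
        _ = q := Real.rpow_one _
    exact_mod_cast h1
  set P : (ZMod q)[X] := ∏ i, (X + C (b i : ZMod q)) with hP
  set R : (ZMod q)[X] := ∏ i, (X + C (c i : ZMod q)) with hR
  have hPm : P.Monic := monic_prod_of_monic _ _ fun i _ => monic_X_add_C _
  have hRm : R.Monic := monic_prod_of_monic _ _ fun i _ => monic_X_add_C _
  have hF0 : P * R ^ (t - 1) ≠ 0 := (hPm.mul (hRm.pow _)).ne_zero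
  have hPdeg : P.natDegree = r := by
    rw [hP, natDegree_prod_of_monic _ _ fun i _ => monic_X_add_C _,
      sum_congr rfl (fun i _ => natDegree_X_add_C (b i : ZMod q))]
    simp
  have hRdeg : R.natDegree = r := by
    rw [hR, natDegree_prod_of_monic _ _ fun i _ => monic_X_add_C _,
      sum_congr rfl (fun i _ => natDegree_X_add_C (c i : ZMod q))]
    simp
  have hdeg : (P * R ^ (t - 1)).natDegree ≤ r * t := by
    rw [hPm.natDegree_mul (hRm.pow _), hRm.natDegree_pow, hPdeg, hRdeg]
    have : t = (t - 1) + 1 := by omega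
    calc r + (t - 1) * r = r * ((t - 1) + 1) := by ring
      _ ≤ r * t := by rw [← this]
  have hnot : ∀ (a : ZMod q) (g : (ZMod q)[X]), P * R ^ (t - 1) ≠ C a * g ^ t := by
    intro a g hag
    obtain ⟨v, hv⟩ := huniq
    have hvB : v < B := by
      by_contra hcon
      have h1 : (univ.filter fun i => b i = v) = ∅ := by
        refine filter_false_of_mem fun i _ hi => ?_
        have := hb i
        omega
      have h2 : (univ.filter fun i => c i = v) = ∅ := by
        refine filter_false_of_mem fun i _ hi => ?_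
        have := hc i
        omega
      rw [h1, h2] at hv
      simp at hv
    have hg0 : C a * g ^ t ≠ 0 := hag ▸ hF0
    have hg : g ≠ 0 := by
      rintro rfl
      rw [zero_pow ht.ne_zero, mul_zero] at hg0
      exact hg0 rfl
    have e1 : rootMultiplicity (-(v : ZMod q)) (C a * g ^ t) =
        t * rootMultiplicity (-(v : ZMod q)) g := by
      rw [rootMultiplicity_mul hg0, rootMultiplicity_C, csl_rm_pow g _ hg, zero_add]
    have e2 : rootMultiplicity (-(v : ZMod q)) (P * R ^ (t - 1)) =
        (univ.filter fun i => b i = v).card + (t - 1) * (univ.filter fun i => c i = v).card := by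
      rw [rootMultiplicity_mul hF0, csl_rm_pow R _ hRm.ne_zero, hP, hR,
        csl_rm_prod _ _ _ (fun i _ => (monic_X_add_C _).ne_zero),
        csl_rm_prod _ _ _ (fun i _ => (monic_X_add_C _).ne_zero), csl_count hBq b hb v hvB,
        csl_count hBq c hc v hvB]
    rw [hag, e1] at e2
    generalize (univ.filter fun i => b i = v).card = m₁ at hv e2
    generalize (univ.filter fun i => c i = v).card = m₂ at hv e2
    have hdvd : t ∣ m₁ + (t - 1) * m₂ := ⟨_, e2.symm⟩
    have hcases : (m₁ = 1 ∧ m₂ = 0) ∨ (m₁ = 0 ∧ m₂ = 1) := by omega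
    rcases hcases with ⟨rfl, rfl⟩ | ⟨rfl, rfl⟩
    · rw [mul_zero, add_zero] at hdvd
      have := Nat.le_of_dvd one_pos hdvd
      omega
    · rw [zero_add, mul_one] at hdvd
      have := Nat.le_of_dvd (by omega) hdvd
      omega
  have hmain := hspec q htq χ hχ1 hχt (P * R ^ (t - 1)) hdeg hF0 hnot
  have hsum : ∑ x : ZMod q, (∏ i, χ (x + (b i : ZMod q))) *
      ∏ i, (starRingEnd ℂ) (χ (x + (c i : ZMod q))) =
      ∑ x : ZMod q, χ ((P * R ^ (t - 1)).eval x) := by
    refine sum_congr rfl fun x _ => ?_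
    rw [eval_mul, eval_pow, hP, hR, eval_prod, eval_prod, map_mul, map_pow, map_prod, map_prod,
      ← prod_pow]
    congr 1
    · refine prod_congr rfl fun i _ => ?_
      rw [eval_add, eval_X, eval_C]
    · refine prod_congr rfl fun i _ => ?_
      rw [eval_add, eval_X, eval_C, csl_conj ht χ hχt]
  rw [hsum]
  exact hmain

end Pool.Agent.H471R4.BW
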