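import Pool.Agent.H471R4.BW.Stubs2

set_option autoImplicit false

namespace Pool.Agent.H471R4.BW

open Pool.Agent.H379R2.W

theorem cse : CSE := by
  intro n y hn hy hpass p q r hp hq hr hpq hqr hpn hqn hrn
  have hn2 : 2 ≤ n := le_trans hp.two_le (Nat.le_of_dvd hn hpn)
  have hyp : y < p := by
    by_contra hcon
    exact not_dvd_of_passes hn2 hp hpn (hpass p hp.one_lt (by omega)) (dvd_refl p)
  have hp2 : p ≠ 2 := by omega
  have hq2 : q ≠ 2 := by omega
  have hr2 : r ≠ 2 := by omega
  have hdvd : p * q * r ∣ n := by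
    have h1 : Nat.Coprime p q := (Nat.coprime_primes hp hq).2 (by omega)
    have h2 : Nat.Coprime p r := (Nat.coprime_primes hp hr).2 (by omega)
    have h3 : Nat.Coprime q r := (Nat.coprime_primes hq hr).2 (by omega)
    exact Nat.Coprime.mul_dvd_of_dvd_of_dvd (Nat.Coprime.mul_left h2 h3)
      (Nat.Coprime.mul_dvd_of_dvd_of_dvd h1 hpn hqn) hrn
  have hle : p * q * r ≤ n := Nat.le_of_dvd hn hdvd
  have hp0 : 0 < p := hp.pos
  have hq0 : 0 < q := hq.pos
  have hr0 : 0 < r := hr.pos
  have : NeZero p := ⟨hp.ne_zero⟩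
  have : NeZero q := ⟨hq.ne_zero⟩
  have : NeZero r := ⟨hr.ne_zero⟩
  have hsq : ∀ l s : ℕ, l.Prime → l ≤ y → s.Prime → p ≤ s →
      jacobiSym l s * jacobiSym l s = 1 := by
    intro l s hl hly hs hps
    have hg : Int.gcd (l : ℤ) s = 1 := by
      rw [Int.gcd_natCast_natCast]
      exact (Nat.coprime_primes hl hs).2 (by omega)
    rcases jacobiSym.eq_one_or_neg_one hg with h | h <;> rw [h] <;> norm_num
  have hpqn : p * p ≤ n := by
    refine le_trans ?_ hle
    calc p * p ≤ p * q := Nat.mul_le_mul_left _ hpq.le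
      _ ≤ p * q * r := Nat.le_mul_of_pos_right _ hr0
  have hqqn : q * q ≤ n := by
    refine le_trans ?_ hle
    calc q * q ≤ q * r := Nat.mul_le_mul_left _ hqr.le
      _ ≤ p * (q * r) := Nat.le_mul_of_pos_left _ hp0
      _ = p * q * r := by ring
  refine ⟨hyp, hle, ?_⟩
  rcases lt_trichotomy (v2 p) (v2 q) with hv | hv | hv
  · right
    refine ⟨q, by simp, by rw [sq]; exact hqqn, fun l hl hly => ?_⟩
    exact symbol_one (hpass l hl.one_lt hly) hq hp hq2 hp2 hqn hpn hv
  · rcases lt_trichotomy (v2 r) (v2 p) with hw | hw | hw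
    · right
      refine ⟨p, by simp, by rw [sq]; exact hpqn, fun l hl hly => ?_⟩
      exact symbol_one (hpass l hl.one_lt hly) hp hr hp2 hr2 hpn hrn hw
    · left
      intro l hl hly
      have h1 := same_symbol (hpass l hl.one_lt hly) hp hq hp2 hq2 hpn hqn hv
      have h2 := same_symbol (hpass l hl.one_lt hly) hp hr hp2 hr2 hpn hrn hw.symm
      have h3 := hsq l p hl hly hp le_rfl
      rw [jacobiSym.mul_right, jacobiSym.mul_right, jacobiSym.mul_right, ← h1, ← h2]
      exact ⟨h3, h3, h3⟩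
    · right
      have hrr : ∀ l : ℕ, l.Prime → l ≤ y → jacobiSym l r = 1 := fun l hl hly =>
        symbol_one (hpass l hl.one_lt hly) hr hp hr2 hp2 hrn hpn hw
      by_cases hrn2 : r ^ 2 ≤ n
      · exact ⟨r, by simp, hrn2, hrr⟩
      · refine ⟨p * q, by simp, ?_, fun l hl hly => ?_⟩
        · have h1 : p * q * r < r * r := by
            rw [sq] at hrn2
            omega
          have h2 : p * q < r := Nat.lt_of_mul_lt_mul_right h1
          calc (p * q) ^ 2 = p * q * (p * q) := by ring
            _ ≤ p * q * r := Nat.mul_le_mul_left _ h2.le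
            _ ≤ n := hle
        · rw [jacobiSym.mul_right,
            ← same_symbol (hpass l hl.one_lt hly) hp hq hp2 hq2 hpn hqn hv]
          exact hsq l p hl hly hp le_rfl
  · right
    refine ⟨p, by simp, by rw [sq]; exact hpqn, fun l hl hly => ?_⟩
    exact symbol_one (hpass l hl.one_lt hly) hp hq hp2 hq2 hpn hqn hv

end Pool.Agent.H471R4.BW
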