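import Pool.Agent.H471R4.BW.Stubs2

set_option autoImplicit false

namespace Pool.Agent.H471R4.BW

open Pool.Agent.H379R2.W

/-- Consequences of passing the strong test for all bases up to `y`, for three prime divisors. -/
theorem cse2 (n y : ℕ) (hn : 0 < n) (hy : 2 ≤ y)
    (hpass : ∀ b : ℕ, 1 < b → b ≤ y → Passes n b) (p q r : ℕ) (hp : p.Prime) (hq : q.Prime)
    (hr : r.Prime) (hpq : p < q) (hqr : q < r) (hpn : p ∣ n) (hqn : q ∣ n) (hrn : r ∣ n) :
    y < p ∧ p * q * r ≤ n ∧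
      ((∀ l : ℕ, l.Prime → l ≤ y → jacobiSym l (p * q) = 1 ∧ jacobiSym l (p * r) = 1 ∧
          jacobiSym l (q * r) = 1) ∨
        (∃ N : ℕ, (N = p ∨ N = q) ∧ ∀ l : ℕ, l.Prime → l ≤ y → jacobiSym l N = 1) ∨
        ((∀ l : ℕ, l.Prime → l ≤ y → jacobiSym l r = 1) ∧
          ∀ l : ℕ, l.Prime → l ≤ y → jacobiSym l (p * q) = 1)) := by
  have hn2 : 2 ≤ n := le_trans hp.two_le (Nat.le_of_dvd hn hpn)
  have hyp : y < p := by
    by_contra hcon
    exact not_dvd_of_passes hn2 hp hpn (hpass p hp.one_lt (by omega)) (dvd_refl p)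
  have hp2 : p ≠ 2 := by omega
  have hq2 : q ≠ 2 := by omega
  have hr2 : r ≠ 2 := by omega
  have hdvd : p * q * r ∣ n := by
    have h1 : Nat.Coprime p q := (Nat.coprime_primes hp hq).2 (by omega)
    have h2 : Nat.Coprime p r := (Nat.coprime_primes hp hr).2 (by omega)
    have h3 : Nat.Coprime q r := (Nat.coprime_primes hq hr).2 (by omega)
    exact Nat.Coprime.mul_dvd_of_dvd_of_dvd (Nat.Coprime.mul_left h2 h3)
      (Nat.Coprime.mul_dvd_of_dvd_of_dvd h1 hpn hqn) hrn
  have hle : p * q * r ≤ n := Nat.le_of_dvd hn hdvd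
  have hp0 : 0 < p := hp.pos
  have hq0 : 0 < q := hq.pos
  have hr0 : 0 < r := hr.pos
  have : NeZero p := ⟨hp.ne_zero⟩
  have : NeZero q := ⟨hq.ne_zero⟩
  have : NeZero r := ⟨hr.ne_zero⟩
  have hsq : ∀ l s : ℕ, l.Prime → l ≤ y → s.Prime → p ≤ s →
      jacobiSym l s * jacobiSym l s = 1 := by
    intro l s hl hly hs hps
    have hg : Int.gcd (l : ℤ) s = 1 := by
      rw [Int.gcd_natCast_natCast]
      exact (Nat.coprime_primes hl hs).2 (by omega)
    rcases jacobiSym.eq_one_or_neg_one hg with h | h <;> rw [h] <;> norm_num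
  refine ⟨hyp, hle, ?_⟩
  rcases lt_trichotomy (v2 p) (v2 q) with hv | hv | hv
  · right; left
    refine ⟨q, by simp, fun l hl hly => ?_⟩
    exact symbol_one (hpass l hl.one_lt hly) hq hp hq2 hp2 hqn hpn hv
  · rcases lt_trichotomy (v2 r) (v2 p) with hw | hw | hw
    · right; left
      refine ⟨p, by simp, fun l hl hly => ?_⟩
      exact symbol_one (hpass l hl.one_lt hly) hp hr hp2 hr2 hpn hrn hw
    · left
      intro l hl hly
      have h1 := same_symbol (hpass l hl.one_lt hly) hp hq hp2 hq2 hpn hqn hv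
      have h2 := same_symbol (hpass l hl.one_lt hly) hp hr hp2 hr2 hpn hrn hw.symm
      have h3 := hsq l p hl hly hp le_rfl
      rw [jacobiSym.mul_right, jacobiSym.mul_right, jacobiSym.mul_right, ← h1, ← h2]
      exact ⟨h3, h3, h3⟩
    · right; right
      refine ⟨fun l hl hly =>
        symbol_one (hpass l hl.one_lt hly) hr hp hr2 hp2 hrn hpn hw, fun l hl hly => ?_⟩
      rw [jacobiSym.mul_right, ← same_symbol (hpass l hl.one_lt hly) hp hq hp2 hq2 hpn hqn hv]
      exact hsq l p hl hly hp le_rfl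
  · right; left
    refine ⟨p, by simp, fun l hl hly => ?_⟩
    exact symbol_one (hpass l hl.one_lt hly) hp hq hp2 hq2 hpn hqn hv

end Pool.Agent.H471R4.BW
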