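import Pool.Agent.H471R4.BW.Stubs2

set_option autoImplicit false

/-! Project BW: final assembly. -/

namespace Pool.Agent.H471R4.BW

open Finset

open Pool.Agent.H379R2.W (Passes)

lemma not_passes {n b : ℕ} (h : ¬ Passes n b) (j d : ℕ) (h1 : n - 1 = 2 ^ j * d) (h2 : Odd d) :
    (b : ZMod n) ^ d ≠ 1 ∧ ∀ i : ℕ, i < j → (b : ZMod n) ^ (2 ^ i * d) ≠ -1 := by
  refine ⟨fun e => h ⟨j, d, h1, h2, Or.inl e⟩, fun i hi e => h ⟨j, d, h1, h2, Or.inr ⟨i, hi, e⟩⟩⟩

lemma theta_ge : 1 / (8 * Real.exp (1 / 2)) ≤ theta := by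
  unfold theta
  have h1 : (0 : ℝ) < Real.exp (1 / 2) := Real.exp_pos _
  have h2 : Real.exp (3 / 4) = Real.exp (1 / 2) * Real.exp (1 / 4) := by
    rw [← Real.exp_add]; norm_num
  have h3 : Real.exp (1 / 4) ≤ 3 / 2 := by
    have h4 : Real.exp (1 / 4) ^ 4 = Real.exp 1 := by
      rw [← Real.exp_nat_mul]; norm_num
    have h5 := Real.exp_one_lt_d9
    by_contra hlt
    push Not at hlt
    have h6 : (3 / 2 : ℝ) ^ 4 < Real.exp (1 / 4) ^ 4 := pow_lt_pow_left₀ hlt (by norm_num) (by norm_num)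
    rw [h4] at h6
    norm_num at h6
    linarith
  apply one_div_le_one_div_of_le
  · positivity
  · rw [h2]
    nlinarith

lemma theta_pos : 0 < theta := by
  unfold theta; positivity

lemma log_sq_le (c : ℝ) (hc : 0 < c) : ∃ n0 : ℕ, ∀ n : ℕ, n0 ≤ n →
    2 * (Real.log n) ^ 2 ≤ (n : ℝ) ^ c := by
  have h1 := isLittleO_log_rpow_rpow_atTop (s := c) 2 hc
  have h2 := h1.def (by norm_num : (0 : ℝ) < 1 / 2)
  obtain ⟨Y, hY⟩ := Filter.eventually_atTop.mp h2
  refine ⟨max 1 ⌈Y⌉₊, fun n hn => ?_⟩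
  have h3 := hY n (Nat.ceil_le.mp ((le_max_right _ _).trans hn))
  have h4 : (1 : ℝ) ≤ n := by exact_mod_cast (le_max_left _ _).trans hn
  have h5 : 0 ≤ Real.log n := Real.log_nonneg h4
  rw [Real.norm_of_nonneg (by positivity), Real.norm_of_nonneg (by positivity)] at h3
  have h6 : Real.log n ^ (2 : ℝ) = Real.log n ^ 2 := by norm_cast
  rw [h6] at h3
  linarith

theorem final (h3 : MN3) (hP : MNP) (hS : MSQ) (ε : ℝ) (hε : 0 < ε) :
    ∃ n0 : ℕ, ∀ n : ℕ, n0 ≤ n → ¬ n.Prime →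
      ∃ b : ℕ, 1 < b ∧ (b : ℝ) ≤ (n : ℝ) ^ (theta + ε) ∧ ¬ Passes n b := by
  obtain ⟨a, ha⟩ := h3 ε hε
  obtain ⟨b, hb⟩ := hP ε hε
  obtain ⟨c, hc⟩ := hS
  obtain ⟨d, hd⟩ := log_sq_le theta theta_pos
  refine ⟨max (max a b) (max (max c d) 2), fun n hn hnp => ?_⟩
  have ha' : a ≤ n := ((le_max_left _ _).trans (le_max_left _ _)).trans hn
  have hb' : b ≤ n := ((le_max_right _ _).trans (le_max_left _ _)).trans hn
  have hc' : c ≤ n := ((le_max_left _ _).trans ((le_max_left _ _).trans (le_max_right _ _))).trans hn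
  have hd' : d ≤ n := ((le_max_right _ _).trans ((le_max_left _ _).trans (le_max_right _ _))).trans hn
  have h2' : 2 ≤ n := ((le_max_right _ _).trans (le_max_right _ _)).trans hn
  have hn1 : (1 : ℝ) ≤ n := by exact_mod_cast (by omega : 1 ≤ n)
  by_cases hsq : ∃ p : ℕ, p.Prime ∧ p ^ 2 ∣ n
  · obtain ⟨p, hp, hpn⟩ := hsq
    obtain ⟨w, hw1, hw2, hw3⟩ := hc n hc' p hp hpn
    refine ⟨w, hw1, hw2.trans ((hd n hd').trans ?_), hw3⟩
    exact Real.rpow_le_rpow_of_exponent_le hn1 (by linarith)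
  · have hsf : Squarefree n := by
      rw [Nat.squarefree_iff_prime_squarefree]
      intro p hp hpp
      exact hsq ⟨p, hp, by rwa [pow_two]⟩
    have hprod := Nat.prod_primeFactors_of_squarefree hsf
    by_cases hcard : 3 ≤ n.primeFactors.card
    · exact ha n ha' hcard
    · have hcases : n.primeFactors.card = 0 ∨ n.primeFactors.card = 1 ∨ n.primeFactors.card = 2 := by
        omega
      rcases hcases with h0 | h0 | h0
      · rw [Finset.card_eq_zero] at h0
        rw [h0, Finset.prod_empty] at hprod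
        omega
      · rw [Finset.card_eq_one] at h0
        obtain ⟨p, hp⟩ := h0
        rw [hp, Finset.prod_singleton] at hprod
        have : p ∈ n.primeFactors := by rw [hp]; simp
        exact absurd (hprod ▸ Nat.prime_of_mem_primeFactors this) hnp
      · rw [Finset.card_eq_two] at h0
        obtain ⟨p, q, hpq, hpqe⟩ := h0
        rw [hpqe, Finset.prod_pair hpq] at hprod
        have hpm : p.Prime := Nat.prime_of_mem_primeFactors (by rw [hpqe]; simp : p ∈ n.primeFactors)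
        have hqm : q.Prime := Nat.prime_of_mem_primeFactors (by rw [hpqe]; simp : q ∈ n.primeFactors)
        have hle : ∀ w : ℕ, (w : ℝ) ≤ (n : ℝ) ^ (1 / (8 * Real.exp (1 / 2)) + ε) →
            (w : ℝ) ≤ (n : ℝ) ^ (theta + ε) := fun w hw =>
          hw.trans (Real.rpow_le_rpow_of_exponent_le hn1 (by linarith [theta_ge]))
        rcases lt_or_gt_of_ne hpq with hlt | hlt
        · obtain ⟨w, hw1, hw2, hw3⟩ := hb n hb' p q hpm hqm hlt hprod.symm
          exact ⟨w, hw1, hle w hw2, hw3⟩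
        · obtain ⟨w, hw1, hw2, hw3⟩ := hb n hb' q p hqm hpm hlt (by rw [mul_comm]; exact hprod.symm)
          exact ⟨w, hw1, hle w hw2, hw3⟩

end Pool.Agent.H471R4.BW
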