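import Pool.Agent.H471R4.BW.Cse2

set_option autoImplicit false

/-! Project BW: general forms of the two contradictions, and integers with at least `k ≥ 4`
distinct prime factors. -/

namespace Pool.Agent.H471R4.BW

open Finset Filter

open Pool.Agent.H379R2.W (Passes)

lemma gap_contra (ρ ρ' : ℝ) (h : ρ' < ρ) (h0 : 0 < ρ') :
    ∃ n0 : ℕ, ∀ n : ℕ, n0 ≤ n → ∀ y : ℕ, (n : ℝ) ^ ρ < (y : ℝ) + 1 → (y : ℝ) ≤ (n : ℝ) ^ ρ' →
      False := by
  have t2 : Tendsto (fun n : ℕ => (n : ℝ) ^ (ρ - ρ')) atTop atTop :=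
    (tendsto_rpow_atTop (by linarith)).comp tendsto_natCast_atTop_atTop
  have e2 := t2.eventually_ge_atTop (2 : ℝ)
  have e3 := Filter.eventually_ge_atTop (1 : ℕ)
  obtain ⟨n0, hn0⟩ := Filter.eventually_atTop.1 (e2.and e3)
  refine ⟨n0, fun n hn y h1 h2 => ?_⟩
  obtain ⟨g2, g3⟩ := hn0 n hn
  have hn1 : (1 : ℝ) ≤ n := by exact_mod_cast g3
  have k2 : (n : ℝ) ^ ρ = (n : ℝ) ^ ρ' * (n : ℝ) ^ (ρ - ρ') := by
    rw [← Real.rpow_add (by linarith)]
    congr 1
    ring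
  have k3 : (1 : ℝ) ≤ (n : ℝ) ^ ρ' := Real.one_le_rpow hn1 h0.le
  rw [k2] at h1
  nlinarith

lemma large_rpow (κ : ℝ) (hκ : 0 < κ) (M : ℝ) : ∃ n0 : ℕ, ∀ n : ℕ, n0 ≤ n → M ≤ (n : ℝ) ^ κ := by
  have t1 : Tendsto (fun n : ℕ => (n : ℝ) ^ κ) atTop atTop :=
    (tendsto_rpow_atTop hκ).comp tendsto_natCast_atTop_atTop
  obtain ⟨n0, hn0⟩ := Filter.eventually_atTop.1 (t1.eventually_ge_atTop M)
  exact ⟨n0, hn0⟩

/-- one real character, general exponents -/
theorem singleContra (h : SNG) (κ σ ρ : ℝ) (hκ : 0 < κ) (hσ : 0 < σ)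
    (hρ : σ / (4 * Real.exp (1 / 2)) < ρ) :
    ∃ n0 : ℕ, ∀ n : ℕ, n0 ≤ n → ∀ N y : ℕ, ∀ [NeZero N], (n : ℝ) ^ ρ < (y : ℝ) + 1 →
      (n : ℝ) ^ κ ≤ N → (N : ℝ) ≤ (n : ℝ) ^ σ → Fam κ KR N (jchar N) →
      (∀ l : ℕ, l.Prime → l ≤ y → jacobiSym l N = 1) → False := by
  have hKR : ∀ r, 0 ≤ KR r := fun r => by unfold KR; positivity
  obtain ⟨a, ha⟩ : ∃ a : ℝ, a = 1 / (4 * Real.exp (1 / 2)) := ⟨_, rfl⟩
  have ha0 : 0 < a := by rw [ha]; positivity
  have hρ' : σ * a < ρ := by rw [ha, mul_one_div]; exact hρ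
  obtain ⟨ε, hεd⟩ : ∃ ε : ℝ, ε = (ρ - σ * a) / (2 * σ) := ⟨_, rfl⟩
  have hε : 0 < ε := by rw [hεd]; apply div_pos <;> linarith
  have hσε : σ * (a + ε) = (ρ + σ * a) / 2 := by
    rw [hεd]; field_simp; ring
  obtain ⟨N0, hN0⟩ := h ε κ KR hε hκ hKR
  obtain ⟨n1, hn1⟩ := gap_contra ρ (σ * (a + ε)) (by rw [hσε]; linarith) (by positivity)
  obtain ⟨n2, hn2⟩ := large_rpow κ hκ N0
  refine ⟨max n1 n2, fun n hn N y _ h1 h2 h3 h4 h5 => ?_⟩
  have hN : N0 ≤ N := by exact_mod_cast (hn2 n ((le_max_right _ _).trans hn)).trans h2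
  have hy := hN0 N hN (jchar N) h4 y (fun l hl hly => by
    rw [jchar_apply, h5 l hl hly]; norm_num)
  rw [← ha] at hy
  refine hn1 n ((le_max_left _ _).trans hn) y h1 (hy.trans ?_)
  calc (N : ℝ) ^ (a + ε) ≤ ((n : ℝ) ^ σ) ^ (a + ε) :=
        Real.rpow_le_rpow (by positivity) h3 (by positivity)
    _ = (n : ℝ) ^ (σ * (a + ε)) := by rw [← Real.rpow_mul (by positivity)]

lemma jac_dich {l s : ℕ} (hl : l.Prime) (hs : s.Prime) (hne : l ≠ s) :
    jacobiSym l s = 1 ∨ jacobiSym l s = -1 := by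
  have hg : Int.gcd (l : ℤ) s = 1 := by
    rw [Int.gcd_natCast_natCast]
    exact (Nat.coprime_primes hl hs).2 hne
  exact jacobiSym.eq_one_or_neg_one hg

lemma one_of_three {p q r l : ℕ} (hp : p.Prime) (hq : q.Prime) (hr : r.Prime) (hl : l.Prime)
    (h : l ∉ ({p, q, r} : Finset ℕ)) :
    jacobiSym l (p * q) = 1 ∨ jacobiSym l (p * r) = 1 ∨ jacobiSym l (q * r) = 1 := by
  simp only [Finset.mem_insert, Finset.mem_singleton, not_or] at h
  have : NeZero p := ⟨hp.ne_zero⟩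
  have : NeZero q := ⟨hq.ne_zero⟩
  have : NeZero r := ⟨hr.ne_zero⟩
  rw [jacobiSym.mul_right, jacobiSym.mul_right, jacobiSym.mul_right]
  rcases jac_dich hl hp h.1 with h1 | h1 <;> rcases jac_dich hl hq h.2.1 with h2 | h2 <;>
    rcases jac_dich hl hr h.2.2 with h3 | h3 <;> rw [h1, h2, h3] <;> norm_num

/-- three real characters, general exponents -/
theorem tripleContra (h1 : TRP) (h2 : CS2) (κ σ ρ : ℝ) (hκ : 0 < κ) (hσ : 0 < σ)
    (hρ : σ * Real.exp (-(3 / 4)) / 8 < ρ) :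
    ∃ n0 : ℕ, ∀ n : ℕ, n0 ≤ n → ∀ p q r y : ℕ, p.Prime → q.Prime → r.Prime → p < q → q < r →
      p ≠ 2 → p * q * r ≤ n → ((p * q * r ^ 2 : ℕ) : ℝ) ≤ (n : ℝ) ^ σ →
      (n : ℝ) ^ ρ < (y : ℝ) + 1 → (n : ℝ) ^ κ ≤ p →
      (∀ l : ℕ, l.Prime → l ≤ y → jacobiSym l (p * q) = 1 ∧ jacobiSym l (p * r) = 1 ∧
        jacobiSym l (q * r) = 1) → False := by
  have hKR : ∀ r, 0 ≤ KR r := fun r => by unfold KR; positivity
  obtain ⟨c, hc⟩ : ∃ c : ℝ, c = σ * Real.exp (-(3 / 4)) / 8 := ⟨_, rfl⟩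
  have hc0 : 0 < c := by rw [hc]; positivity
  rw [← hc] at hρ
  obtain ⟨ρ', hρ'⟩ : ∃ ρ' : ℝ, ρ' = (ρ + c) / 2 := ⟨_, rfl⟩
  have hρ'0 : c < ρ' := by linarith
  have hρ'1 : ρ' < ρ := by linarith
  obtain ⟨δ, hδ⟩ : ∃ δ : ℝ, δ = 2 * Real.log (ρ' / c) := ⟨_, rfl⟩
  have hδ0 : 0 < δ := by
    rw [hδ]
    have : 1 < ρ' / c := by rwa [one_lt_div hc0]
    have := Real.log_pos this
    linarith
  have hexp : Real.exp (δ / 2) * c = ρ' := by
    rw [hδ, show 2 * Real.log (ρ' / c) / 2 = Real.log (ρ' / c) by ring,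
      Real.exp_log (div_pos (by linarith) hc0)]
    field_simp
  obtain ⟨N0, hN0⟩ := h1 δ κ KR hδ0 hκ hKR
  obtain ⟨n1, hn1⟩ := gap_contra ρ ρ' hρ'1 (by linarith)
  obtain ⟨n2, hn2⟩ := large_rpow κ hκ N0
  obtain ⟨n3, hn3⟩ := large_rpow ρ (by linarith) (N0 + 2)
  refine ⟨max (max n1 n2) (max n3 1), fun n hn p q r y hp hq hr hpq hqr hp2 hpqr hpqr2 hy hκp hJ =>
    ?_⟩
  have g1 : n1 ≤ n := ((le_max_left _ _).trans (le_max_left _ _)).trans hn
  have g2 : n2 ≤ n := ((le_max_right _ _).trans (le_max_left _ _)).trans hn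
  have g3 : n3 ≤ n := ((le_max_left _ _).trans (le_max_right _ _)).trans hn
  have g4 : 1 ≤ n := ((le_max_right _ _).trans (le_max_right _ _)).trans hn
  have hn1' : (1 : ℝ) ≤ n := by exact_mod_cast g4
  have hp0 := hp.pos
  have hq0 := hq.pos
  have hr0 := hr.pos
  have hN0y : N0 + 1 ≤ y := by
    have e1 := (hn3 n g3).trans hy.le
    have e2 : (N0 : ℝ) + 1 ≤ y := by linarith
    exact_mod_cast e2
  have hN0p : N0 ≤ p := by exact_mod_cast (hn2 n g2).trans hκp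
  have hpq' : (p : ℝ) ≤ q := by exact_mod_cast hpq.le
  have hqr' : (q : ℝ) ≤ r := by exact_mod_cast hqr.le
  have hcast : ∀ N : ℕ, N ≤ n → (N : ℝ) ^ κ ≤ p := fun N hN =>
    (Real.rpow_le_rpow (by positivity) (by exact_mod_cast hN) hκ.le).trans hκp
  have hpqn : p * q ≤ n := le_trans (Nat.le_mul_of_pos_right _ hr0) hpqr
  have hprn : p * r ≤ n := by
    refine le_trans ?_ hpqr
    calc p * r ≤ p * r * q := Nat.le_mul_of_pos_right _ hq0
      _ = p * q * r := by ring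
  have hqrn : q * r ≤ n := by
    refine le_trans ?_ hpqr
    calc q * r ≤ p * (q * r) := Nat.le_mul_of_pos_left _ hp0
      _ = p * q * r := by ring
  have : NeZero (p * q) := ⟨by positivity⟩
  have : NeZero (p * r) := ⟨by positivity⟩
  have : NeZero (q * r) := ⟨by positivity⟩
  have hq2 : q ≠ 2 := by have := hp.two_le; omega
  have hr2 : r ≠ 2 := by have := hp.two_le; omega
  have f1 := h2 κ p q hp hq hp2 hq2 hpq.ne (hcast _ hpqn) ((hcast _ hpqn).trans hpq')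
  have f2 := h2 κ p r hp hr hp2 hr2 (hpq.trans hqr).ne (hcast _ hprn)
    ((hcast _ hprn).trans (hpq'.trans hqr'))
  have f3 := h2 κ q r hq hr hq2 hr2 hqr.ne ((hcast _ hqrn).trans hpq')
    ((hcast _ hqrn).trans (hpq'.trans hqr'))
  have hT := hN0 (p * q) (p * r) (q * r) y (by omega)
    (hN0p.trans (Nat.le_mul_of_pos_right _ hq0)) (Nat.mul_le_mul_left _ hqr.le)
    (Nat.mul_le_mul_right _ hpq.le) (jchar (p * q)) (jchar (p * r)) (jchar (q * r)) f1 f2 f3
    (fun l hl hly => by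
      obtain ⟨j1, j2, j3⟩ := hJ l hl hly
      rw [jchar_apply, jchar_apply, jchar_apply, j1, j2, j3]
      norm_num) {p, q, r} Finset.card_le_three (fun l hl hlE => by
      rw [jchar_apply, jchar_apply, jchar_apply]
      rcases one_of_three hp hq hr hl hlE with j | j | j
      · left; rw [j]; norm_num
      · right; left; rw [j]; norm_num
      · right; right; rw [j]; norm_num)
  -- logs
  have hL0 : 0 ≤ Real.log n := Real.log_nonneg hn1'
  have hl1 : Real.log ((p * r : ℕ) : ℝ) = Real.log p + Real.log r := by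
    push_cast
    exact Real.log_mul (by positivity) (by positivity)
  have hl2 : Real.log ((q * r : ℕ) : ℝ) = Real.log q + Real.log r := by
    push_cast
    exact Real.log_mul (by positivity) (by positivity)
  have hl3 : Real.log p + Real.log q + 2 * Real.log r ≤ σ * Real.log n := by
    have e1 := Real.log_le_log (by positivity) hpqr2
    rw [Real.log_rpow (by linarith)] at e1
    push_cast at e1
    rw [Real.log_mul (by positivity) (by positivity), Real.log_mul (by positivity) (by positivity),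
      Real.log_pow] at e1
    push_cast at e1
    exact e1
  rw [hl1, hl2] at hT
  have hlp : 0 ≤ Real.log p := Real.log_nonneg (by exact_mod_cast hp.one_lt.le)
  have hlq : 0 ≤ Real.log q := Real.log_nonneg (by exact_mod_cast hq.one_lt.le)
  have hlr : 0 ≤ Real.log r := Real.log_nonneg (by exact_mod_cast hr.one_lt.le)
  have hamgm : (Real.log p + Real.log r) * (Real.log q + Real.log r) ≤
      (σ * Real.log n / 2) ^ 2 := by
    have e1 : (Real.log p + Real.log r) * (Real.log q + Real.log r) ≤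
        ((Real.log p + Real.log q + 2 * Real.log r) / 2) ^ 2 := by
      nlinarith [sq_nonneg (Real.log p - Real.log q)]
    refine e1.trans ?_
    apply pow_le_pow_left₀ (by positivity)
    linarith
  have he : Real.exp (-(3 / 2) + δ) = (Real.exp (δ / 2) * Real.exp (-(3 / 4))) ^ 2 := by
    rw [← Real.exp_add, ← Real.exp_nat_mul]
    congr 1
    push_cast
    ring
  have hsq : (Real.log y) ^ 2 ≤ (ρ' * Real.log n) ^ 2 := by
    calc (Real.log y) ^ 2 ≤ Real.exp (-(3 / 2) + δ) / 16 *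
          ((Real.log p + Real.log r) * (Real.log q + Real.log r)) := by
          rw [← mul_assoc]; exact hT
      _ ≤ Real.exp (-(3 / 2) + δ) / 16 * (σ * Real.log n / 2) ^ 2 :=
          mul_le_mul_of_nonneg_left hamgm (by positivity)
      _ = (Real.exp (δ / 2) * c * Real.log n) ^ 2 := by
          rw [he, hc]; ring
      _ = (ρ' * Real.log n) ^ 2 := by rw [hexp]
  have hlogy : Real.log y ≤ ρ' * Real.log n :=
    (le_abs_self _).trans (abs_le_of_sq_le_sq hsq (mul_nonneg (by linarith) hL0))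
  have hy0 : (0 : ℝ) < y := by
    have : 0 < y := by omega
    exact_mod_cast this
  refine hn1 n g1 y hy ?_
  rw [← Real.log_le_log_iff hy0 (by positivity), Real.log_rpow (by linarith)]
  exact hlogy

end Pool.Agent.H471R4.BW
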