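import Pool.Agent.H471R4.BW.Stubs

set_option autoImplicit false

namespace Pool.Agent.H471R4.BW

open Finset

theorem hol : HOL := by
  intro ι _ r hr f g hf hg
  have hW : 0 ≤ ∑ x, f x := sum_nonneg fun i _ => hf i
  -- weighted power mean
  have h1 : (∑ x, f x * g x) ^ r ≤ (∑ x, f x) ^ (r - 1) * ∑ x, f x * g x ^ r := by
    rcases hW.eq_or_lt with h0 | hpos
    · have hz : ∀ x, f x = 0 := by
        intro x
        exact (Finset.sum_eq_zero_iff_of_nonneg (fun i _ => hf i)).1 h0.symm x (mem_univ x)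
      simp only [hz, zero_mul, sum_const_zero, mul_zero]
      rw [zero_pow (by omega)]
    · have hj := Real.pow_arith_mean_le_arith_mean_pow (univ : Finset ι)
        (fun x => f x / ∑ y, f y) g (fun i _ => div_nonneg (hf i) hW)
        (by rw [← sum_div, div_self hpos.ne']) (fun i _ => hg i) r
      have e1 : (∑ i, f i / (∑ y, f y) * g i) = (∑ x, f x * g x) / ∑ y, f y := by
        rw [sum_div]; exact sum_congr rfl fun i _ => by ring
      have e2 : (∑ i, f i / (∑ y, f y) * g i ^ r) = (∑ x, f x * g x ^ r) / ∑ y, f y := by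
        rw [sum_div]; exact sum_congr rfl fun i _ => by ring
      rw [e1, e2, div_pow, div_le_div_iff₀ (by positivity) hpos] at hj
      have e3 : (∑ y, f y) ^ r = (∑ y, f y) ^ (r - 1) * ∑ y, f y := by
        rw [← pow_succ]; congr 1; omega
      rw [e3] at hj
      have : (∑ x, f x * g x) ^ r * ∑ y, f y ≤
          ((∑ x, f x) ^ (r - 1) * ∑ x, f x * g x ^ r) * ∑ y, f y := by
        calc _ ≤ _ := hj
          _ = _ := by ring
      exact le_of_mul_le_mul_right this hpos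
  have h0 : 0 ≤ (∑ x, f x * g x) ^ r := by
    refine pow_nonneg (sum_nonneg fun i _ => mul_nonneg (hf i) (hg i)) _
  have h2 : (∑ x, f x * g x ^ r) ^ 2 ≤ (∑ x, (f x) ^ 2) * ∑ x, (g x ^ r) ^ 2 :=
    Finset.sum_mul_sq_le_sq_mul_sq _ _ _
  have h3 : ∀ x, (g x ^ r) ^ 2 = g x ^ (2 * r) := fun x => by rw [← pow_mul]; ring_nf
  calc (∑ x, f x * g x) ^ (2 * r) = ((∑ x, f x * g x) ^ r) ^ 2 := by rw [← pow_mul]; ring_nf
    _ ≤ ((∑ x, f x) ^ (r - 1) * ∑ x, f x * g x ^ r) ^ 2 := pow_le_pow_left₀ h0 h1 2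
    _ = (∑ x, f x) ^ (2 * r - 2) * (∑ x, f x * g x ^ r) ^ 2 := by
        rw [mul_pow, ← pow_mul]; congr 2; omega
    _ ≤ (∑ x, f x) ^ (2 * r - 2) * ((∑ x, (f x) ^ 2) * ∑ x, (g x ^ r) ^ 2) :=
        mul_le_mul_of_nonneg_left h2 (pow_nonneg hW _)
    _ = _ := by simp only [h3]; ring

end Pool.Agent.H471R4.BW
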