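import Pool.Agent.H471R4.BW.Stubs2

set_option autoImplicit false

namespace Pool.Agent.H471R4.BW

theorem hch : HCH := by
  intro q g _ hg hlt
  have hqp : q.Prime := Fact.out
  have hq : 2 ≤ q := hqp.two_le
  have hg0 : 0 < g := Nat.pos_of_dvd_of_pos hg (by omega)
  obtain ⟨e, he⟩ := hg
  have he2 : e ≠ 1 := by
    rintro rfl
    rw [mul_one] at he
    omega
  have hdiv : (q - 1) / g = e := by rw [he, Nat.mul_div_cancel_left _ hg0]
  obtain ⟨t, ht, hte⟩ := Nat.exists_prime_and_dvd he2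
  refine ⟨t, ht, by rw [hdiv]; exact hte, ?_⟩
  obtain ⟨k, hk⟩ := hte
  have hcard : Fintype.card (ZMod q) = q := ZMod.card q
  obtain ⟨χ, hχ⟩ := MulChar.exists_mulChar_orderOf (ZMod q) (n := t) (R := ℂ)
    (by rw [hcard, he, hk]; exact ⟨g * k, by ring⟩) (Complex.isPrimitiveRoot_exp t ht.ne_zero)
  have hχt : χ ^ t = 1 := by rw [← hχ]; exact pow_orderOf_eq_one χ
  refine ⟨χ, ?_, hχt, ?_⟩
  · intro h1
    rw [h1, orderOf_one] at hχ
    exact ht.one_lt.ne' hχ.symm
  · intro z hz
    have hz0 : z ≠ 0 := by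
      rintro rfl
      rw [zero_pow hg0.ne'] at hz
      exact zero_ne_one hz
    set u : (ZMod q)ˣ := Units.mk0 z hz0 with hu
    have hug : u ^ g = 1 := by
      ext
      rw [Units.val_pow_eq_pow_val, Units.val_one, hu, Units.val_mk0, hz]
    obtain ⟨γ, hγ⟩ := IsCyclic.exists_generator (α := (ZMod q)ˣ)
    obtain ⟨a, ha⟩ := (Submonoid.mem_powers_iff _ _).1 ((mem_powers_iff_mem_zpowers).2 (hγ u))
    have hord : orderOf γ = q - 1 := by
      rw [orderOf_eq_card_of_forall_mem_zpowers hγ, Nat.card_eq_fintype_card, ZMod.card_units]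
    have h1 : γ ^ (a * (g * k)) = 1 := by
      rw [pow_mul, ha, pow_mul, hug, one_pow]
    have h2 : q - 1 ∣ a * (g * k) := by
      rw [← hord]
      exact orderOf_dvd_of_pow_eq_one h1
    have hk0 : 0 < k := by
      rcases Nat.eq_zero_or_pos k with h | h
      · rw [h, mul_zero] at hk
        rw [hk, mul_zero] at he
        omega
      · exact h
    have h3 : t ∣ a := by
      rw [he, hk, show g * (t * k) = t * (g * k) by ring] at h2
      exact Nat.dvd_of_mul_dvd_mul_right (Nat.mul_pos hg0 hk0) h2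
    obtain ⟨b, rfl⟩ := h3
    have h4 : z = ((γ ^ b : (ZMod q)ˣ) : ZMod q) ^ t := by
      have : (u : ZMod q) = z := by rw [hu, Units.val_mk0]
      rw [← this, ← ha, ← Units.val_pow_eq_pow_val, ← pow_mul, mul_comm b t]
    rw [h4, map_pow, ← MulChar.pow_apply' χ ht.ne_zero, hχt, MulChar.one_apply_coe]

end Pool.Agent.H471R4.BW
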