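import Pool.Agent.H471R4.BW.Stubs

set_option autoImplicit false

/-! Project BW, task MN3. -/

namespace Pool.Agent.H471R4.BW

open Finset

open Pool.Agent.H379R2.W (Passes)

namespace MN3Aux

lemma theta_pos : 0 < theta := by
  unfold theta; positivity

lemma theta_le : theta ≤ 1 := by
  unfold theta
  rw [div_le_one (by positivity)]
  have h1 : (1 : ℝ) ≤ Real.exp (3 / 4) := Real.one_le_exp (by norm_num)
  have h2 : (1 : ℝ) ≤ Real.exp (1 / 2) := Real.one_le_exp (by norm_num)
  linarith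

end MN3Aux

theorem mn3 (h1 : CSE) (h2 : MNA) (h3 : MNB) (h4 : CS1) (h5 : CS2) : MN3 := by
  intro ε hε
  obtain ⟨a, ha⟩ := h2 ε hε
  obtain ⟨b, hb⟩ := h3 ε hε
  have hθ := MN3Aux.theta_pos
  have hθ1 := MN3Aux.theta_le
  have hlarge : ∃ c : ℕ, ∀ n : ℕ, c ≤ n → (2 : ℝ) ≤ (n : ℝ) ^ (theta + ε) := by
    have := (tendsto_rpow_atTop (show 0 < theta + ε by linarith)).comp
      (tendsto_natCast_atTop_atTop (R := ℝ))
    obtain ⟨c, hc⟩ := Filter.eventually_atTop.mp (this.eventually (Filter.eventually_ge_atTop 2))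
    exact ⟨c, hc⟩
  obtain ⟨c, hc⟩ := hlarge
  refine ⟨max (max a b) (max c 1), fun n hn hcard => ?_⟩
  have ha' : a ≤ n := ((le_max_left _ _).trans (le_max_left _ _)).trans hn
  have hb' : b ≤ n := ((le_max_right _ _).trans (le_max_left _ _)).trans hn
  have hc' : c ≤ n := ((le_max_left _ _).trans (le_max_right _ _)).trans hn
  have hn1 : 1 ≤ n := ((le_max_right _ _).trans (le_max_right _ _)).trans hn
  have hn1' : (1 : ℝ) ≤ n := by exact_mod_cast hn1
  by_contra hno
  push Not at hno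
  set y := ⌊(n : ℝ) ^ (theta + ε)⌋₊ with hy
  have hy2 : 2 ≤ y := Nat.le_floor (by exact_mod_cast hc n hc')
  have hyle : (y : ℝ) ≤ (n : ℝ) ^ (theta + ε) := Nat.floor_le (by positivity)
  have hylt : (n : ℝ) ^ (theta + ε) < (y : ℝ) + 1 := Nat.lt_floor_add_one _
  have hpass : ∀ b : ℕ, 1 < b → b ≤ y → Passes n b := by
    intro b hb1 hb2
    exact hno b hb1 (le_trans (by exact_mod_cast hb2) hyle)
  -- three prime divisors
  obtain ⟨T, hT, hTc⟩ := Finset.exists_subset_card_eq hcard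
  have hT0 : 0 < T.card := by omega
  obtain ⟨p, q, r, hpq, hqr, hTe⟩ : ∃ p q r : ℕ, p < q ∧ q < r ∧ p ∈ T ∧ q ∈ T ∧ r ∈ T := by
    let f := T.orderEmbOfFin hTc
    refine ⟨f 0, f 1, f 2, ?_, ?_, ?_, ?_, ?_⟩
    · exact f.strictMono (by decide)
    · exact f.strictMono (by decide)
    · exact T.orderEmbOfFin_mem hTc 0
    · exact T.orderEmbOfFin_mem hTc 1
    · exact T.orderEmbOfFin_mem hTc 2
  obtain ⟨hpT, hqT, hrT⟩ := hTe
  have hp := Nat.prime_of_mem_primeFactors (hT hpT)
  have hq := Nat.prime_of_mem_primeFactors (hT hqT)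
  have hr := Nat.prime_of_mem_primeFactors (hT hrT)
  have hpn := Nat.dvd_of_mem_primeFactors (hT hpT)
  have hqn := Nat.dvd_of_mem_primeFactors (hT hqT)
  have hrn := Nat.dvd_of_mem_primeFactors (hT hrT)
  obtain ⟨hyp, hpqr, hor⟩ := h1 n y (by omega) hy2 hpass p q r hp hq hr hpq hqr hpn hqn hrn
  have hpy : (n : ℝ) ^ (theta + ε) < p := by
    have : (y : ℝ) + 1 ≤ p := by exact_mod_cast hyp
    linarith
  have hpθ : (n : ℝ) ^ theta ≤ p :=
    (Real.rpow_le_rpow_of_exponent_le hn1' (by linarith)).trans hpy.le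
  have hp2 : p ≠ 2 := by omega
  rcases hor with hor | ⟨N, hN, hNn, hJ⟩
  · exact hb n hb' p q r y hp hq hr hpq hqr hp2 hpqr hylt hpθ hor
  · have hNp : p ≤ N := by
      rcases hN with rfl | rfl | rfl | rfl
      · exact le_rfl
      · omega
      · omega
      · exact Nat.le_mul_of_pos_right _ hq.pos
    have hN0 : N ≠ 0 := by have := hp.pos; omega
    have : NeZero N := ⟨hN0⟩
    have hNθ : (n : ℝ) ^ theta ≤ N := hpθ.trans (by exact_mod_cast hNp)
    refine ha n ha' N y hylt hNθ hNn ?_ hJ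
    rcases hN with h | h | h | h
    · subst h
      exact h4 theta N hp hp2 hθ1
    · subst h
      exact h4 theta N hq (by omega) hθ1
    · subst h
      exact h4 theta N hr (by omega) hθ1
    · subst h
      have hle : ((p * q : ℕ) : ℝ) ^ theta ≤ p := by
        refine le_trans (Real.rpow_le_rpow (by positivity) ?_ hθ.le) hpθ
        have : p * q ≤ n := le_trans (Nat.le_mul_of_pos_right _ hr.pos) hpqr
        exact_mod_cast this
      have hpq' : (p : ℝ) ≤ q := by exact_mod_cast hpq.le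
      exact h5 theta p q hp hq hp2 (by omega) (by omega) hle (hle.trans hpq')

end Pool.Agent.H471R4.BW
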