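import Pool.Agent.H471R4.BW.Stubs

set_option autoImplicit false

namespace Pool.Agent.H471R4.BW

open Finset

private theorem mnb_jac {p q : ℕ} (hp : p.Prime) (hq : q.Prime) (l : ℕ) :
    jacobiSym l (p * q) = jacobiSym l p * jacobiSym l q := by
  haveI : NeZero p := ⟨hp.ne_zero⟩
  haveI : NeZero q := ⟨hq.ne_zero⟩
  exact jacobiSym.mul_right _ _ _

private theorem mnb_pm {p l : ℕ} (hp : p.Prime) (hl : l.Prime) (h : l ≠ p) :
    jacobiSym l p = 1 ∨ jacobiSym l p = -1 := by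
  apply jacobiSym.eq_one_or_neg_one
  rw [Int.gcd_natCast_natCast]
  exact (Nat.coprime_primes hl hp).mpr h

private theorem mnb_tri {a b c : ℤ} (ha : a = 1 ∨ a = -1) (hb : b = 1 ∨ b = -1)
    (hc : c = 1 ∨ c = -1) : a * b = 1 ∨ a * c = 1 ∨ b * c = 1 := by
  rcases ha with rfl | rfl <;> rcases hb with rfl | rfl <;> rcases hc with rfl | rfl <;> simp

/-- the final inequality -/
private theorem mnb_final {ε L S R Y A B : ℝ} (hε : 0 < ε) (hY : 0 ≤ Y) (hL : 0 ≤ L)
    (hA : 0 ≤ A) (hB : 0 ≤ B)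
    (h1 : Y ≤ (1 / (4 * Real.exp (1 / 2)) + ε / (4 * Real.exp (1 / 2))) * S)
    (h2 : Y ^ 2 ≤ Real.exp (-(3 / 2) + 2 * Real.log (1 + ε)) / 16 * A * B)
    (hAB : A + B = S + 2 * R) (hSR : S + R ≤ L)
    (h3 : (theta + ε) * L - Real.log 2 < Y) (h4 : 2 * Real.log 2 ≤ ε * L) : False := by
  set u : ℝ := Real.exp (1 / 2) with hu
  set w : ℝ := Real.exp (3 / 4) with hw
  have hu0 : 1 ≤ u := by rw [hu]; exact Real.one_le_exp (by norm_num)
  have hw0 : 1 ≤ w := by rw [hw]; exact Real.one_le_exp (by norm_num)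
  have e1 : Real.exp (-(3 / 2) + 2 * Real.log (1 + ε)) = ((1 + ε) / w) ^ 2 := by
    rw [Real.exp_add, two_mul, Real.exp_add, Real.exp_log (by linarith), hw, div_pow,
      ← Real.exp_nat_mul, Real.exp_neg]
    rw [show ((2 : ℕ) : ℝ) * (3 / 4) = 3 / 2 by norm_num]
    field_simp
  have h5 : Y ≤ (1 + ε) / w / 4 * ((A + B) / 2) := by
    have hr : 0 ≤ (1 + ε) / w / 4 * ((A + B) / 2) := by positivity
    have : Y ^ 2 ≤ ((1 + ε) / w / 4 * ((A + B) / 2)) ^ 2 := by
      rw [e1] at h2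
      calc Y ^ 2 ≤ ((1 + ε) / w) ^ 2 / 16 * A * B := h2
        _ = ((1 + ε) / w / 4) ^ 2 * (A * B) := by ring
        _ ≤ ((1 + ε) / w / 4) ^ 2 * ((A + B) / 2) ^ 2 := by
            apply mul_le_mul_of_nonneg_left _ (by positivity)
            nlinarith [sq_nonneg (A - B)]
        _ = _ := by ring
    exact (abs_le_of_sq_le_sq' this hr).2
  have h6 : 4 * u * Y ≤ (1 + ε) * S := by
    have : (1 / (4 * u) + ε / (4 * u)) * S = (1 + ε) * S / (4 * u) := by
      field_simp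
    rw [this, le_div_iff₀ (by positivity)] at h1
    linarith
  have h7 : 8 * w * Y ≤ (1 + ε) * (2 * L - S) := by
    have h8 : Y ≤ (1 + ε) * (A + B) / (8 * w) := by
      refine h5.trans (le_of_eq ?_)
      field_simp
      ring
    rw [le_div_iff₀ (by positivity)] at h8
    have h9 : A + B ≤ 2 * L - S := by rw [hAB]; linarith
    have : (1 + ε) * (A + B) ≤ (1 + ε) * (2 * L - S) :=
      mul_le_mul_of_nonneg_left h9 (by linarith)
    linarith
  have h8 : (4 * w + 2 * u) * Y ≤ (1 + ε) * L := by nlinarith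
  have hth : theta = 1 / (4 * w + 2 * u) := rfl
  have h9 : Y ≤ (1 + ε) * theta * L := by
    rw [hth]
    have : (1 + ε) * (1 / (4 * w + 2 * u)) * L = (1 + ε) * L / (4 * w + 2 * u) := by
      field_simp
    rw [this, le_div_iff₀ (by positivity)]
    linarith
  have h10 : theta ≤ 1 / 2 := by
    rw [hth]
    apply one_div_le_one_div_of_le (by norm_num)
    linarith
  have h11 : ε * theta * L ≤ ε * (1 / 2) * L :=
    mul_le_mul_of_nonneg_right (mul_le_mul_of_nonneg_left h10 hε.le) hL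
  nlinarith

theorem mnb (h1 : SNG) (h2 : TRP) (h3 : CS2) : MNB := by
  intro ε hε
  have hthpos : 0 < theta := by
    unfold theta
    positivity
  have hKR : ∀ r, 0 ≤ KR r := fun r => by unfold KR; positivity
  obtain ⟨N1, hN1⟩ := h1 (ε / (4 * Real.exp (1 / 2))) theta KR (by positivity) hthpos hKR
  obtain ⟨N2, hN2⟩ := h2 (2 * Real.log (1 + ε)) theta KR
    (by have := Real.log_pos (show (1 : ℝ) < 1 + ε by linarith); linarith) hthpos hKR
  -- largeness
  have ht1 : Filter.Tendsto (fun n : ℕ => ((n : ℕ) : ℝ) ^ theta) Filter.atTop Filter.atTop :=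
    (tendsto_rpow_atTop hthpos).comp tendsto_natCast_atTop_atTop
  have ht2 : Filter.Tendsto (fun n : ℕ => ((n : ℕ) : ℝ) ^ (theta + ε)) Filter.atTop
      Filter.atTop := (tendsto_rpow_atTop (by linarith)).comp tendsto_natCast_atTop_atTop
  have ht3 : Filter.Tendsto (fun n : ℕ => ε * Real.log n) Filter.atTop Filter.atTop :=
    (Real.tendsto_log_atTop.comp tendsto_natCast_atTop_atTop).const_mul_atTop hε
  obtain ⟨n0, hn0⟩ := Filter.eventually_atTop.mp
    ((ht1.eventually_ge_atTop ((N1 : ℝ) + N2)).and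
      ((ht2.eventually_ge_atTop ((N2 : ℝ) + 2)).and
        (ht3.eventually_ge_atTop (2 * Real.log 2))))
  refine ⟨n0 + 1, ?_⟩
  intro n hn p q r y hp hq hr hpq hqr hp2 hpqr hy hpn hJ
  obtain ⟨b1, b2, b3⟩ := hn0 n (by omega)
  have hn1 : 1 ≤ n := by omega
  have hq2 : q ≠ 2 := by have := hp.two_le; omega
  have hr2 : r ≠ 2 := by have := hp.two_le; omega
  haveI i1 : NeZero (p * q) := ⟨Nat.mul_ne_zero hp.ne_zero hq.ne_zero⟩
  haveI i2 : NeZero (p * r) := ⟨Nat.mul_ne_zero hp.ne_zero hr.ne_zero⟩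
  haveI i3 : NeZero (q * r) := ⟨Nat.mul_ne_zero hq.ne_zero hr.ne_zero⟩
  have hpp := hp.pos
  have hqp := hq.pos
  have hrp := hr.pos
  have c1 : p * q ≤ n := le_trans (Nat.le_mul_of_pos_right _ hrp) hpqr
  have c2 : p * r ≤ n := by
    refine le_trans ?_ hpqr
    calc p * r ≤ p * r * q := Nat.le_mul_of_pos_right _ hqp
      _ = p * q * r := by ring
  have c3 : q * r ≤ n := by
    refine le_trans ?_ hpqr
    calc q * r ≤ q * r * p := Nat.le_mul_of_pos_right _ hpp
      _ = p * q * r := by ring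
  have pw : ∀ m k : ℕ, m ≤ n → p ≤ k → ((m : ℕ) : ℝ) ^ theta ≤ k := by
    intro m k hm hk
    calc ((m : ℕ) : ℝ) ^ theta ≤ (n : ℝ) ^ theta :=
          Real.rpow_le_rpow (by positivity) (by exact_mod_cast hm) hthpos.le
      _ ≤ p := hpn
      _ ≤ k := by exact_mod_cast hk
  have F1 : Fam theta KR (p * q) (jchar (p * q)) :=
    h3 theta p q hp hq hp2 hq2 (by omega) (pw _ _ c1 le_rfl) (pw _ _ c1 hpq.le)
  have F2 : Fam theta KR (p * r) (jchar (p * r)) :=
    h3 theta p r hp hr hp2 hr2 (by omega) (pw _ _ c2 le_rfl) (pw _ _ c2 (hpq.trans hqr).le)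
  have F3 : Fam theta KR (q * r) (jchar (q * r)) :=
    h3 theta q r hq hr hq2 hr2 (by omega) (pw _ _ c3 hpq.le) (pw _ _ c3 (hpq.trans hqr).le)
  have hpbig : N1 + N2 ≤ p := by
    have : ((N1 : ℝ) + N2) ≤ p := b1.trans hpn
    exact_mod_cast this
  have hppq : p ≤ p * q := Nat.le_mul_of_pos_right _ hqp
  have hJ1 : ∀ l : ℕ, l.Prime → l ≤ y → jchar (p * q) (l : ZMod (p * q)) = 1 := by
    intro l hl hly
    rw [jchar_apply, (hJ l hl hly).1]
    norm_num
  have hJ2 : ∀ l : ℕ, l.Prime → l ≤ y → jchar (p * r) (l : ZMod (p * r)) = 1 := by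
    intro l hl hly
    rw [jchar_apply, (hJ l hl hly).2.1]
    norm_num
  have hJ3 : ∀ l : ℕ, l.Prime → l ≤ y → jchar (q * r) (l : ZMod (q * r)) = 1 := by
    intro l hl hly
    rw [jchar_apply, (hJ l hl hly).2.2]
    norm_num
  have K1 := hN1 (p * q) (by omega) (jchar (p * q)) F1 y hJ1
  have hybig : N2 + 1 < y + 1 := by
    have : ((N2 : ℝ) + 2) < (y : ℝ) + 1 := b2.trans_lt hy
    have h' : ((N2 + 2 : ℕ) : ℝ) < ((y + 1 : ℕ) : ℝ) := by push_cast; linarith
    have := Nat.cast_lt.mp h'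
    omega
  have K2 := hN2 (p * q) (p * r) (q * r) y (by omega) (by omega)
    (Nat.mul_le_mul_left _ hqr.le) (Nat.mul_le_mul_right _ hpq.le)
    (jchar (p * q)) (jchar (p * r)) (jchar (q * r)) F1 F2 F3
    (fun l hl hly => ⟨hJ1 l hl hly, hJ2 l hl hly, hJ3 l hl hly⟩)
    {p, q, r} Finset.card_le_three (by
      intro l hl hE
      simp only [Finset.mem_insert, Finset.mem_singleton, not_or] at hE
      rw [jchar_apply, jchar_apply, jchar_apply, mnb_jac hp hq, mnb_jac hp hr, mnb_jac hq hr]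
      rcases mnb_tri (mnb_pm hp hl hE.1) (mnb_pm hq hl hE.2.1) (mnb_pm hr hl hE.2.2)
        with h | h | h
      · left; rw [h]; norm_num
      · right; left; rw [h]; norm_num
      · right; right; rw [h]; norm_num)
  have hy1 : 1 ≤ y := by omega
  have hy1' : (1 : ℝ) ≤ y := by exact_mod_cast hy1
  have hpR : (0 : ℝ) < p := by exact_mod_cast hpp
  have hqR : (0 : ℝ) < q := by exact_mod_cast hqp
  have hrR : (0 : ℝ) < r := by exact_mod_cast hrp
  have lg : ∀ m : ℕ, 1 ≤ m → 0 ≤ Real.log m := fun m hm => Real.log_nonneg (by exact_mod_cast hm)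
  refine mnb_final (ε := ε) (L := Real.log n) (S := Real.log ((p * q : ℕ) : ℝ))
    (R := Real.log r) (Y := Real.log y) (A := Real.log ((p * r : ℕ) : ℝ))
    (B := Real.log ((q * r : ℕ) : ℝ)) hε (Real.log_nonneg hy1') (lg n hn1)
    (lg _ (Nat.mul_pos hpp hrp)) (lg _ (Nat.mul_pos hqp hrp)) ?_ K2 ?_ ?_ ?_ b3
  · have hpqpos : (0 : ℝ) < ((p * q : ℕ) : ℝ) := by exact_mod_cast Nat.mul_pos hpp hqp
    calc Real.log y ≤ Real.log (((p * q : ℕ) : ℝ) ^
          (1 / (4 * Real.exp (1 / 2)) + ε / (4 * Real.exp (1 / 2)))) :=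
          Real.log_le_log (by linarith) K1
      _ = _ := Real.log_rpow hpqpos _
  · push_cast
    rw [Real.log_mul hpR.ne' hrR.ne', Real.log_mul hqR.ne' hrR.ne', Real.log_mul hpR.ne' hqR.ne']
    ring
  · have : Real.log ((p * q : ℕ) : ℝ) + Real.log r = Real.log ((p * q * r : ℕ) : ℝ) := by
      push_cast
      rw [Real.log_mul (by positivity) hrR.ne']
    rw [this]
    exact Real.log_le_log (by positivity) (by exact_mod_cast hpqr)
  · have hnpos : (0 : ℝ) < n := by exact_mod_cast hn1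
    have h5 : (n : ℝ) ^ (theta + ε) < 2 * y := by linarith
    have h6 := Real.log_lt_log (by positivity) h5
    rw [Real.log_rpow hnpos, Real.log_mul (by norm_num) (by linarith)] at h6
    linarith

end Pool.Agent.H471R4.BW
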