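import Pool.Agent.H471R4.BW.Stubs2

set_option autoImplicit false

/-! Project BW, task MNP: products of two primes. -/

namespace Pool.Agent.H471R4.BW

open Finset

open Pool.Agent.H379R2.W (Passes pow_of_passes_dvd)

namespace TaskMNP

theorem smooth_pow {q m y : ℕ} (h : ∀ l : ℕ, l.Prime → l ≤ y → (l : ZMod q) ^ m = 1) :
    ∀ s : ℕ, 1 ≤ s → (∀ l : ℕ, l.Prime → l ∣ s → l ≤ y) → (s : ZMod q) ^ m = 1 := by
  intro s
  induction s using Nat.strong_induction_on with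
  | _ s ih =>
    intro hs hl
    by_cases h1 : s = 1
    · rw [h1, Nat.cast_one, one_pow]
    · obtain ⟨k, hk⟩ := Nat.minFac_dvd s
      have hp := Nat.minFac_prime h1
      have hk0 : 1 ≤ k := by
        rcases Nat.eq_zero_or_pos k with h0 | h0
        · rw [h0, mul_zero] at hk
          omega
        · exact h0
      have hks : k < s := by
        rw [hk]
        have := hp.two_le
        have h2 : 2 * k ≤ s.minFac * k := Nat.mul_le_mul_right k this
        omega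
      rw [hk, Nat.cast_mul, mul_pow, h _ hp (hl _ hp (Nat.minFac_dvd s)), one_mul]
      exact ih k hks hk0 fun l hlp hlk => hl l hlp (hk ▸ Dvd.dvd.mul_left hlk _)

theorem card_roots_le {q g : ℕ} [Fact q.Prime] (hg : 0 < g) :
    (univ.filter fun z : ZMod q => z ^ g = 1).card ≤ g := by
  classical
  have h1 : (univ.filter fun z : ZMod q => z ^ g = 1) ⊆
      (Polynomial.nthRoots g (1 : ZMod q)).toFinset := by
    intro z hz
    rw [Multiset.mem_toFinset, Polynomial.mem_nthRoots hg]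
    exact (mem_filter.1 hz).2
  exact (card_le_card h1).trans ((Multiset.toFinset_card_le _).trans
    (Polynomial.card_nthRoots g 1))

theorem final {a ε c x : ℝ} (ha : 0 < a) (hε : 0 < ε) (hc : 0 < c) (hx : 1 ≤ x) {q y : ℝ}
    (hq : 0 ≤ q) (hqx : c * q ^ 2 ≤ x) (hy : y ≤ q ^ (a + ε)) (hy1 : x ^ (a / 2 + ε) < y + 1)
    (hbig : (1 / c) ^ (a / 2 + ε / 2) + 1 < x ^ (ε / 2)) : False := by
  have hx0 : 0 < x := by linarith
  have h1 : q ^ (a + ε) = (q ^ 2) ^ (a / 2 + ε / 2) := by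
    rw [← Real.rpow_natCast, ← Real.rpow_mul hq]
    congr 1
    push_cast
    ring
  have h2 : q ^ 2 ≤ x * (1 / c) := by
    rw [mul_one_div, le_div_iff₀ hc]
    linarith
  have h3 : (q ^ 2) ^ (a / 2 + ε / 2) ≤ (x * (1 / c)) ^ (a / 2 + ε / 2) :=
    Real.rpow_le_rpow (by positivity) h2 (by positivity)
  rw [Real.mul_rpow hx0.le (by positivity)] at h3
  have h4 : x ^ (a / 2 + ε) = x ^ (a / 2 + ε / 2) * x ^ (ε / 2) := by
    rw [← Real.rpow_add hx0]
    congr 1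
    ring
  have h5 : 1 ≤ x ^ (a / 2 + ε / 2) := Real.one_le_rpow hx (by positivity)
  rw [h1] at hy
  have h6 : x ^ (a / 2 + ε / 2) * ((1 / c) ^ (a / 2 + ε / 2) + 1) ≤
      x ^ (a / 2 + ε / 2) * x ^ (ε / 2) := mul_le_mul_of_nonneg_left hbig.le (by linarith)
  rw [h4] at hy1
  nlinarith

end TaskMNP

open TaskMNP in
/-- task MNP -/
theorem mnp (h1 : SNG) (h2 : SMO) (h3 : CSL) (h4 : HCH) : MNP := by
  classical
  intro ε hε
  obtain ⟨a, ha⟩ : ∃ a : ℝ, 1 / (4 * Real.exp (1 / 2)) = a := ⟨_, rfl⟩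
  have hexp : (1 : ℝ) ≤ Real.exp (1 / 2) := Real.one_le_exp (by norm_num)
  have ha0 : 0 < a := by rw [← ha]; positivity
  have ha1 : a ≤ 1 := by
    rw [← ha, div_le_one (by positivity)]
    linarith
  have ha2 : 1 / (8 * Real.exp (1 / 2)) = a / 2 := by
    rw [← ha]
    field_simp
    norm_num
  rw [ha2]
  obtain ⟨c, hc, D0, hD⟩ := h2 (a / 2) (by positivity) (by linarith)
  choose! K hK hFam using h3
  have hsng : ∀ t : ℕ, t.Prime → ∃ N0 : ℕ, ∀ N : ℕ, N0 ≤ N → ∀ [NeZero N]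
      (χ : DirichletCharacter ℂ N), Fam 1 (K t) N χ →
      ∀ y : ℕ, (∀ l : ℕ, l.Prime → l ≤ y → χ (l : ZMod N) = 1) →
        (y : ℝ) ≤ (N : ℝ) ^ (a + ε) := by
    intro t ht
    have := h1 ε 1 (K t) hε one_pos (hK t ht)
    rw [ha] at this
    exact this
  choose! N0 hN0 using hsng
  obtain ⟨W, hW⟩ : ∃ W, W = max (max D0 ((range (⌊1 / c⌋₊ + 1)).sup N0)) 3 := ⟨_, rfl⟩
  have hev : ∀ᶠ n : ℕ in Filter.atTop, (1 / c) ^ (a / 2 + ε / 2) + 1 < (n : ℝ) ^ (ε / 2) :=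
    ((tendsto_rpow_atTop (show 0 < ε / 2 by positivity)).comp
      tendsto_natCast_atTop_atTop).eventually_gt_atTop _
  obtain ⟨n1, hn1⟩ := Filter.eventually_atTop.1 hev
  refine ⟨max n1 (W ^ 2), fun n hn p q hp hq hpq hnpq => ?_⟩
  by_contra hcon
  push Not at hcon
  have hbig := hn1 n ((le_max_left _ _).trans hn)
  have hWn : W ^ 2 ≤ n := (le_max_right _ _).trans hn
  have hWq : W < q := by
    by_contra hc'
    have h5 : q ≤ W := by omega
    have h6 : p * q < q * q := Nat.mul_lt_mul_of_pos_right hpq hq.pos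
    have h7 : q * q ≤ W * W := Nat.mul_le_mul h5 h5
    have : W ^ 2 = W * W := sq W
    omega
  have hn3 : 1 ≤ n := by
    rw [hnpq]
    exact Nat.mul_pos hp.pos hq.pos
  have hn1' : 1 ≤ n - 1 := by
    have h5 : 2 * 2 ≤ p * q := Nat.mul_le_mul hp.two_le hq.two_le
    omega
  have hnr : (1 : ℝ) ≤ n := by exact_mod_cast hn3
  obtain ⟨y, hy⟩ : ∃ y, ⌊(n : ℝ) ^ (a / 2 + ε)⌋₊ = y := ⟨_, rfl⟩
  have hy1 : (n : ℝ) ^ (a / 2 + ε) < (y : ℝ) + 1 := by
    rw [← hy]
    exact Nat.lt_floor_add_one _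
  have hpow : (0 : ℝ) ≤ (n : ℝ) ^ (a / 2 + ε) := by positivity
  have hpass : ∀ b : ℕ, 1 < b → b ≤ y → Passes n b := by
    intro b hb hby
    refine hcon b hb ?_
    rw [← hy] at hby
    exact (Nat.le_floor_iff hpow).1 hby
  have : Fact q.Prime := ⟨hq⟩
  have : NeZero q := ⟨hq.ne_zero⟩
  have hqn : q ∣ n := ⟨p, by rw [hnpq, mul_comm]⟩
  have hl : ∀ l : ℕ, l.Prime → l ≤ y → (l : ZMod q) ^ (n - 1) = 1 := fun l hl hly =>
    pow_of_passes_dvd (hpass l hl.one_lt hly) hqn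
  have hunit : ∀ z : ZMod q, z ^ (n - 1) = 1 → z ^ (q - 1) = 1 := by
    intro z hz
    refine ZMod.pow_card_sub_one_eq_one fun h0 => ?_
    rw [h0, zero_pow (by omega)] at hz
    exact zero_ne_one hz
  obtain ⟨g, hg⟩ : ∃ g, Nat.gcd (n - 1) (q - 1) = g := ⟨_, rfl⟩
  have hgz : ∀ z : ZMod q, z ^ (n - 1) = 1 → z ^ g = 1 := by
    intro z hz
    rw [← hg]
    exact pow_gcd_eq_one.2 ⟨hz, hunit z hz⟩
  have hq2 := hq.two_le
  have hgpos : 0 < g := by
    rw [← hg]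
    exact Nat.gcd_pos_of_pos_left _ (by omega)
  obtain ⟨S, hS, hScard⟩ := hD q (by omega)
  have hSg : S.card ≤ g := by
    refine le_trans ?_ (card_roots_le (q := q) hgpos)
    refine card_le_card_of_injOn (fun s => (s : ZMod q)) ?_ ?_
    · intro s hs
      obtain ⟨h5, h6, h7⟩ := hS s hs
      rw [mem_coe, mem_filter]
      refine ⟨mem_univ _, hgz _ ?_⟩
      refine smooth_pow hl s h5 fun l hlp hls => ?_
      rw [← hy, Nat.le_floor_iff hpow]
      refine (h7 l hlp hls).trans ?_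
      have hqn' : (q : ℝ) ≤ n := by exact_mod_cast Nat.le_of_dvd (by omega) hqn
      calc (q : ℝ) ^ (a / 2) ≤ (n : ℝ) ^ (a / 2) :=
            Real.rpow_le_rpow (by positivity) hqn' (by positivity)
        _ ≤ (n : ℝ) ^ (a / 2 + ε) := Real.rpow_le_rpow_of_exponent_le hnr (by linarith)
    · intro s hs s' hs' hss
      have h5 := (hS s hs).2.1
      have h6 := (hS s' hs').2.1
      have h7 : (s : ZMod q) = (s' : ZMod q) := hss
      rw [ZMod.natCast_eq_natCast_iff', Nat.mod_eq_of_lt h5, Nat.mod_eq_of_lt h6] at h7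
      exact h7
  have hgq : g ∣ q - 1 := by
    rw [← hg]
    exact Nat.gcd_dvd_right _ _
  have hgn : g ∣ n - 1 := by
    rw [← hg]
    exact Nat.gcd_dvd_left _ _
  have hp2 := hp.two_le
  have hgp : g ∣ p - 1 := by
    have h5 : n - 1 = p * (q - 1) + (p - 1) := by
      rw [hnpq, Nat.mul_sub_one]
      have : p ≤ p * q := Nat.le_mul_of_pos_right p hq.pos
      omega
    rw [h5] at hgn
    exact (Nat.dvd_add_right (Dvd.dvd.mul_left hgq p)).1 hgn
  have hgp' : g ≤ p - 1 := Nat.le_of_dvd (by omega) hgp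
  obtain ⟨t, ht, htd, χ, hχ1, hχ2, hχ3⟩ := h4 q g hgq (by omega)
  have hcg : c * q ≤ g := by
    have : (S.card : ℝ) ≤ g := by exact_mod_cast hSg
    linarith
  have hqpos : (0 : ℝ) < q := by exact_mod_cast hq.pos
  have hgr : (0 : ℝ) < g := by exact_mod_cast hgpos
  have htT : t ≤ ⌊1 / c⌋₊ := by
    refine Nat.le_floor ?_
    have h5 : t ≤ (q - 1) / g := Nat.le_of_dvd (Nat.div_pos (by omega) hgpos) htd
    have h6 : (t : ℝ) ≤ (((q - 1) / g : ℕ) : ℝ) := by exact_mod_cast h5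
    refine h6.trans (Nat.cast_div_le.trans ?_)
    rw [div_le_div_iff₀ hgr hc]
    have h7 : ((q - 1 : ℕ) : ℝ) ≤ q := by exact_mod_cast Nat.sub_le q 1
    nlinarith
  have hN0q : N0 t ≤ q := by
    have h5 : N0 t ≤ (range (⌊1 / c⌋₊ + 1)).sup N0 :=
      le_sup (f := N0) (mem_range.2 (by omega))
    omega
  have hfin := hN0 t ht q hN0q χ
    (hFam t ht 1 q hq (htd.trans (Nat.div_dvd_of_dvd hgq)) le_rfl χ hχ1 hχ2) y
    (fun l hlp hly => hχ3 _ (hgz _ (hl l hlp hly)))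
  refine final ha0 hε hc hnr hqpos.le ?_ hfin hy1 hbig
  have h8 : (g : ℝ) ≤ p := by exact_mod_cast (by omega : g ≤ p)
  have h9 : (n : ℝ) = p * q := by rw [hnpq]; push_cast; ring
  rw [h9]
  nlinarith

end Pool.Agent.H471R4.BW
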