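import Pool.Agent.H471R4.BW.Stubs

/-! # BW: task MOM -/

set_option autoImplicit false

namespace Pool.Agent.H471R4.BW

open Finset

namespace MOMx

variable {N : ℕ} [NeZero N] (χ : DirichletCharacter ℂ N)

/-- the product over a pair of tuples -/
noncomputable def term (r B : ℕ) (b c : Fin r → Fin B) (x : ZMod N) : ℂ :=
  (∏ i, χ (x + ((b i : ℕ) : ZMod N))) * ∏ i, (starRingEnd ℂ) (χ (x + ((c i : ℕ) : ZMod N)))

theorem expand (r B : ℕ) (x : ZMod N) :
    ((‖∑ b ∈ range B, χ (x + (b : ZMod N))‖ ^ (2 * r) : ℝ) : ℂ) =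
      ∑ b : Fin r → Fin B, ∑ c : Fin r → Fin B, term χ r B b c x := by
  set S : ℂ := ∑ b ∈ range B, χ (x + (b : ZMod N)) with hS
  have hS' : S = ∑ b : Fin B, χ (x + ((b : ℕ) : ZMod N)) := by
    rw [hS, Finset.sum_range]
  have h1 : ((‖S‖ ^ (2 * r) : ℝ) : ℂ) = S ^ r * (starRingEnd ℂ) S ^ r := by
    rw [← mul_pow, Complex.mul_conj, Complex.normSq_eq_norm_sq, pow_mul]
    push_cast
    ring
  have h2 : S ^ r = ∑ b : Fin r → Fin B, ∏ i, χ (x + ((b i : ℕ) : ZMod N)) := by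
    rw [hS', ← Fin.prod_const, Finset.prod_univ_sum, Fintype.piFinset_univ]
  have h3 : (starRingEnd ℂ) S ^ r =
      ∑ c : Fin r → Fin B, ∏ i, (starRingEnd ℂ) (χ (x + ((c i : ℕ) : ZMod N))) := by
    rw [hS', map_sum, ← Fin.prod_const, Finset.prod_univ_sum, Fintype.piFinset_univ]
  rw [h1, h2, h3, Finset.sum_mul_sum]
  rfl

theorem term_norm_le (r B : ℕ) (b c : Fin r → Fin B) (x : ZMod N) : ‖term χ r B b c x‖ ≤ 1 := by
  unfold term
  rw [norm_mul, norm_prod, norm_prod]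
  refine mul_le_one₀ (Finset.prod_le_one (fun i _ => norm_nonneg _) fun i _ => ?_)
    (Finset.prod_nonneg fun i _ => norm_nonneg _)
    (Finset.prod_le_one (fun i _ => norm_nonneg _) fun i _ => ?_)
  · exact χ.norm_le_one _
  · rw [RCLike.norm_conj]
    exact χ.norm_le_one _

end MOMx

open Classical in
open MOMx in
theorem mom (h : TUP) : MOM := by
  intro N _ χ r B K hr hK hC
  have hW : ((∑ x : ZMod N, ‖∑ b ∈ range B, χ (x + (b : ZMod N))‖ ^ (2 * r) : ℝ) : ℂ) =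
      ∑ w : (Fin r → Fin B) × (Fin r → Fin B), ∑ x : ZMod N, term χ r B w.1 w.2 x := by
    rw [Finset.sum_comm]
    push_cast
    refine Finset.sum_congr rfl fun x _ => ?_
    have := expand χ r B x
    push_cast at this
    rw [this, ← Finset.univ_product_univ, Finset.sum_product]
  have hW0 : 0 ≤ ∑ x : ZMod N, ‖∑ b ∈ range B, χ (x + (b : ZMod N))‖ ^ (2 * r) :=
    Finset.sum_nonneg fun x _ => by positivity
  have hW1 : ∑ x : ZMod N, ‖∑ b ∈ range B, χ (x + (b : ZMod N))‖ ^ (2 * r) =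
      ‖∑ w : (Fin r → Fin B) × (Fin r → Fin B), ∑ x : ZMod N, term χ r B w.1 w.2 x‖ := by
    rw [← hW, Complex.norm_real, Real.norm_eq_abs, abs_of_nonneg hW0]
  rw [hW1]
  refine (norm_sum_le _ _).trans ?_
  rw [← Finset.sum_filter_add_sum_filter_not Finset.univ
    (fun w : (Fin r → Fin B) × (Fin r → Fin B) =>
      ¬ Uniq (fun i => (w.1 i : ℕ)) (fun i => (w.2 i : ℕ)))]
  refine add_le_add ?_ ?_
  · have h1 : ∀ w ∈ Finset.univ.filter (fun w : (Fin r → Fin B) × (Fin r → Fin B) =>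
        ¬ Uniq (fun i => (w.1 i : ℕ)) (fun i => (w.2 i : ℕ))),
        ‖∑ x : ZMod N, term χ r B w.1 w.2 x‖ ≤ (N : ℝ) := by
      intro w _
      refine (norm_sum_le _ _).trans ?_
      calc ∑ x : ZMod N, ‖term χ r B w.1 w.2 x‖ ≤ ∑ _x : ZMod N, (1 : ℝ) :=
            Finset.sum_le_sum fun x _ => term_norm_le χ r B w.1 w.2 x
        _ = N := by simp
    refine (Finset.sum_le_card_nsmul _ _ _ h1).trans ?_
    rw [nsmul_eq_mul]
    have h2 : (((Finset.univ.filter (fun w : (Fin r → Fin B) × (Fin r → Fin B) =>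
        ¬ Uniq (fun i => (w.1 i : ℕ)) (fun i => (w.2 i : ℕ)))).card : ℕ) : ℝ) ≤
        (r : ℝ) ^ (2 * r) * (B : ℝ) ^ r := by
      exact_mod_cast h r B hr
    exact mul_le_mul_of_nonneg_right h2 (Nat.cast_nonneg N)
  · have h1 : ∀ w ∈ Finset.univ.filter (fun w : (Fin r → Fin B) × (Fin r → Fin B) =>
        ¬ ¬ Uniq (fun i => (w.1 i : ℕ)) (fun i => (w.2 i : ℕ))),
        ‖∑ x : ZMod N, term χ r B w.1 w.2 x‖ ≤ K * Real.sqrt N := by
      intro w hw
      rw [Finset.mem_filter] at hw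
      exact hC _ _ (fun i => (w.1 i).2) (fun i => (w.2 i).2) (not_not.1 hw.2)
    refine (Finset.sum_le_card_nsmul _ _ _ h1).trans ?_
    rw [nsmul_eq_mul]
    have h2 : (((Finset.univ.filter (fun w : (Fin r → Fin B) × (Fin r → Fin B) =>
        ¬ ¬ Uniq (fun i => (w.1 i : ℕ)) (fun i => (w.2 i : ℕ)))).card : ℕ) : ℝ) ≤
        (B : ℝ) ^ (2 * r) := by
      have h3 := Finset.card_filter_le (Finset.univ : Finset ((Fin r → Fin B) × (Fin r → Fin B)))
        (fun w => ¬ ¬ Uniq (fun i => (w.1 i : ℕ)) (fun i => (w.2 i : ℕ)))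
      have h4 : (Finset.univ : Finset ((Fin r → Fin B) × (Fin r → Fin B))).card = B ^ (2 * r) := by
        rw [Finset.card_univ, Fintype.card_prod, Fintype.card_fun, Fintype.card_fin,
          Fintype.card_fin, two_mul, pow_add]
      rw [h4] at h3
      exact_mod_cast h3
    calc _ ≤ (B : ℝ) ^ (2 * r) * (K * Real.sqrt N) :=
          mul_le_mul_of_nonneg_right h2 (mul_nonneg hK (Real.sqrt_nonneg _))
      _ = K * (B : ℝ) ^ (2 * r) * Real.sqrt N := by ring

end Pool.Agent.H471R4.BW
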