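import Pool.Agent.H471R4.BW.Stubs2
import Pool.Agent.H379R2.W.Group

set_option autoImplicit false

/-! Task MSQ of project BW: integers divisible by the square of a prime have small witnesses
(helper528; uses `bad_squarefree` of the library of helper379). -/

namespace Pool.Agent.H471R4.BW

open Pool.Agent.H379R2.W (Passes Bad bad_squarefree)

theorem msq : MSQ := by
  obtain ⟨N, hN⟩ := bad_squarefree
  refine ⟨max N 2, fun n hn p hp hpn => ?_⟩
  by_contra hcon
  push Not at hcon
  have hn2 : 2 ≤ n := (le_max_right _ _).trans hn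
  have hnp : ¬ n.Prime := by
    intro hpr
    have h1 : p ∣ n := (dvd_pow_self p two_ne_zero).trans hpn
    have h2 : p = n := (Nat.prime_dvd_prime_iff_eq hp hpr).mp h1
    have h3 : p ^ 2 ≤ n := Nat.le_of_dvd (by omega) hpn
    have h4 := hp.two_le
    nlinarith
  have hb : Bad n := ⟨hn2, hnp, fun b hb1 hb2 => hcon b hb1 hb2⟩
  have hsq := hN n ((le_max_left _ _).trans hn) hb
  have h5 := (Nat.squarefree_iff_prime_squarefree.mp hsq) p hp
  exact h5 (by rw [← sq]; exact hpn)

end Pool.Agent.H471R4.BW
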