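import Pool.Agent.H471R4.BW.Gen

set_option autoImplicit false

/-! Project BW: integers with at least `k ≥ 4` distinct prime factors. -/

namespace Pool.Agent.H471R4.BW

open Finset Filter

open Pool.Agent.H379R2.W (Passes)

/-- the three smallest prime factors -/
lemma three_smallest {n k : ℕ} (hk : 3 ≤ k) (hn : n ≠ 0) (h : k ≤ n.primeFactors.card) :
    ∃ p q r : ℕ, p.Prime ∧ q.Prime ∧ r.Prime ∧ p < q ∧ q < r ∧ p ∣ n ∧ q ∣ n ∧ r ∣ n ∧
      p * q * r ^ (k - 2) ≤ n := by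
  set S := n.primeFactors with hS
  have hSne : S.Nonempty := Finset.card_pos.mp (by omega)
  obtain ⟨p, hp⟩ : ∃ p, p = S.min' hSne := ⟨_, rfl⟩
  have hpS : p ∈ S := by rw [hp]; exact Finset.min'_mem _ _
  have hc1 : (S.erase p).card = S.card - 1 := Finset.card_erase_of_mem hpS
  have hS1ne : (S.erase p).Nonempty := Finset.card_pos.mp (by omega)
  obtain ⟨q, hq⟩ : ∃ q, q = (S.erase p).min' hS1ne := ⟨_, rfl⟩
  have hqS : q ∈ S.erase p := by rw [hq]; exact Finset.min'_mem _ _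
  have hc2 : ((S.erase p).erase q).card = S.card - 1 - 1 := by
    rw [Finset.card_erase_of_mem hqS, hc1]
  have hS2ne : ((S.erase p).erase q).Nonempty := Finset.card_pos.mp (by omega)
  obtain ⟨r, hr⟩ : ∃ r, r = ((S.erase p).erase q).min' hS2ne := ⟨_, rfl⟩
  have hrS : r ∈ (S.erase p).erase q := by rw [hr]; exact Finset.min'_mem _ _
  have hqS' : q ∈ S := Finset.mem_of_mem_erase hqS
  have hrS1 : r ∈ S.erase p := Finset.mem_of_mem_erase hrS
  have hrS' : r ∈ S := Finset.mem_of_mem_erase hrS1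
  have hpq : p < q := by
    refine lt_of_le_of_ne ?_ (Finset.ne_of_mem_erase hqS).symm
    rw [hp]; exact Finset.min'_le _ _ hqS'
  have hqr : q < r := by
    refine lt_of_le_of_ne ?_ (Finset.ne_of_mem_erase hrS).symm
    rw [hq]; exact Finset.min'_le _ _ hrS1
  refine ⟨p, q, r, Nat.prime_of_mem_primeFactors hpS, Nat.prime_of_mem_primeFactors hqS',
    Nat.prime_of_mem_primeFactors hrS', hpq, hqr, Nat.dvd_of_mem_primeFactors hpS,
    Nat.dvd_of_mem_primeFactors hqS', Nat.dvd_of_mem_primeFactors hrS', ?_⟩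
  have h1 : ∏ x ∈ S, x ≤ n := Nat.le_of_dvd (Nat.pos_of_ne_zero hn) (Nat.prod_primeFactors_dvd n)
  rw [← Finset.mul_prod_erase S (fun x => x) hpS,
    ← Finset.mul_prod_erase (S.erase p) (fun x => x) hqS] at h1
  have h2 : r ^ ((S.erase p).erase q).card ≤ ∏ x ∈ (S.erase p).erase q, x := by
    apply Finset.pow_card_le_prod
    intro x hx
    rw [hr]; exact Finset.min'_le _ _ hx
  have hr1 : 1 ≤ r := (Nat.prime_of_mem_primeFactors hrS').one_lt.le
  have h3 : r ^ (k - 2) ≤ r ^ ((S.erase p).erase q).card :=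
    Nat.pow_le_pow_right hr1 (by omega)
  calc p * q * r ^ (k - 2) = p * (q * r ^ (k - 2)) := by ring
    _ ≤ p * (q * ∏ x ∈ (S.erase p).erase q, x) :=
        Nat.mul_le_mul_left _ (Nat.mul_le_mul_left _ (h3.trans h2))
    _ ≤ n := h1

lemma rpow_of_pow_le {N n m : ℕ} (hm : m ≠ 0) (h : N ^ m ≤ n) :
    (N : ℝ) ≤ (n : ℝ) ^ (1 / (m : ℝ)) := by
  have h1 : (N : ℝ) ^ m ≤ n := by exact_mod_cast h
  have h2 : ((N : ℝ) ^ m) ^ (1 / (m : ℝ)) ≤ (n : ℝ) ^ (1 / (m : ℝ)) :=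
    Real.rpow_le_rpow (by positivity) h1 (by positivity)
  rw [one_div, Real.pow_rpow_inv_natCast (by positivity) hm] at h2
  rwa [one_div]

lemma rpow_of_pow_le' {N n m a : ℕ} (hm : m ≠ 0) (h : N ^ m ≤ n ^ a) :
    (N : ℝ) ≤ (n : ℝ) ^ ((a : ℝ) / (m : ℝ)) := by
  have h1 : (N : ℝ) ^ m ≤ (n : ℝ) ^ a := by exact_mod_cast h
  have h2 : ((N : ℝ) ^ m) ^ (1 / (m : ℝ)) ≤ ((n : ℝ) ^ a) ^ (1 / (m : ℝ)) :=
    Real.rpow_le_rpow (by positivity) h1 (by positivity)
  rw [one_div, Real.pow_rpow_inv_natCast (by positivity) hm, ← Real.rpow_natCast (n : ℝ) a,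
    ← Real.rpow_mul (by positivity)] at h2
  rwa [div_eq_mul_inv]

lemma exp_quarter : Real.exp (3 / 4) ≤ 3 / 2 * Real.exp (1 / 2) := by
  have h1 : Real.exp (3 / 4) = Real.exp (1 / 4) * Real.exp (1 / 2) := by
    rw [← Real.exp_add]; norm_num
  have h2 : Real.exp (1 / 4) ≤ 3 / 2 := by
    have h3 : Real.exp (1 / 4) ^ 4 = Real.exp 1 := by
      rw [← Real.exp_nat_mul]; norm_num
    have h4 : Real.exp 1 < 2.7182818286 := Real.exp_one_lt_d9
    by_contra hcon
    push Not at hcon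
    have h5 : (3 / 2 : ℝ) ^ 4 < Real.exp (1 / 4) ^ 4 := by gcongr
    rw [h3] at h5
    norm_num at h5
    linarith
  rw [h1]
  exact mul_le_mul_of_nonneg_right h2 (Real.exp_pos _).le

/-- integers with at least `k ≥ 4` distinct prime factors -/
theorem many (h1 : SNG) (h2 : TRP) (h3 : CS1) (h4 : CS2) (k : ℕ) (hk : 4 ≤ k) (ε : ℝ)
    (hε : 0 < ε) : ∃ n0 : ℕ, ∀ n : ℕ, n0 ≤ n → k ≤ n.primeFactors.card →
      ∃ b : ℕ, 1 < b ∧ (b : ℝ) ≤ (n : ℝ) ^ (1 / (2 * k * Real.exp (3 / 4)) + ε) ∧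
        ¬ Passes n b := by
  obtain ⟨κ, hκd⟩ : ∃ κ : ℝ, κ = 1 / (2 * k * Real.exp (3 / 4)) := ⟨_, rfl⟩
  rw [← hκd]
  have hk4 : (4 : ℝ) ≤ k := by exact_mod_cast hk
  have he34 : (1 : ℝ) ≤ Real.exp (3 / 4) := Real.one_le_exp (by norm_num)
  have he12 : (1 : ℝ) ≤ Real.exp (1 / 2) := Real.one_le_exp (by norm_num)
  have hκ0 : 0 < κ := by rw [hκd]; positivity
  have hκ1 : κ ≤ 1 := by
    rw [hκd, div_le_one (by positivity)]
    nlinarith
  have hk1 : ((k - 1 : ℕ) : ℝ) = k - 1 := by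
    rw [Nat.cast_sub (by omega)]; norm_num
  have hs1 : (1 / ((k - 1 : ℕ) : ℝ)) / (4 * Real.exp (1 / 2)) < κ + ε := by
    have : (1 / ((k - 1 : ℕ) : ℝ)) / (4 * Real.exp (1 / 2)) ≤ κ := by
      rw [hk1, hκd, div_div]
      apply one_div_le_one_div_of_le
      · positivity
      · have := exp_quarter
        nlinarith
    linarith
  have hs2 : (4 / (k : ℝ)) * Real.exp (-(3 / 4)) / 8 < κ + ε := by
    have : (4 / (k : ℝ)) * Real.exp (-(3 / 4)) / 8 = κ := by
      rw [hκd, Real.exp_neg]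
      field_simp
      norm_num
    linarith
  have hσ1 : 0 < 1 / ((k - 1 : ℕ) : ℝ) := by rw [hk1]; apply div_pos <;> linarith
  obtain ⟨n1, hn1⟩ := singleContra h1 κ (1 / ((k - 1 : ℕ) : ℝ)) (κ + ε) hκ0 hσ1 hs1
  obtain ⟨n2, hn2⟩ := tripleContra h2 h4 κ (4 / k) (κ + ε) hκ0 (by positivity) hs2
  obtain ⟨n3, hn3⟩ := large_rpow (κ + ε) (by linarith) 2
  refine ⟨max (max n1 n2) (max n3 1), fun n hn hcard => ?_⟩
  have g1 : n1 ≤ n := ((le_max_left _ _).trans (le_max_left _ _)).trans hn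
  have g2 : n2 ≤ n := ((le_max_right _ _).trans (le_max_left _ _)).trans hn
  have g3 : n3 ≤ n := ((le_max_left _ _).trans (le_max_right _ _)).trans hn
  have g4 : 1 ≤ n := ((le_max_right _ _).trans (le_max_right _ _)).trans hn
  have hn1' : (1 : ℝ) ≤ n := by exact_mod_cast g4
  by_contra hno
  push Not at hno
  set y := ⌊(n : ℝ) ^ (κ + ε)⌋₊ with hy
  have hy2 : 2 ≤ y := Nat.le_floor (by exact_mod_cast hn3 n g3)
  have hyle : (y : ℝ) ≤ (n : ℝ) ^ (κ + ε) := Nat.floor_le (by positivity)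
  have hylt : (n : ℝ) ^ (κ + ε) < (y : ℝ) + 1 := Nat.lt_floor_add_one _
  have hpass : ∀ b : ℕ, 1 < b → b ≤ y → Passes n b := by
    intro b hb1 hb2
    exact hno b hb1 (le_trans (by exact_mod_cast hb2) hyle)
  obtain ⟨p, q, r, hp, hq, hr, hpq, hqr, hpn, hqn, hrn, hprod⟩ :=
    three_smallest (by omega : 3 ≤ k) (by omega) hcard
  obtain ⟨hyp, hpqr, hor⟩ := cse2 n y (by omega) hy2 hpass p q r hp hq hr hpq hqr hpn hqn hrn
  have hpy : (n : ℝ) ^ (κ + ε) < p := by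
    have : (y : ℝ) + 1 ≤ p := by exact_mod_cast hyp
    linarith
  have hpκ : (n : ℝ) ^ κ ≤ p :=
    (Real.rpow_le_rpow_of_exponent_le hn1' (by linarith)).trans hpy.le
  have hp2 : p ≠ 2 := by omega
  have hp0 := hp.pos
  have hq0 := hq.pos
  have hr0 := hr.pos
  have hpq' : (p : ℝ) ≤ q := by exact_mod_cast hpq.le
  have hqr' : (q : ℝ) ≤ r := by exact_mod_cast hqr.le
  have hqk : q ^ (k - 1) ≤ n := by
    refine le_trans ?_ hprod
    calc q ^ (k - 1) = q * q ^ (k - 2) := by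
          rw [← pow_succ']; congr 1; omega
      _ ≤ q * r ^ (k - 2) := Nat.mul_le_mul_left _ (Nat.pow_le_pow_left hqr.le _)
      _ ≤ p * (q * r ^ (k - 2)) := Nat.le_mul_of_pos_left _ hp0
      _ = p * q * r ^ (k - 2) := by ring
  have hk10 : k - 1 ≠ 0 := by omega
  rcases hor with hor | ⟨N, hN, hJ⟩ | ⟨hJr, hJpq⟩
  · refine hn2 n g2 p q r y hp hq hr hpq hqr hp2 hpqr ?_ hylt hpκ hor
    have h5 : (p * q * r ^ 2) ^ k ≤ n ^ 4 := by
      refine le_trans ?_ (Nat.pow_le_pow_left hprod 4)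
      have e1 : (p * q * r ^ 2) ^ k = (p * q) ^ (k - 4) * ((p * q) ^ 4 * r ^ (2 * k)) := by
        rw [mul_pow, ← pow_mul, ← mul_assoc, ← pow_add]
        congr 2
        omega
      have e2 : (p * q * r ^ (k - 2)) ^ 4 = (r * r) ^ (k - 4) * ((p * q) ^ 4 * r ^ (2 * k)) := by
        rw [mul_pow, ← pow_mul]
        have : r ^ ((k - 2) * 4) = (r * r) ^ (k - 4) * r ^ (2 * k) := by
          rw [← pow_two, ← pow_mul, ← pow_add]
          congr 1
          omega
        rw [this]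
        ring
      rw [e1, e2]
      exact Nat.mul_le_mul_right _ (Nat.pow_le_pow_left
        (Nat.mul_le_mul (hpq.le.trans hqr.le) hqr.le) _)
    have h6 := rpow_of_pow_le' (by omega : k ≠ 0) h5
    exact_mod_cast h6
  · have hNq : N ≤ q := by rcases hN with rfl | rfl <;> omega
    have hNp : p ≤ N := by rcases hN with rfl | rfl <;> omega
    have hNpr : N.Prime := by rcases hN with rfl | rfl <;> assumption
    have : NeZero N := ⟨hNpr.ne_zero⟩
    refine hn1 n g1 N y hylt (hpκ.trans (by exact_mod_cast hNp)) ?_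
      (h3 κ N hNpr (by omega) hκ1) hJ
    exact rpow_of_pow_le hk10 ((Nat.pow_le_pow_left hNq _).trans hqk)
  · have hpqn : p * q ≤ n := le_trans (Nat.le_mul_of_pos_right _ hr0) hpqr
    by_cases hrpq : r ≤ p * q
    · have : NeZero r := ⟨hr.ne_zero⟩
      refine hn1 n g1 r y hylt (hpκ.trans (hpq'.trans hqr')) ?_
        (h3 κ r hr (by omega) hκ1) hJr
      refine rpow_of_pow_le hk10 (le_trans ?_ hprod)
      calc r ^ (k - 1) = r * r ^ (k - 2) := by
            rw [← pow_succ']; congr 1; omega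
        _ ≤ p * q * r ^ (k - 2) := Nat.mul_le_mul_right _ hrpq
    · push Not at hrpq
      have : NeZero (p * q) := ⟨by positivity⟩
      have hle : ((p * q : ℕ) : ℝ) ^ κ ≤ p :=
        (Real.rpow_le_rpow (by positivity) (by exact_mod_cast hpqn) hκ0.le).trans hpκ
      refine hn1 n g1 (p * q) y hylt ?_ ?_
        (h4 κ p q hp hq hp2 (by omega) hpq.ne hle (hle.trans hpq')) hJpq
      · refine hpκ.trans ?_
        exact_mod_cast Nat.le_mul_of_pos_right _ hq0
      · refine rpow_of_pow_le hk10 (le_trans ?_ hprod)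
        calc (p * q) ^ (k - 1) = p * q * (p * q) ^ (k - 2) := by
              rw [← pow_succ']; congr 1; omega
          _ ≤ p * q * r ^ (k - 2) := Nat.mul_le_mul_left _ (Nat.pow_le_pow_left hrpq.le _)

end Pool.Agent.H471R4.BW
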