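import Pool.Agent.H471R4.BW.Stubs2

set_option autoImplicit false

namespace Pool.Agent.H471R4.BW

theorem mna_exp : Real.exp (3 / 4) ≤ 3 / 2 * Real.exp (1 / 2) := by
  have h1 : Real.exp (3 / 4) = Real.exp (1 / 4) * Real.exp (1 / 2) := by
    rw [← Real.exp_add]; norm_num
  have h2 : Real.exp (1 / 4) ≤ 3 / 2 := by
    have h3 : Real.exp (1 / 4) ^ 4 = Real.exp 1 := by
      rw [← Real.exp_nat_mul]; norm_num
    have h4 : Real.exp 1 < 2.7182818286 := Real.exp_one_lt_d9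
    by_contra hcon
    push Not at hcon
    have h5 : (3 / 2 : ℝ) ^ 4 < Real.exp (1 / 4) ^ 4 := by gcongr
    rw [h3] at h5
    norm_num at h5
    linarith
  rw [h1]
  exact mul_le_mul_of_nonneg_right h2 (Real.exp_pos _).le

theorem mna (h : SNG) : MNA := by
  intro ε hε
  have hθ : 0 < theta := by unfold theta; positivity
  have hKR : ∀ r, 0 ≤ KR r := fun r => by unfold KR; positivity
  obtain ⟨N0, hN0⟩ := h ε theta KR hε hθ hKR
  have t1 : Filter.Tendsto (fun n : ℕ => (n : ℝ) ^ theta) Filter.atTop Filter.atTop :=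
    (tendsto_rpow_atTop hθ).comp tendsto_natCast_atTop_atTop
  have t2 : Filter.Tendsto (fun n : ℕ => (n : ℝ) ^ (ε / 2)) Filter.atTop Filter.atTop :=
    (tendsto_rpow_atTop (by positivity)).comp tendsto_natCast_atTop_atTop
  have e1 := t1.eventually_ge_atTop (N0 : ℝ)
  have e2 := t2.eventually_ge_atTop (2 : ℝ)
  have e3 := Filter.eventually_ge_atTop (1 : ℕ)
  obtain ⟨n0, hn0⟩ := Filter.eventually_atTop.1 (e1.and (e2.and e3))
  refine ⟨n0, fun n hn N y _ h1 h2 h3 h4 h5 => ?_⟩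
  obtain ⟨g1, g2, g3⟩ := hn0 n hn
  have hN : N0 ≤ N := by exact_mod_cast g1.trans h2
  have hy := hN0 N hN (jchar N) h4 y (fun l hl hly => by
    rw [jchar_apply, h5 l hl hly]; norm_num)
  have hn1 : (1 : ℝ) ≤ n := by exact_mod_cast g3
  have hn0' : (0 : ℝ) ≤ n := by linarith
  have hNn : (N : ℝ) ≤ (n : ℝ) ^ (1 / 2 : ℝ) := by
    rw [← Real.sqrt_eq_rpow]
    apply Real.le_sqrt_of_sq_le
    exact_mod_cast h3
  have ha : 1 / (4 * Real.exp (1 / 2)) ≤ 2 * theta := by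
    unfold theta
    have p1 := Real.exp_pos (1 / 2 : ℝ)
    have p2 := Real.exp_pos (3 / 4 : ℝ)
    rw [mul_one_div, div_le_div_iff₀ (by positivity) (by positivity)]
    have := mna_exp
    nlinarith
  have hpos : 0 ≤ 1 / (4 * Real.exp (1 / 2)) + ε := by positivity
  have k1 : (N : ℝ) ^ (1 / (4 * Real.exp (1 / 2)) + ε) ≤ (n : ℝ) ^ (theta + ε / 2) := by
    calc (N : ℝ) ^ (1 / (4 * Real.exp (1 / 2)) + ε)
        ≤ ((n : ℝ) ^ (1 / 2 : ℝ)) ^ (1 / (4 * Real.exp (1 / 2)) + ε) :=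
          Real.rpow_le_rpow (by positivity) hNn hpos
      _ = (n : ℝ) ^ ((1 / 2 : ℝ) * (1 / (4 * Real.exp (1 / 2)) + ε)) := by
          rw [← Real.rpow_mul hn0']
      _ ≤ (n : ℝ) ^ (theta + ε / 2) := by
          apply Real.rpow_le_rpow_of_exponent_le hn1
          linarith
  have k2 : (n : ℝ) ^ (theta + ε) = (n : ℝ) ^ (theta + ε / 2) * (n : ℝ) ^ (ε / 2) := by
    rw [← Real.rpow_add (by linarith)]
    congr 1
    ring
  have k3 : (1 : ℝ) ≤ (n : ℝ) ^ (theta + ε / 2) := Real.one_le_rpow hn1 (by positivity)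
  rw [k2] at h1
  nlinarith

end Pool.Agent.H471R4.BW
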