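import Pool.Agent.H471R4.BW.Stubs2

set_option autoImplicit false

namespace Pool.Agent.H471R4.BW

open Finset

theorem nu1 : NU1 := by
  intro N _ A X hA
  classical
  have h1 : ∑ x : ZMod N, nu N A X x =
      ∑ x : ZMod N, ∑ w ∈ A ×ˢ Icc 1 X, if (w.2 : ZMod N) = (w.1 : ZMod N) * x then 1 else 0 := by
    refine Finset.sum_congr rfl fun x _ => ?_
    unfold nu
    rw [Finset.card_filter]
  rw [h1, Finset.sum_comm]
  have h2 : ∀ w ∈ A ×ˢ Icc 1 X,
      (∑ x : ZMod N, if (w.2 : ZMod N) = (w.1 : ZMod N) * x then 1 else 0) = 1 := by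
    intro w hw
    obtain ⟨ha, _⟩ := Finset.mem_product.mp hw
    have hu := hA _ ha
    set u : (ZMod N)ˣ := ZMod.unitOfCoprime w.1 hu with hudef
    have hval : (u : ZMod N) = (w.1 : ZMod N) := ZMod.coe_unitOfCoprime _ _
    have h3 : ∀ x : ZMod N, ((w.2 : ZMod N) = (w.1 : ZMod N) * x) ↔
        (↑u⁻¹ * (w.2 : ZMod N) = x) := by
      intro x
      rw [← hval]
      constructor
      · intro h
        rw [h, Units.inv_mul_cancel_left]
      · intro h
        rw [← h, Units.mul_inv_cancel_left]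
    simp_rw [h3]
    rw [Finset.sum_ite_eq]
    simp
  rw [Finset.sum_congr rfl h2, Finset.sum_const, Finset.card_product, Nat.card_Icc]
  simp

end Pool.Agent.H471R4.BW
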