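import Pool.Agent.H471R4.BW.Stubs

set_option autoImplicit false

/-! Project BW, task NU2. -/

namespace Pool.Agent.H471R4.BW

open Finset

namespace NU2Aux

lemma cnt_same (a X : ℕ) (ha : a.Prime) :
    ((Icc 1 X ×ˢ Icc 1 X).filter fun m : ℕ × ℕ => a * m.1 = a * m.2).card ≤ X := by
  have h : ((Icc 1 X ×ˢ Icc 1 X).filter fun m : ℕ × ℕ => a * m.1 = a * m.2).card ≤
      (Icc 1 X).card := by
    apply Finset.card_le_card_of_injOn (fun m => m.1)
    · intro m hm
      simp only [coe_filter, mem_product, Set.mem_setOf_eq] at hm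
      exact hm.1.1
    · intro m hm m' hm' e
      simp only [coe_filter, mem_product, Set.mem_setOf_eq] at hm hm' e
      have e1 := Nat.eq_of_mul_eq_mul_left ha.pos hm.2
      have e2 := Nat.eq_of_mul_eq_mul_left ha.pos hm'.2
      exact Prod.ext e (by rw [← e1, ← e2, e])
  simpa using h

lemma cnt_diff (a b X : ℕ) (ha : a.Prime) (hb : b.Prime) (hab : a ≠ b) :
    ((Icc 1 X ×ˢ Icc 1 X).filter fun m : ℕ × ℕ => b * m.1 = a * m.2).card ≤ X / max a b := by
  have hrep : ∀ m : ℕ × ℕ, b * m.1 = a * m.2 → ∃ k, m.1 = a * k ∧ m.2 = b * k := by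
    intro m hm
    have hc : Nat.Coprime a b := (Nat.coprime_primes ha hb).2 hab
    have h1 : a ∣ b * m.1 := ⟨m.2, hm⟩
    obtain ⟨k, hk⟩ := hc.dvd_of_dvd_mul_left h1
    refine ⟨k, hk, ?_⟩
    rw [hk] at hm
    have : a * (b * k) = a * m.2 := by rw [← hm]; ring
    exact (Nat.eq_of_mul_eq_mul_left ha.pos this).symm
  have h : ((Icc 1 X ×ˢ Icc 1 X).filter fun m : ℕ × ℕ => b * m.1 = a * m.2).card ≤
      (Icc 1 (X / max a b)).card := by
    apply Finset.card_le_card_of_injOn (fun m => m.1 / a)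
    · intro m hm
      simp only [coe_filter, mem_product, mem_Icc, Set.mem_setOf_eq] at hm
      obtain ⟨k, h1, h2⟩ := hrep m hm.2
      have hk : m.1 / a = k := by rw [h1]; exact Nat.mul_div_cancel_left k ha.pos
      simp only [coe_Icc, Set.mem_Icc, hk]
      constructor
      · rcases Nat.eq_zero_or_pos k with h0 | h0
        · rw [h0, mul_zero] at h1; omega
        · exact h0
      · rw [Nat.le_div_iff_mul_le (lt_of_lt_of_le ha.pos (le_max_left _ _))]
        rcases le_total a b with hle | hle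
        · rw [max_eq_right hle, mul_comm, ← h2]; exact hm.1.2.2
        · rw [max_eq_left hle, mul_comm, ← h1]; exact hm.1.1.2
    · intro m hm m' hm' e
      simp only [coe_filter, mem_product, mem_Icc, Set.mem_setOf_eq] at hm hm' e
      obtain ⟨k, h1, h2⟩ := hrep m hm.2
      obtain ⟨k', h1', h2'⟩ := hrep m' hm'.2
      have hk : m.1 / a = k := by rw [h1]; exact Nat.mul_div_cancel_left k ha.pos
      have hk' : m'.1 / a = k' := by rw [h1']; exact Nat.mul_div_cancel_left k' ha.pos
      rw [hk, hk'] at e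
      exact Prod.ext (by rw [h1, h1', e]) (by rw [h2, h2', e])
  simpa using h

/-- number of pairs with given `a, b` -/
def cn (X a b : ℕ) : ℕ := ((Icc 1 X ×ˢ Icc 1 X).filter fun m : ℕ × ℕ => b * m.1 = a * m.2).card

lemma sum_cn (A : Finset ℕ) (X : ℕ) (hA : ∀ a ∈ A, a.Prime) :
    ∑ a ∈ A, ∑ b ∈ A, cn X a b ≤ 3 * A.card * X := by
  have h1 : ∀ a ∈ A, ∀ b ∈ A, cn X a b ≤ (if a = b then X else 0) +
      ((if b < a then X / a else 0) + (if a < b then X / b else 0)) := by
    intro a ha b hb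
    rcases lt_trichotomy a b with h | h | h
    · have := cnt_diff a b X (hA a ha) (hA b hb) h.ne
      rw [max_eq_right h.le] at this
      simp only [cn, h.ne, h, not_lt_of_gt h, if_true, if_false]
      omega
    · subst h
      have := cnt_same a X (hA a ha)
      simp only [cn, lt_irrefl, if_true, if_false]
      omega
    · have := cnt_diff a b X (hA a ha) (hA b hb) h.ne'
      rw [max_eq_left h.le] at this
      simp only [cn, h.ne', h, not_lt_of_gt h, if_true, if_false]
      omega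
  have h2 : ∀ a ∈ A, ∑ b ∈ A, (if b < a then X / a else 0) ≤ X := by
    intro a ha
    rw [← Finset.sum_filter, Finset.sum_const, smul_eq_mul]
    have : (A.filter fun b => b < a).card ≤ a := by
      refine (Finset.card_le_card (t := range a) ?_).trans_eq (card_range a)
      intro b hb
      exact mem_range.mpr (mem_filter.mp hb).2
    calc _ ≤ a * (X / a) := Nat.mul_le_mul_right _ this
      _ ≤ X := Nat.mul_div_le X a
  have h3 : ∑ a ∈ A, ∑ b ∈ A, (if a < b then X / b else 0) ≤ A.card * X := by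
    rw [Finset.sum_comm]
    calc _ ≤ ∑ b ∈ A, X := Finset.sum_le_sum fun b hb => h2 b hb
      _ = A.card * X := by simp
  have h4 : ∑ a ∈ A, ∑ b ∈ A, (if b < a then X / a else 0) ≤ A.card * X := by
    calc _ ≤ ∑ b ∈ A, X := Finset.sum_le_sum fun b hb => h2 b hb
      _ = A.card * X := by simp
  have h5 : ∑ a ∈ A, ∑ b ∈ A, (if a = b then X else 0) = A.card * X := by
    rw [Finset.sum_congr rfl (fun a ha => by rw [Finset.sum_ite_eq, if_pos ha])]
    simp
  calc ∑ a ∈ A, ∑ b ∈ A, cn X a b ≤ ∑ a ∈ A, ∑ b ∈ A, ((if a = b then X else 0) +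
      ((if b < a then X / a else 0) + (if a < b then X / b else 0))) :=
        Finset.sum_le_sum fun a ha => Finset.sum_le_sum fun b hb => h1 a ha b hb
    _ = ∑ a ∈ A, ∑ b ∈ A, (if a = b then X else 0) +
        (∑ a ∈ A, ∑ b ∈ A, (if b < a then X / a else 0) +
          ∑ a ∈ A, ∑ b ∈ A, (if a < b then X / b else 0)) := by
        simp only [Finset.sum_add_distrib]
    _ ≤ 3 * A.card * X := by
        rw [h5]
        have e : 3 * A.card * X = A.card * X + (A.card * X + A.card * X) := by ring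
        omega

end NU2Aux

open NU2Aux in
theorem nu2b : NU2 := by
  classical
  intro N _ A X M hA hN hM hMX
  have key : ∑ x : ZMod N, (nu N A X x) ^ 2 ≤ ∑ a ∈ A, ∑ b ∈ A, cn X a b := by
    have e1 : ∀ x : ZMod N, (nu N A X x) ^ 2 = ∑ w ∈ A ×ˢ Icc 1 X, ∑ w' ∈ A ×ˢ Icc 1 X,
        (if (w.2 : ZMod N) = (w.1 : ZMod N) * x ∧ (w'.2 : ZMod N) = (w'.1 : ZMod N) * x
          then 1 else 0) := by
      intro x
      rw [nu, pow_two, Finset.card_filter, Finset.sum_mul_sum]
      refine Finset.sum_congr rfl fun w _ => Finset.sum_congr rfl fun w' _ => ?_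
      by_cases h1 : (w.2 : ZMod N) = (w.1 : ZMod N) * x <;>
        by_cases h2 : (w'.2 : ZMod N) = (w'.1 : ZMod N) * x <;> simp [h1, h2]
    rw [Finset.sum_congr rfl fun x _ => e1 x, Finset.sum_comm]
    have e2 : ∀ w ∈ A ×ˢ Icc 1 X, ∑ x : ZMod N, ∑ w' ∈ A ×ˢ Icc 1 X,
        (if (w.2 : ZMod N) = (w.1 : ZMod N) * x ∧ (w'.2 : ZMod N) = (w'.1 : ZMod N) * x
          then 1 else 0) ≤ ∑ w' ∈ A ×ˢ Icc 1 X, (if w'.1 * w.2 = w.1 * w'.2 then 1 else 0) := by
      intro w hw
      rw [Finset.sum_comm]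
      refine Finset.sum_le_sum fun w' hw' => ?_
      rw [mem_product, mem_Icc] at hw hw'
      rw [← Finset.card_filter]
      have hu : IsUnit (w.1 : ZMod N) := (ZMod.isUnit_iff_coprime _ _).mpr (hN _ hw.1)
      have hle1 : (univ.filter fun x : ZMod N => (w.2 : ZMod N) = (w.1 : ZMod N) * x ∧
          (w'.2 : ZMod N) = (w'.1 : ZMod N) * x).card ≤ 1 := by
        rw [Finset.card_le_one]
        intro x hx x' hx'
        rw [mem_filter] at hx hx'
        exact hu.mul_left_cancel (hx.2.1.symm.trans hx'.2.1)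
      by_cases hc : w'.1 * w.2 = w.1 * w'.2
      · rw [if_pos hc]; exact hle1
      · rw [if_neg hc, Nat.le_zero, Finset.card_eq_zero, Finset.filter_eq_empty_iff]
        rintro x - ⟨h1, h2⟩
        apply hc
        have h3 : ((w'.1 * w.2 : ℕ) : ZMod N) = ((w.1 * w'.2 : ℕ) : ZMod N) := by
          push_cast
          rw [h1, h2]; ring
        rw [ZMod.natCast_eq_natCast_iff'] at h3
        have b1 : w'.1 * w.2 < N := lt_of_le_of_lt (Nat.mul_le_mul (hM _ hw'.1) hw.2.2) hMX
        have b2 : w.1 * w'.2 < N := lt_of_le_of_lt (Nat.mul_le_mul (hM _ hw.1) hw'.2.2) hMX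
        rwa [Nat.mod_eq_of_lt b1, Nat.mod_eq_of_lt b2] at h3
    refine (Finset.sum_le_sum e2).trans_eq ?_
    rw [Finset.sum_product]
    refine Finset.sum_congr rfl fun a _ => ?_
    have e3 : ∀ m ∈ Icc 1 X, ∑ w' ∈ A ×ˢ Icc 1 X, (if w'.1 * m = a * w'.2 then 1 else 0) =
        ∑ b ∈ A, ∑ m' ∈ Icc 1 X, (if b * m = a * m' then 1 else 0) := by
      intro m _
      rw [Finset.sum_product]
    rw [Finset.sum_congr rfl e3, Finset.sum_comm]
    refine Finset.sum_congr rfl fun b _ => ?_
    rw [cn, Finset.card_filter, Finset.sum_product]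
  exact key.trans (sum_cn A X hA)

end Pool.Agent.H471R4.BW
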