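import Pool.Agent.H471R4.BW.Stubs

set_option autoImplicit false

/-! Task SHF: the shifted sums. -/

namespace Pool.Agent.H471R4.BW

open Finset

namespace SHFx

/-- telescoping -/
theorem tel (f : ℕ → ℂ) (X : ℕ) : ∑ m ∈ Icc 1 X, (f m - f (m + 1)) = f 1 - f (X + 1) := by
  induction X with
  | zero => simp
  | succ X ih =>
    rw [Finset.sum_Icc_succ_top (by omega), ih]
    ring

theorem shift (f : ℕ → ℂ) (hf : ∀ m, ‖f m‖ ≤ 1) (X h : ℕ) :
    ‖∑ m ∈ Icc 1 X, f m - ∑ m ∈ Icc 1 X, f (m + h)‖ ≤ 2 * h := by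
  induction h with
  | zero => simp
  | succ h ih =>
    have e : ∑ m ∈ Icc 1 X, f m - ∑ m ∈ Icc 1 X, f (m + (h + 1)) =
        (∑ m ∈ Icc 1 X, f m - ∑ m ∈ Icc 1 X, f (m + h)) + (f (1 + h) - f (X + 1 + h)) := by
      have h1 := tel (fun m => f (m + h)) X
      rw [Finset.sum_sub_distrib] at h1
      have h2 : ∑ m ∈ Icc 1 X, f (m + (h + 1)) = ∑ m ∈ Icc 1 X, f (m + 1 + h) :=
        Finset.sum_congr rfl fun m _ => by rw [add_assoc, add_comm 1 h]
      rw [h2]
      linear_combination h1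
    rw [e]
    refine (norm_add_le _ _).trans ?_
    have h3 := norm_sub_le (f (1 + h)) (f (X + 1 + h))
    have h4 := hf (1 + h)
    have h5 := hf (X + 1 + h)
    push_cast
    linarith

end SHFx

theorem shf : SHF := by
  classical
  intro N _ χ A X M B hA hM
  set T : ZMod N → ℝ := fun x => ‖∑ b ∈ range B, χ (x + (b : ZMod N))‖ with hT
  have hχ : ∀ a : ZMod N, ‖χ a‖ ≤ 1 := fun a => χ.norm_le_one a
  have h1 : ∀ a ∈ A, ∀ b ∈ range B,
      ‖shortSum N χ X - ∑ m ∈ Icc 1 X, χ ((m + a * b : ℕ) : ZMod N)‖ ≤ 2 * M * B := by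
    intro a ha b hb
    rw [Finset.mem_range] at hb
    have h := SHFx.shift (fun m => χ (m : ZMod N)) (fun m => hχ _) X (a * b)
    refine h.trans ?_
    have h2 : a * b ≤ M * B := Nat.mul_le_mul (hM a ha) hb.le
    have h3 : ((a * b : ℕ) : ℝ) ≤ ((M * B : ℕ) : ℝ) := by exact_mod_cast h2
    push_cast at h3 ⊢
    linarith
  have h2 : ‖∑ a ∈ A, ∑ b ∈ range B, ∑ m ∈ Icc 1 X, χ ((m + a * b : ℕ) : ZMod N)‖ ≤
      ∑ x : ZMod N, (nu N A X x : ℝ) * T x := by
    have e1 : ∑ a ∈ A, ∑ b ∈ range B, ∑ m ∈ Icc 1 X, χ ((m + a * b : ℕ) : ZMod N) =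
        ∑ w ∈ A ×ˢ Icc 1 X, ∑ b ∈ range B, χ ((w.2 + w.1 * b : ℕ) : ZMod N) := by
      rw [Finset.sum_product]
      refine Finset.sum_congr rfl fun a _ => ?_
      rw [Finset.sum_comm]
    rw [e1]
    refine (norm_sum_le _ _).trans ?_
    have e2 : ∑ x : ZMod N, (nu N A X x : ℝ) * T x =
        ∑ w ∈ A ×ˢ Icc 1 X, ∑ x : ZMod N, if (w.2 : ZMod N) = (w.1 : ZMod N) * x then T x else 0 := by
      rw [Finset.sum_comm]
      refine Finset.sum_congr rfl fun x _ => ?_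
      unfold nu
      rw [Finset.card_filter]
      push_cast
      rw [Finset.sum_mul]
      refine Finset.sum_congr rfl fun w _ => ?_
      split_ifs <;> simp
    rw [e2]
    refine Finset.sum_le_sum fun w hw => ?_
    rw [Finset.mem_product] at hw
    have hu : IsUnit (w.1 : ZMod N) := (ZMod.isUnit_iff_coprime w.1 N).mpr (hA _ hw.1)
    obtain ⟨u, hu⟩ := hu
    set x0 : ZMod N := (↑(u⁻¹) : ZMod N) * (w.2 : ZMod N) with hx0
    have hx1 : (w.1 : ZMod N) * x0 = (w.2 : ZMod N) := by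
      rw [hx0, ← hu, ← mul_assoc, Units.mul_inv, one_mul]
    have h3 : ∑ x : ZMod N, (if (w.2 : ZMod N) = (w.1 : ZMod N) * x then T x else 0) = T x0 := by
      rw [Finset.sum_eq_single x0]
      · rw [if_pos hx1.symm]
      · intro y _ hy
        rw [if_neg]
        intro h
        apply hy
        rw [hx0, h, ← hu, ← mul_assoc, Units.inv_mul, one_mul]
      · intro h; exact absurd (Finset.mem_univ _) h
    rw [h3]
    have e3 : ∑ b ∈ range B, χ ((w.2 + w.1 * b : ℕ) : ZMod N) =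
        χ (w.1 : ZMod N) * ∑ b ∈ range B, χ (x0 + (b : ZMod N)) := by
      rw [Finset.mul_sum]
      refine Finset.sum_congr rfl fun b _ => ?_
      rw [← map_mul]
      congr 1
      push_cast
      rw [mul_add, hx1]
    rw [e3, norm_mul]
    calc ‖χ (w.1 : ZMod N)‖ * ‖∑ b ∈ range B, χ (x0 + (b : ZMod N))‖
        ≤ 1 * ‖∑ b ∈ range B, χ (x0 + (b : ZMod N))‖ :=
          mul_le_mul_of_nonneg_right (hχ _) (norm_nonneg _)
      _ = T x0 := one_mul _
  have h3 : ‖∑ a ∈ A, ∑ b ∈ range B, (shortSum N χ X -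
      ∑ m ∈ Icc 1 X, χ ((m + a * b : ℕ) : ZMod N))‖ ≤ (A.card : ℝ) * B * (2 * M * B) := by
    refine (norm_sum_le _ _).trans ?_
    have h4 : ∀ a ∈ A, ‖∑ b ∈ range B, (shortSum N χ X -
        ∑ m ∈ Icc 1 X, χ ((m + a * b : ℕ) : ZMod N))‖ ≤ B * (2 * M * B) := by
      intro a ha
      refine (norm_sum_le _ _).trans ?_
      refine (Finset.sum_le_sum fun b hb => h1 a ha b hb).trans ?_
      rw [Finset.sum_const, Finset.card_range, nsmul_eq_mul]
    refine (Finset.sum_le_sum h4).trans ?_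
    rw [Finset.sum_const, nsmul_eq_mul]
    exact le_of_eq (by ring)
  have e4 : (A.card : ℂ) * B * shortSum N χ X =
      ∑ a ∈ A, ∑ b ∈ range B, (shortSum N χ X -
        ∑ m ∈ Icc 1 X, χ ((m + a * b : ℕ) : ZMod N)) +
      ∑ a ∈ A, ∑ b ∈ range B, ∑ m ∈ Icc 1 X, χ ((m + a * b : ℕ) : ZMod N) := by
    rw [← Finset.sum_add_distrib]
    have : ∀ a ∈ A, (∑ b ∈ range B, (shortSum N χ X -
        ∑ m ∈ Icc 1 X, χ ((m + a * b : ℕ) : ZMod N)) +
        ∑ b ∈ range B, ∑ m ∈ Icc 1 X, χ ((m + a * b : ℕ) : ZMod N)) = B * shortSum N χ X := by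
      intro a _
      rw [← Finset.sum_add_distrib]
      simp only [sub_add_cancel]
      rw [Finset.sum_const, Finset.card_range, nsmul_eq_mul]
    rw [Finset.sum_congr rfl this, Finset.sum_const, nsmul_eq_mul, mul_assoc]
  have e5 : (A.card : ℝ) * B * ‖shortSum N χ X‖ = ‖(A.card : ℂ) * B * shortSum N χ X‖ := by
    rw [norm_mul, norm_mul, Complex.norm_natCast, Complex.norm_natCast]
  rw [e5, e4]
  refine (norm_add_le _ _).trans ?_
  linarith

end Pool.Agent.H471R4.BW
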