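import Pool.Agent.H471R4.BW.Stubs2
import Pool.Agent.Helper923.HMertens

set_option autoImplicit false

/-! Task SMO: a positive proportion of the integers is smooth. -/

namespace Pool.Agent.H471R4.BW

open Finset

namespace SMOaux

/-- many primes in `(D^α, D^β]` -/
theorem prime_sum (α β : ℝ) (hα : 0 < α) (hαβ : α < β) : ∃ δ > 0, ∃ L0 : ℝ, ∀ D : ℕ, 1 ≤ D →
    L0 ≤ Real.log D →
    δ ≤ ∑ p ∈ (Ioc ⌊(D : ℝ) ^ α⌋₊ ⌊(D : ℝ) ^ β⌋₊).filter Nat.Prime, (1 : ℝ) / p := by
  obtain ⟨C, hC0, hC⟩ := Pool.Agent.Helper923.HMertens.mertens_ratio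
  set ρ : ℝ := β / α with hρ
  have hρ1 : 1 < ρ := (one_lt_div hα).2 hαβ
  set ρ' : ℝ := (1 + ρ) / 2 with hρ'
  have h1 : 1 < ρ' := by linarith
  have h2 : ρ' < ρ := by linarith
  have hlog : 0 < Real.log ρ' := Real.log_pos h1
  have hβ : β = ρ * α := by rw [hρ]; field_simp
  have hgap : 0 < β - ρ' * α := by rw [hβ]; nlinarith
  have hl2 : 0 < Real.log 2 := Real.log_pos (by norm_num)
  refine ⟨Real.log ρ' / 2, by positivity, max ((2 * Real.log 2) / α)
    (max ((Real.log 2) / (β - ρ' * α)) ((2 * C / Real.log ρ' + Real.log 2) / α)), ?_⟩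
  intro D hD hL
  have hL1 : (2 * Real.log 2) / α ≤ Real.log D := (le_max_left _ _).trans hL
  have hL2 : (Real.log 2) / (β - ρ' * α) ≤ Real.log D :=
    ((le_max_left _ _).trans (le_max_right _ _)).trans hL
  have hL3 : (2 * C / Real.log ρ' + Real.log 2) / α ≤ Real.log D :=
    ((le_max_right _ _).trans (le_max_right _ _)).trans hL
  rw [div_le_iff₀ hα] at hL1 hL3
  rw [div_le_iff₀ hgap] at hL2
  have hD0 : (0 : ℝ) < D := by exact_mod_cast hD
  have hDα0 : (0 : ℝ) < (D : ℝ) ^ α := Real.rpow_pos_of_pos hD0 _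
  have hDβ0 : (0 : ℝ) < (D : ℝ) ^ β := Real.rpow_pos_of_pos hD0 _
  have hlogα : Real.log ((D : ℝ) ^ α) = α * Real.log D := Real.log_rpow hD0 α
  have hlogβ : Real.log ((D : ℝ) ^ β) = β * Real.log D := Real.log_rpow hD0 β
  have h4 : (4 : ℝ) ≤ (D : ℝ) ^ α := by
    rw [← Real.log_le_log_iff (by norm_num) hDα0, hlogα]
    have : Real.log 4 = 2 * Real.log 2 := by
      rw [show (4 : ℝ) = 2 ^ 2 by norm_num, Real.log_pow]; norm_num
    rw [this]; linarith
  have hDge1 : (1 : ℝ) ≤ D := by exact_mod_cast hD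
  have hαβ' : (D : ℝ) ^ α ≤ (D : ℝ) ^ β := Real.rpow_le_rpow_of_exponent_le hDge1 hαβ.le
  set a := ⌊(D : ℝ) ^ α⌋₊ with ha
  set b := ⌊(D : ℝ) ^ β⌋₊ with hb
  have hab : a ≤ b := Nat.floor_le_floor hαβ'
  have ha2 : 2 ≤ a := Nat.le_floor (by norm_num; linarith)
  have haup : (a : ℝ) ≤ (D : ℝ) ^ α := Nat.floor_le hDα0.le
  have halow : (D : ℝ) ^ α / 2 ≤ a := by
    have := Nat.lt_floor_add_one ((D : ℝ) ^ α)
    rw [← ha] at this
    linarith
  have hblow : (D : ℝ) ^ β / 2 ≤ b := by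
    have := Nat.lt_floor_add_one ((D : ℝ) ^ β)
    rw [← hb] at this
    linarith
  have ha0 : (0 : ℝ) < a := by
    have : (2 : ℝ) ≤ a := by exact_mod_cast ha2
    linarith
  have hb0 : (0 : ℝ) < b := by
    have : (2 : ℝ) ≤ b := by exact_mod_cast ha2.trans hab
    linarith
  have hla1 : Real.log a ≤ α * Real.log D := by
    rw [← hlogα]; exact Real.log_le_log ha0 haup
  have hla2 : α * Real.log D - Real.log 2 ≤ Real.log a := by
    rw [← hlogα, ← Real.log_div hDα0.ne' (by norm_num)]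
    exact Real.log_le_log (by positivity) halow
  have hlb : β * Real.log D - Real.log 2 ≤ Real.log b := by
    rw [← hlogβ, ← Real.log_div hDβ0.ne' (by norm_num)]
    exact Real.log_le_log (by positivity) hblow
  have hlapos : 0 < Real.log a := Real.log_pos (by
    have : (2 : ℝ) ≤ a := by exact_mod_cast ha2
    linarith)
  have hratio : ρ' ≤ Real.log b / Real.log a := by
    rw [le_div_iff₀ hlapos]
    have : ρ' * Real.log a ≤ ρ' * (α * Real.log D) := by
      apply mul_le_mul_of_nonneg_left hla1; linarith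
    nlinarith
  have h5 : Real.log ρ' ≤ Real.log (Real.log b / Real.log a) :=
    Real.log_le_log (by linarith) hratio
  have h6 : C / Real.log a ≤ Real.log ρ' / 2 := by
    rw [div_le_iff₀ hlapos]
    have h7 : 2 * C / Real.log ρ' ≤ Real.log a := by linarith
    rw [div_le_iff₀ hlog] at h7
    linarith
  have h8 := hC a b ha2 hab
  rw [abs_le] at h8
  linarith [h8.1]

end SMOaux

open SMOaux

theorem smo : SMO := by
  classical
  intro κ hκ0 hκ1
  set k : ℝ := min κ (1 / 2) with hk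
  have hk0 : 0 < k := lt_min hκ0 (by norm_num)
  have hkκ : k ≤ κ := min_le_left _ _
  have hk2 : k ≤ 1 / 2 := min_le_right _ _
  set t : ℕ := ⌈1 / k⌉₊ with ht
  have htk : 1 / k ≤ t := Nat.le_ceil _
  have ht0 : (0 : ℝ) < t := lt_of_lt_of_le (by positivity) htk
  set α : ℝ := (1 - k) / t with hα
  set β : ℝ := (1 - k / 2) / t with hβ
  have hα0 : 0 < α := div_pos (by linarith) ht0
  have hαβ : α < β := by
    rw [hα, hβ]
    gcongr
    linarith
  have hβk : β ≤ k := by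
    rw [hβ, div_le_iff₀ ht0]
    rw [div_le_iff₀ hk0] at htk
    nlinarith
  have hαt : α * t = 1 - k := by rw [hα]; field_simp
  have hβt : β * t = 1 - k / 2 := by rw [hβ]; field_simp
  obtain ⟨δ, hδ, L0, hsum⟩ := prime_sum α β hα0 hαβ
  set w : ℕ := ⌈1 / α⌉₊ with hw
  have hw0 : (0 : ℝ) < w := lt_of_lt_of_le (by positivity) (Nat.le_ceil (1 / α))
  have hl2 : 0 < Real.log 2 := Real.log_pos (by norm_num)
  refine ⟨δ ^ t / (2 * (w : ℝ) ^ t), by positivity,
    ⌈Real.exp (max L0 (2 * Real.log 2 / k))⌉₊ + 2, ?_⟩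
  intro D hD
  have hD2 : 2 ≤ D := by omega
  have hD0 : (0 : ℝ) < D := by exact_mod_cast (by omega : 0 < D)
  have hD1 : (1 : ℝ) < D := by exact_mod_cast (by omega : 1 < D)
  have hDexp : Real.exp (max L0 (2 * Real.log 2 / k)) ≤ D := by
    refine (Nat.le_ceil _).trans ?_
    exact_mod_cast (by omega : ⌈Real.exp (max L0 (2 * Real.log 2 / k))⌉₊ ≤ D)
  have hlogD : max L0 (2 * Real.log 2 / k) ≤ Real.log D := by
    rw [Real.le_log_iff_exp_le hD0]; exact hDexp
  have hL0 : L0 ≤ Real.log D := (le_max_left _ _).trans hlogD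
  have hLk : 2 * Real.log 2 ≤ Real.log D * k := by
    have := (le_max_right _ _).trans hlogD
    rwa [div_le_iff₀ hk0] at this
  have hs := hsum D (by omega) hL0
  set a := ⌊(D : ℝ) ^ α⌋₊ with ha
  set b := ⌊(D : ℝ) ^ β⌋₊ with hb
  set A : Finset ℕ := (Ioc a b).filter Nat.Prime with hA
  have hAp : ∀ p ∈ A, p.Prime ∧ (D : ℝ) ^ α ≤ p ∧ (p : ℝ) ≤ (D : ℝ) ^ β := by
    intro p hp
    rw [hA, mem_filter, mem_Ioc] at hp
    refine ⟨hp.2, ?_, ?_⟩
    · have h1 := Nat.lt_floor_add_one ((D : ℝ) ^ α)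
      rw [← ha] at h1
      have h2 : ((a : ℝ) + 1) ≤ p := by exact_mod_cast hp.1.1
      linarith
    · have h1 : (b : ℝ) ≤ (D : ℝ) ^ β := Nat.floor_le (Real.rpow_nonneg hD0.le _)
      have h2 : (p : ℝ) ≤ b := by exact_mod_cast hp.1.2
      linarith
  -- products
  set T : Finset (Fin t → ℕ) := Fintype.piFinset (fun _ : Fin t => A) with hT
  have hTmem : ∀ f ∈ T, ∀ i, f i ∈ A := fun f hf i => by
    rw [hT, Fintype.mem_piFinset] at hf
    exact hf i
  have hPpos : ∀ f ∈ T, 0 < ∏ i, f i := fun f hf =>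
    Finset.prod_pos fun i _ => (hAp _ (hTmem f hf i)).1.pos
  have hPlow : ∀ f ∈ T, (D : ℝ) ^ (1 - k) ≤ ((∏ i, f i : ℕ) : ℝ) := by
    intro f hf
    rw [← hαt, Real.rpow_mul hD0.le, Real.rpow_natCast]
    push_cast
    calc ((D : ℝ) ^ α) ^ t = ∏ _i : Fin t, (D : ℝ) ^ α := by
          rw [Finset.prod_const, Finset.card_univ, Fintype.card_fin]
      _ ≤ ∏ i, (f i : ℝ) := Finset.prod_le_prod (fun i _ => Real.rpow_nonneg hD0.le _)
          (fun i _ => (hAp _ (hTmem f hf i)).2.1)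
  have hPup : ∀ f ∈ T, ((∏ i, f i : ℕ) : ℝ) ≤ (D : ℝ) ^ (1 - k / 2) := by
    intro f hf
    rw [← hβt, Real.rpow_mul hD0.le, Real.rpow_natCast]
    push_cast
    calc ∏ i, (f i : ℝ) ≤ ∏ _i : Fin t, (D : ℝ) ^ β :=
          Finset.prod_le_prod (fun i _ => Nat.cast_nonneg _)
          (fun i _ => (hAp _ (hTmem f hf i)).2.2)
      _ = ((D : ℝ) ^ β) ^ t := by
          rw [Finset.prod_const, Finset.card_univ, Fintype.card_fin]
  -- the quotient is large
  have hquot : ∀ f ∈ T, (D : ℝ) / 2 * (1 / ((∏ i, f i : ℕ) : ℝ)) ≤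
      (((D - 1) / ∏ i, f i : ℕ) : ℝ) := by
    intro f hf
    set P := ∏ i, f i with hP
    have hP0 : (0 : ℝ) < P := by exact_mod_cast hPpos f hf
    have h1 : D - 1 < P * ((D - 1) / P + 1) := Nat.lt_mul_div_succ _ (hPpos f hf)
    have h2 : D ≤ P * ((D - 1) / P + 1) := by omega
    have h3 : (D : ℝ) ≤ P * (((D - 1) / P : ℕ) + 1) := by exact_mod_cast h2
    have h4 : 2 * (P : ℝ) ≤ D := by
      have h5 : (2 : ℝ) ≤ (D : ℝ) ^ (k / 2) := by
        rw [← Real.log_le_log_iff (by norm_num) (Real.rpow_pos_of_pos hD0 _), Real.log_rpow hD0]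
        linarith
      calc 2 * (P : ℝ) ≤ (D : ℝ) ^ (k / 2) * (D : ℝ) ^ (1 - k / 2) :=
            mul_le_mul h5 (hPup f hf) hP0.le (Real.rpow_nonneg hD0.le _)
        _ = D := by
            rw [← Real.rpow_add hD0]
            have : k / 2 + (1 - k / 2) = 1 := by ring
            rw [this, Real.rpow_one]
    rw [div_mul_div_comm, mul_one, div_le_iff₀ (by positivity)]
    nlinarith
  -- tuples
  set Tup : Finset (Σ _ : Fin t → ℕ, ℕ) := T.sigma (fun f => Icc 1 ((D - 1) / ∏ i, f i)) with hTup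
  have hTupcard : (Tup.card : ℝ) = ∑ f ∈ T, (((D - 1) / ∏ i, f i : ℕ) : ℝ) := by
    rw [hTup, Finset.card_sigma]
    push_cast
    refine Finset.sum_congr rfl fun f _ => ?_
    rw [Nat.card_Icc, Nat.add_sub_cancel]
  have hTuplow : (D : ℝ) / 2 * δ ^ t ≤ Tup.card := by
    rw [hTupcard]
    calc (D : ℝ) / 2 * δ ^ t ≤ (D : ℝ) / 2 * (∑ p ∈ A, (1 : ℝ) / p) ^ t := by gcongr
      _ = (D : ℝ) / 2 * ∑ f ∈ T, ∏ i, (1 : ℝ) / (f i) := by
          congr 1
          have := Finset.prod_univ_sum (fun _ : Fin t => A) (fun _ p => (1 : ℝ) / (p : ℝ))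
          rw [Finset.prod_const, Finset.card_univ, Fintype.card_fin] at this
          exact this
      _ = ∑ f ∈ T, (D : ℝ) / 2 * (1 / ((∏ i, f i : ℕ) : ℝ)) := by
          rw [Finset.mul_sum]
          refine Finset.sum_congr rfl fun f _ => ?_
          rw [Finset.prod_div_distrib, Finset.prod_const_one]
          push_cast
          rfl
      _ ≤ _ := Finset.sum_le_sum fun f hf => hquot f hf
  let φ : (Σ _ : Fin t → ℕ, ℕ) → ℕ := fun x => (∏ i, x.1 i) * x.2
  have hmemTup : ∀ x ∈ Tup, x.1 ∈ T ∧ 1 ≤ x.2 ∧ x.2 ≤ (D - 1) / ∏ i, x.1 i := by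
    intro x hx
    rw [hTup, Finset.mem_sigma, mem_Icc] at hx
    exact ⟨hx.1, hx.2.1, hx.2.2⟩
  have hφ : ∀ x ∈ Tup, 1 ≤ φ x ∧ φ x < D := by
    intro x hx
    obtain ⟨h1, h2, h3⟩ := hmemTup x hx
    have h4 := hPpos x.1 h1
    refine ⟨Nat.mul_pos h4 h2, ?_⟩
    have h5 : (∏ i, x.1 i) * x.2 ≤ D - 1 := (Nat.mul_le_mul_left _ h3).trans (Nat.mul_div_le _ _)
    show (∏ i, x.1 i) * x.2 < D
    omega
  -- fibres
  have hfib : ∀ s ∈ Tup.image φ, (Tup.filter fun x => φ x = s).card ≤ w ^ t := by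
    intro s hs'
    obtain ⟨x₀, hx₀, rfl⟩ := Finset.mem_image.1 hs'
    obtain ⟨hs1, hs2⟩ := hφ x₀ hx₀
    set s := φ x₀ with hsdef
    set G : Finset ℕ := s.primeFactors.filter (fun p => (D : ℝ) ^ α ≤ p) with hG
    have hGcard : G.card ≤ w := by
      have h1 : ∏ p ∈ G, p ∣ s :=
        (Finset.prod_dvd_prod_of_subset _ _ _ (Finset.filter_subset _ _)).trans
          (Nat.prod_primeFactors_dvd s)
      have h2 : ∏ p ∈ G, p ≤ s := Nat.le_of_dvd hs1 h1
      have h3 : ((D : ℝ) ^ α) ^ G.card ≤ ∏ p ∈ G, (p : ℝ) := by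
        rw [← Finset.prod_const]
        refine Finset.prod_le_prod (fun i _ => Real.rpow_nonneg hD0.le _) fun p hp => ?_
        rw [hG, mem_filter] at hp
        exact hp.2
      have h4 : (∏ p ∈ G, (p : ℝ)) < D := by
        have : ((∏ p ∈ G, p : ℕ) : ℝ) < D := by exact_mod_cast lt_of_le_of_lt h2 hs2
        push_cast at this
        exact this
      have h5 : (D : ℝ) ^ (α * G.card) < (D : ℝ) ^ (1 : ℝ) := by
        rw [Real.rpow_mul hD0.le, Real.rpow_natCast, Real.rpow_one]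
        exact lt_of_le_of_lt h3 h4
      rw [Real.rpow_lt_rpow_left_iff hD1] at h5
      have h6 : (G.card : ℝ) ≤ 1 / α := by
        rw [le_div_iff₀ hα0]
        linarith
      exact_mod_cast h6.trans (Nat.le_ceil _)
    have h7 : (Tup.filter fun x => φ x = s).card ≤
        (Fintype.piFinset (fun _ : Fin t => G)).card := by
      refine Finset.card_le_card_of_injOn (fun x => x.1) ?_ ?_
      · intro x hx
        rw [mem_coe, mem_filter] at hx
        obtain ⟨h1, h2, h3⟩ := hmemTup x hx.1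
        rw [mem_coe, Fintype.mem_piFinset]
        intro i
        have h8 := hAp _ (hTmem x.1 h1 i)
        rw [hG, mem_filter, Nat.mem_primeFactors]
        refine ⟨⟨h8.1, ?_, by omega⟩, h8.2.1⟩
        rw [← hx.2]
        exact (Finset.dvd_prod_of_mem x.1 (mem_univ i)).trans (dvd_mul_right _ _)
      · rintro ⟨f, m⟩ hx ⟨f', m'⟩ hy hxy
        rw [mem_coe, mem_filter] at hx hy
        simp only at hxy
        subst hxy
        have h1 := (hmemTup _ hx.1).1
        have h2 : (∏ i, f i) * m = (∏ i, f i) * m' := hx.2.trans hy.2.symm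
        have h3 := Nat.eq_of_mul_eq_mul_left (hPpos f h1) h2
        rw [h3]
    refine h7.trans ?_
    rw [Fintype.card_piFinset, Finset.prod_const, Finset.card_univ, Fintype.card_fin]
    exact Nat.pow_le_pow_left hGcard t
  have hcard := Finset.card_le_mul_card_image Tup (w ^ t) hfib
  refine ⟨Tup.image φ, ?_, ?_⟩
  · intro s hs'
    obtain ⟨x, hx, rfl⟩ := Finset.mem_image.1 hs'
    obtain ⟨h1, h2, h3⟩ := hmemTup x hx
    refine ⟨(hφ x hx).1, (hφ x hx).2, fun l hl hdvd => ?_⟩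
    have hDk : (D : ℝ) ^ k ≤ (D : ℝ) ^ κ := Real.rpow_le_rpow_of_exponent_le hD1.le hkκ
    rcases (Nat.Prime.dvd_mul hl).1 hdvd with h | h
    · obtain ⟨i, -, hi⟩ := (Prime.dvd_finsetProd_iff hl.prime _).1 h
      have h4 := hAp _ (hTmem x.1 h1 i)
      rw [Nat.prime_dvd_prime_iff_eq hl h4.1] at hi
      rw [hi]
      exact h4.2.2.trans ((Real.rpow_le_rpow_of_exponent_le hD1.le hβk).trans hDk)
    · have h4 : l ≤ x.2 := Nat.le_of_dvd h2 h
      have h5 : (∏ i, x.1 i) * x.2 ≤ D - 1 := (Nat.mul_le_mul_left _ h3).trans (Nat.mul_div_le _ _)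
      have h6 : (((∏ i, x.1 i : ℕ) : ℝ)) * x.2 ≤ D := by
        exact_mod_cast h5.trans (Nat.sub_le _ _)
      have h7 := hPlow x.1 h1
      have h8 : (x.2 : ℝ) ≤ (D : ℝ) ^ k := by
        have h9 : (D : ℝ) ^ (1 - k) * x.2 ≤ (D : ℝ) ^ (1 - k) * (D : ℝ) ^ k := by
          rw [← Real.rpow_add hD0]
          have : 1 - k + k = 1 := by ring
          rw [this, Real.rpow_one]
          exact (mul_le_mul_of_nonneg_right h7 (Nat.cast_nonneg _)).trans h6
        exact le_of_mul_le_mul_left h9 (Real.rpow_pos_of_pos hD0 _)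
      have h9 : (l : ℝ) ≤ x.2 := by exact_mod_cast h4
      exact h9.trans (h8.trans hDk)
  · have h1 : (Tup.card : ℝ) ≤ (w : ℝ) ^ t * ((Tup.image φ).card : ℝ) := by exact_mod_cast hcard
    rw [div_mul_eq_mul_div, div_le_iff₀ (by positivity)]
    nlinarith [hTuplow, h1]

end Pool.Agent.H471R4.BW
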