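import Pool.Agent.H471R4.BW.Stubs
import Pool.Agent.Helper923.HMertens

set_option autoImplicit false

namespace Pool.Agent.H471R4.BW

open Finset

/-- badSum is at most the sum over all primes -/
theorem SNG_badSum_le (N : ℕ) (χ : DirichletCharacter ℂ N) (y X : ℕ) :
    badSum N χ y X ≤ ∑ p ∈ (Ioc y X).filter Nat.Prime, (1 : ℝ) / p := by
  classical
  unfold badSum
  refine Finset.sum_le_sum_of_subset_of_nonneg ?_ (fun _ _ _ => by positivity)
  intro l hl
  rw [Finset.mem_filter] at hl ⊢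
  exact ⟨hl.1, hl.2.1⟩

/-- the ratio is smaller than `e^{1/2}` -/
theorem SNG_rho (ε : ℝ) (hε : 0 < ε) :
    Real.log ((1 / 4 + 2 * (ε / 4)) / (1 / (4 * Real.exp (1 / 2)) + ε)) < 1 / 2 := by
  have hs : 1 < Real.exp (1 / 2) := Real.one_lt_exp_iff.mpr (by norm_num)
  have hs0 : 0 < Real.exp (1 / 2) := Real.exp_pos _
  rw [Real.log_lt_iff_lt_exp (by positivity), div_lt_iff₀ (by positivity)]
  have e1 : Real.exp (1 / 2) * (1 / (4 * Real.exp (1 / 2)) + ε) =
      1 / 4 + Real.exp (1 / 2) * ε := by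
    field_simp
  rw [e1]
  nlinarith [mul_pos (sub_pos.mpr hs) hε]

theorem sng (h : BGE) : SNG := by
  intro ε0 κ K hε0 hκ hK
  obtain ⟨ε, hεdef⟩ : ∃ ε, ε = min ε0 (1 / 16) := ⟨_, rfl⟩
  have hε : 0 < ε := by rw [hεdef]; exact lt_min hε0 (by norm_num)
  have hεle : ε ≤ ε0 := by rw [hεdef]; exact min_le_left _ _
  have hε16 : ε ≤ 1 / 16 := by rw [hεdef]; exact min_le_right _ _
  have hrho := SNG_rho ε hε
  obtain ⟨b, hb⟩ : ∃ b, b = 1 / (4 * Real.exp (1 / 2)) + ε := ⟨_, rfl⟩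
  have hb0 : 0 < b := by rw [hb]; positivity
  rw [← hb] at hrho
  obtain ⟨γ, hγ⟩ : ∃ γ, γ = 1 / 2 - Real.log ((1 / 4 + 2 * (ε / 4)) / b) := ⟨_, rfl⟩
  have hγ0 : 0 < γ := by rw [hγ]; linarith
  obtain ⟨C, hC0, hC⟩ := Pool.Agent.Helper923.HMertens.mertens_ratio
  obtain ⟨N1, hN1⟩ := h (ε / 4) (min (γ / 3) (1 / 4)) κ K (by positivity)
    (lt_min (by positivity) (by norm_num)) hκ hK
  obtain ⟨L0, hL0⟩ : ∃ L0 : ℝ, Real.log 2 / (ε / 4) ≤ L0 ∧ Real.log 2 / b ≤ L0 ∧
      3 * C / (γ * b) ≤ L0 :=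
    ⟨max (Real.log 2 / (ε / 4)) (max (Real.log 2 / b) (3 * C / (γ * b))), le_max_left _ _,
      (le_max_left _ _).trans (le_max_right _ _), (le_max_right _ _).trans (le_max_right _ _)⟩
  obtain ⟨hL1, hL2, hL3⟩ := hL0
  refine ⟨max N1 (max 1 ⌈Real.exp L0⌉₊), fun N hN _ χ hF y hy => ?_⟩
  have hNN1 : N1 ≤ N := (le_max_left _ _).trans hN
  have hN1' : 1 ≤ N := ((le_max_left _ _).trans (le_max_right _ _)).trans hN
  have hNexp : Real.exp L0 ≤ N := by
    have : ⌈Real.exp L0⌉₊ ≤ N := ((le_max_right _ _).trans (le_max_right _ _)).trans hN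
    exact (Nat.le_ceil _).trans (by exact_mod_cast this)
  have hNr1 : (1 : ℝ) ≤ N := by exact_mod_cast hN1'
  have hNpos : (0 : ℝ) < N := by linarith
  have hlog : L0 ≤ Real.log N := (Real.le_log_iff_exp_le hNpos).mpr hNexp
  have hlog2 : 0 < Real.log 2 := Real.log_pos (by norm_num)
  have hLpos : 0 < Real.log N := by
    have : 0 < Real.log 2 / b := by positivity
    linarith
  -- powers of N are at least 2
  have hpow : ∀ t : ℝ, 0 < t → Real.log 2 / t ≤ Real.log N → (2 : ℝ) ≤ (N : ℝ) ^ t := by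
    intro t ht hle
    rw [div_le_iff₀ ht] at hle
    rw [Real.rpow_def_of_pos hNpos]
    calc (2 : ℝ) = Real.exp (Real.log 2) := (Real.exp_log (by norm_num)).symm
      _ ≤ Real.exp (Real.log N * t) := Real.exp_le_exp.mpr hle
  by_contra hcon
  push Not at hcon
  have hyb : (N : ℝ) ^ b < y := by
    refine lt_of_le_of_lt ?_ hcon
    exact Real.rpow_le_rpow_of_exponent_le hNr1 (by rw [hb]; linarith)
  have hy2 : (2 : ℝ) < y := lt_of_le_of_lt (hpow b hb0 (hL2.trans hlog)) hyb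
  have hy2' : 2 ≤ y := by
    have : (2 : ℕ) < y := by exact_mod_cast hy2
    omega
  have hypos : (0 : ℝ) < y := by linarith
  have hlogy : b * Real.log N < Real.log y := by
    have := Real.log_lt_log (Real.rpow_pos_of_pos hNpos b) hyb
    rwa [Real.log_rpow hNpos] at this
  -- X
  obtain ⟨X, hXdef⟩ : ∃ X : ℕ, X = ⌈(N : ℝ) ^ (1 / 4 + ε / 4)⌉₊ := ⟨_, rfl⟩
  have hX1 : (N : ℝ) ^ (1 / 4 + ε / 4) ≤ X := by rw [hXdef]; exact Nat.le_ceil _
  have hXpow : (X : ℝ) ≤ (N : ℝ) ^ (1 / 4 + 2 * (ε / 4)) := by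
    have h1 : (X : ℝ) ≤ (N : ℝ) ^ (1 / 4 + ε / 4) + 1 := by
      rw [hXdef]; exact (Nat.ceil_lt_add_one (by positivity)).le
    have h2 : (1 : ℝ) ≤ (N : ℝ) ^ (1 / 4 + ε / 4) := Real.one_le_rpow hNr1 (by positivity)
    have h3 : (2 : ℝ) ≤ (N : ℝ) ^ (ε / 4) := hpow _ (by positivity) (hL1.trans hlog)
    have h4 : (N : ℝ) ^ (1 / 4 + 2 * (ε / 4)) = (N : ℝ) ^ (ε / 4) * (N : ℝ) ^ (1 / 4 + ε / 4) := by
      rw [← Real.rpow_add hNpos]; congr 1; ring
    rw [h4]
    nlinarith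
  have hX2 : (X : ℝ) ≤ Real.sqrt N := by
    rw [Real.sqrt_eq_rpow]
    exact hXpow.trans (Real.rpow_le_rpow_of_exponent_le hNr1 (by linarith))
  have hkey := hN1 N hNN1 χ hF X y hX1 hX2 hy
  have hδ1 : min (γ / 3) (1 / 4) ≤ γ / 3 := min_le_left _ _
  have hδ2 : min (γ / 3) (1 / 4) ≤ 1 / 4 := min_le_right _ _
  have hbs := SNG_badSum_le N χ y X
  rcases le_or_gt X y with hXy | hXy
  · rw [Finset.Ioc_eq_empty_of_le hXy, Finset.filter_empty, Finset.sum_empty] at hbs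
    linarith
  · have hm := hC y X hy2' hXy.le
    have hm2 := (abs_le.mp hm).2
    have hlogypos : 0 < Real.log y := by
      have : 0 < b * Real.log N := by positivity
      linarith
    have hXposN : 0 < X := by omega
    have hXpos : (0 : ℝ) < X := by exact_mod_cast hXposN
    have hlogX : Real.log X ≤ (1 / 4 + 2 * (ε / 4)) * Real.log N := by
      have := Real.log_le_log hXpos hXpow
      rwa [Real.log_rpow hNpos] at this
    have hlogXpos : 0 < Real.log X := by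
      apply Real.log_pos
      have : 1 < X := by omega
      exact_mod_cast this
    have hratio : Real.log X / Real.log y ≤ (1 / 4 + 2 * (ε / 4)) / b := by
      rw [div_le_div_iff₀ hlogypos hb0]
      calc Real.log X * b ≤ ((1 / 4 + 2 * (ε / 4)) * Real.log N) * b := by gcongr
        _ = (1 / 4 + 2 * (ε / 4)) * (b * Real.log N) := by ring
        _ ≤ (1 / 4 + 2 * (ε / 4)) * Real.log y := by gcongr
    have hlr : Real.log (Real.log X / Real.log y) ≤ 1 / 2 - γ := by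
      rw [hγ]
      have := Real.log_le_log (div_pos hlogXpos hlogypos) hratio
      linarith
    have hCy : C / Real.log y ≤ γ / 3 := by
      rw [div_le_iff₀ hlogypos]
      have h5 : 3 * C ≤ Real.log N * (γ * b) := by
        have := hL3.trans hlog
        rwa [div_le_iff₀ (by positivity)] at this
      nlinarith [mul_lt_mul_of_pos_left hlogy hγ0]
    linarith

end Pool.Agent.H471R4.BW
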