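import Pool.Agent.H379R2.W.Strong

set_option autoImplicit false

/-! Project BW (small witnesses of the strong test for integers with three distinct prime
factors): definitions and statements of the tasks. -/

namespace Pool.Agent.H471R4.BW

open Finset

open Pool.Agent.H379R2.W (Passes)

/-- the Jacobi symbol modulo `M` as a Dirichlet character -/
noncomputable def jchar (M : ℕ) [NeZero M] : DirichletCharacter ℂ M where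
  toFun a := ((jacobiSym (a.val : ℤ) M : ℤ) : ℂ)
  map_one' := by
    have h : ((1 : ZMod M).val : ℤ) = (1 % M : ℕ) := by
      rw [ZMod.val_one_eq_one_mod]
    rw [h]
    push_cast
    rw [← jacobiSym.mod_left, jacobiSym.one_left]
    norm_num
  map_mul' a b := by
    rw [ZMod.val_mul]
    push_cast
    rw [← jacobiSym.mod_left, jacobiSym.mul_left]
    push_cast
    rfl
  map_nonunit' a ha := by
    have h1 : jacobiSym (a.val : ℤ) M = 0 := by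
      rw [jacobiSym.eq_zero_iff_not_coprime]
      intro h
      apply ha
      have h2 : Nat.Coprime a.val M := by
        rw [Nat.Coprime]
        have := h
        rwa [Int.gcd_natCast_natCast] at this
      have h3 := (ZMod.isUnit_iff_coprime a.val M).mpr h2
      rwa [ZMod.natCast_zmod_val] at h3
    rw [h1]
    norm_num

lemma jchar_apply (M : ℕ) [NeZero M] (n : ℕ) :
    jchar M (n : ZMod M) = ((jacobiSym (n : ℤ) M : ℤ) : ℂ) := by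
  have : jchar M (n : ZMod M) = ((jacobiSym (((n : ZMod M).val : ℕ) : ℤ) M : ℤ) : ℂ) := rfl
  rw [this, ZMod.val_natCast]
  push_cast
  rw [← jacobiSym.mod_left]

open Classical in
/-- the short sum of `χ` over `1 ≤ m ≤ X` -/
noncomputable def shortSum (N : ℕ) (χ : DirichletCharacter ℂ N) (X : ℕ) : ℂ :=
  ∑ m ∈ Icc 1 X, χ (m : ZMod N)

/-- some value is taken exactly once by `b` and `c` together -/
def Uniq {r : ℕ} (b c : Fin r → ℕ) : Prop :=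
  ∃ v : ℕ, (univ.filter fun i => b i = v).card + (univ.filter fun i => c i = v).card = 1

/-- square root cancellation in the complete sums of products of shifts -/
def Complete (N : ℕ) [NeZero N] (χ : DirichletCharacter ℂ N) (r B : ℕ) (K : ℝ) : Prop :=
  ∀ b c : Fin r → ℕ, (∀ i, b i < B) → (∀ i, c i < B) → Uniq b c →
    ‖∑ x : ZMod N, (∏ i, χ (x + (b i : ZMod N))) *
      ∏ i, (starRingEnd ℂ) (χ (x + (c i : ZMod N)))‖ ≤ K * Real.sqrt N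

/-- `Complete` for all `r` and all `B ≤ N ^ κ` -/
def Fam (κ : ℝ) (K : ℕ → ℝ) (N : ℕ) [NeZero N] (χ : DirichletCharacter ℂ N) : Prop :=
  ∀ r B : ℕ, 1 ≤ r → (B : ℝ) ≤ (N : ℝ) ^ κ → Complete N χ r B (K r)

/-- the constants of the real characters -/
noncomputable def KR (r : ℕ) : ℝ := 100 * (r : ℝ) ^ 2

/-- the exponent -/
noncomputable def theta : ℝ := 1 / (4 * Real.exp (3 / 4) + 2 * Real.exp (1 / 2))

/-- task CS0 -/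
def CS0 : Prop := ∀ (p : ℕ) [Fact p.Prime], p ≠ 2 → ∀ r B : ℕ, B ≤ p → ∀ b c : Fin r → ℕ,
    (∀ i, b i < B) → (∀ i, c i < B) → Uniq b c →
    |∑ x : ZMod p, ((quadraticChar (ZMod p) ((∏ i, (x + (b i : ZMod p))) *
      ∏ i, (x + (c i : ZMod p))) : ℤ) : ℝ)| ≤ 10 * r * Real.sqrt p

/-- task CS1 -/
def CS1 : Prop := ∀ (κ : ℝ) (p : ℕ) [NeZero p], p.Prime → p ≠ 2 → κ ≤ 1 → Fam κ KR p (jchar p)

/-- task CS2 -/
def CS2 : Prop := ∀ (κ : ℝ) (p q : ℕ) [NeZero (p * q)], p.Prime → q.Prime → p ≠ 2 → q ≠ 2 →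
    p ≠ q → ((p * q : ℕ) : ℝ) ^ κ ≤ p → ((p * q : ℕ) : ℝ) ^ κ ≤ q →
    Fam κ KR (p * q) (jchar (p * q))

open Classical in
/-- task TUP -/
def TUP : Prop := ∀ r B : ℕ, 1 ≤ r →
    ((univ : Finset ((Fin r → Fin B) × (Fin r → Fin B))).filter fun w =>
      ¬ Uniq (fun i => (w.1 i : ℕ)) (fun i => (w.2 i : ℕ))).card ≤ r ^ (2 * r) * B ^ r

/-- task MOM -/
def MOM : Prop := ∀ (N : ℕ) [NeZero N] (χ : DirichletCharacter ℂ N) (r B : ℕ) (K : ℝ),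
    1 ≤ r → 0 ≤ K → Complete N χ r B K →
    ∑ x : ZMod N, ‖∑ b ∈ range B, χ (x + (b : ZMod N))‖ ^ (2 * r) ≤
      (r : ℝ) ^ (2 * r) * (B : ℝ) ^ r * N + K * (B : ℝ) ^ (2 * r) * Real.sqrt N

open Classical in
/-- number of representations of `x` as `m / a` with `a ∈ A`, `1 ≤ m ≤ X` -/
noncomputable def nu (N : ℕ) (A : Finset ℕ) (X : ℕ) (x : ZMod N) : ℕ :=
  ((A ×ˢ Icc 1 X).filter fun w => (w.2 : ZMod N) = (w.1 : ZMod N) * x).card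

/-- task NU1 -/
def NU1 : Prop := ∀ (N : ℕ) [NeZero N] (A : Finset ℕ) (X : ℕ), (∀ a ∈ A, Nat.Coprime a N) →
    ∑ x : ZMod N, nu N A X x = A.card * X

/-- task NU2 -/
def NU2 : Prop := ∀ (N : ℕ) [NeZero N] (A : Finset ℕ) (X M : ℕ), (∀ a ∈ A, a.Prime) →
    (∀ a ∈ A, Nat.Coprime a N) → (∀ a ∈ A, a ≤ M) → M * X < N →
    ∑ x : ZMod N, (nu N A X x) ^ 2 ≤ 3 * A.card * X

/-- task SHF -/
def SHF : Prop := ∀ (N : ℕ) [NeZero N] (χ : DirichletCharacter ℂ N) (A : Finset ℕ) (X M B : ℕ),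
    (∀ a ∈ A, Nat.Coprime a N) → (∀ a ∈ A, a ≤ M) →
    (A.card : ℝ) * B * ‖shortSum N χ X‖ ≤
      ∑ x : ZMod N, (nu N A X x : ℝ) * ‖∑ b ∈ range B, χ (x + (b : ZMod N))‖ +
        (A.card : ℝ) * B * (2 * M * B)

/-- task HOL -/
def HOL : Prop := ∀ (ι : Type) [Fintype ι] (r : ℕ), 1 ≤ r → ∀ (f g : ι → ℝ),
    (∀ x, 0 ≤ f x) → (∀ x, 0 ≤ g x) →
    (∑ x, f x * g x) ^ (2 * r) ≤ (∑ x, f x) ^ (2 * r - 2) * (∑ x, (f x) ^ 2) * ∑ x, (g x) ^ (2 * r)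

/-- task BIN -/
def BIN : Prop := ∀ (N : ℕ) [NeZero N] (χ : DirichletCharacter ℂ N) (A : Finset ℕ)
    (X M B r : ℕ) (K : ℝ), 1 ≤ r → 0 ≤ K → 1 ≤ B → 1 ≤ X → A.Nonempty → (∀ a ∈ A, a.Prime) →
    (∀ a ∈ A, Nat.Coprime a N) → (∀ a ∈ A, a ≤ M) → M * X < N → Real.sqrt N ≤ (B : ℝ) ^ r →
    Complete N χ r B K →
    ‖shortSum N χ X‖ ≤ 2 * M * B +
      X * (3 * ((r : ℝ) ^ (2 * r) + K) * Real.sqrt N / (A.card * X)) ^ (1 / (2 * r : ℝ))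

/-- task BFM -/
def BFM : Prop := ∀ (η δ κ : ℝ) (K : ℕ → ℝ), 0 < η → 0 < δ → 0 < κ → (∀ r, 0 ≤ K r) →
    ∃ N0 : ℕ, ∀ N : ℕ, N0 ≤ N → ∀ [NeZero N] (χ : DirichletCharacter ℂ N), Fam κ K N χ →
      ∀ X : ℕ, (N : ℝ) ^ (1 / 4 + η) ≤ X → (X : ℝ) ≤ Real.sqrt N → ‖shortSum N χ X‖ ≤ δ * X

open Classical in
/-- sum of `1 / l` over the primes `y < l ≤ X` with `χ l ≠ 1` -/
noncomputable def badSum (N : ℕ) (χ : DirichletCharacter ℂ N) (y X : ℕ) : ℝ :=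
  ∑ l ∈ (Ioc y X).filter (fun l : ℕ => l.Prime ∧ χ (l : ZMod N) ≠ 1), 1 / (l : ℝ)

/-- task VIN -/
def VIN : Prop := ∀ (N : ℕ) (χ : DirichletCharacter ℂ N) (y X : ℕ),
    (∀ l : ℕ, l.Prime → l ≤ y → χ (l : ZMod N) = 1) →
    (X : ℝ) * (1 - 2 * badSum N χ y X) ≤ ‖shortSum N χ X‖

/-- task BGE -/
def BGE : Prop := ∀ (η δ κ : ℝ) (K : ℕ → ℝ), 0 < η → 0 < δ → 0 < κ → (∀ r, 0 ≤ K r) →
    ∃ N0 : ℕ, ∀ N : ℕ, N0 ≤ N → ∀ [NeZero N] (χ : DirichletCharacter ℂ N), Fam κ K N χ →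
      ∀ X y : ℕ, (N : ℝ) ^ (1 / 4 + η) ≤ X → (X : ℝ) ≤ Real.sqrt N →
        (∀ l : ℕ, l.Prime → l ≤ y → χ (l : ZMod N) = 1) → 1 / 2 - δ ≤ badSum N χ y X

/-- task SNG -/
def SNG : Prop := ∀ (ε κ : ℝ) (K : ℕ → ℝ), 0 < ε → 0 < κ → (∀ r, 0 ≤ K r) →
    ∃ N0 : ℕ, ∀ N : ℕ, N0 ≤ N → ∀ [NeZero N] (χ : DirichletCharacter ℂ N), Fam κ K N χ →
      ∀ y : ℕ, (∀ l : ℕ, l.Prime → l ≤ y → χ (l : ZMod N) = 1) →
        (y : ℝ) ≤ (N : ℝ) ^ (1 / (4 * Real.exp (1 / 2)) + ε)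

/-- task TRP -/
def TRP : Prop := ∀ (δ κ : ℝ) (K : ℕ → ℝ), 0 < δ → 0 < κ → (∀ r, 0 ≤ K r) →
    ∃ N0 : ℕ, ∀ N₁ N₂ N₃ y : ℕ, N0 ≤ y → N0 ≤ N₁ → N₁ ≤ N₂ → N₂ ≤ N₃ →
      ∀ [NeZero N₁] [NeZero N₂] [NeZero N₃] (χ₁ : DirichletCharacter ℂ N₁)
        (χ₂ : DirichletCharacter ℂ N₂) (χ₃ : DirichletCharacter ℂ N₃),
        Fam κ K N₁ χ₁ → Fam κ K N₂ χ₂ → Fam κ K N₃ χ₃ →
        (∀ l : ℕ, l.Prime → l ≤ y → χ₁ (l : ZMod N₁) = 1 ∧ χ₂ (l : ZMod N₂) = 1 ∧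
          χ₃ (l : ZMod N₃) = 1) →
        ∀ E : Finset ℕ, E.card ≤ 3 → (∀ l : ℕ, l.Prime → l ∉ E → χ₁ (l : ZMod N₁) = 1 ∨
          χ₂ (l : ZMod N₂) = 1 ∨ χ₃ (l : ZMod N₃) = 1) →
        (Real.log y) ^ 2 ≤ Real.exp (-(3 / 2) + δ) / 16 * Real.log N₂ * Real.log N₃

/-- task CSE -/
def CSE : Prop := ∀ n y : ℕ, 0 < n → 2 ≤ y → (∀ b : ℕ, 1 < b → b ≤ y → Passes n b) →
    ∀ p q r : ℕ, p.Prime → q.Prime → r.Prime → p < q → q < r → p ∣ n → q ∣ n → r ∣ n →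
      y < p ∧ p * q * r ≤ n ∧
        ((∀ l : ℕ, l.Prime → l ≤ y → jacobiSym l (p * q) = 1 ∧ jacobiSym l (p * r) = 1 ∧
            jacobiSym l (q * r) = 1) ∨
          ∃ N : ℕ, (N = p ∨ N = q ∨ N = r ∨ N = p * q) ∧ N ^ 2 ≤ n ∧
            ∀ l : ℕ, l.Prime → l ≤ y → jacobiSym l N = 1)

/-- task MNA -/
def MNA : Prop := ∀ ε : ℝ, 0 < ε → ∃ n0 : ℕ, ∀ n : ℕ, n0 ≤ n → ∀ N y : ℕ, ∀ [NeZero N],
    (n : ℝ) ^ (theta + ε) < (y : ℝ) + 1 → (n : ℝ) ^ theta ≤ N → N ^ 2 ≤ n →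
    Fam theta KR N (jchar N) → (∀ l : ℕ, l.Prime → l ≤ y → jacobiSym l N = 1) → False

/-- task MNB -/
def MNB : Prop := ∀ ε : ℝ, 0 < ε → ∃ n0 : ℕ, ∀ n : ℕ, n0 ≤ n → ∀ p q r y : ℕ, p.Prime →
    q.Prime → r.Prime → p < q → q < r → p ≠ 2 → p * q * r ≤ n →
    (n : ℝ) ^ (theta + ε) < (y : ℝ) + 1 → (n : ℝ) ^ theta ≤ p →
    (∀ l : ℕ, l.Prime → l ≤ y → jacobiSym l (p * q) = 1 ∧ jacobiSym l (p * r) = 1 ∧
      jacobiSym l (q * r) = 1) → False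

/-- task MN3 -/
def MN3 : Prop := ∀ ε : ℝ, 0 < ε → ∃ n0 : ℕ, ∀ n : ℕ, n0 ≤ n → 3 ≤ n.primeFactors.card →
    ∃ b : ℕ, 1 < b ∧ (b : ℝ) ≤ (n : ℝ) ^ (theta + ε) ∧ ¬ Passes n b

end Pool.Agent.H471R4.BW
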