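import Pool.Agent.H471R4.BW.Stubs

set_option autoImplicit false

/-! Project BW, second part: characters of prime order (products of two primes) and integers
divisible by a square; statements of the tasks. -/

namespace Pool.Agent.H471R4.BW

open Finset Polynomial

open Pool.Agent.H379R2.W (Passes)

/-- task SMO: a positive proportion of the integers is smooth -/
def SMO : Prop := ∀ κ : ℝ, 0 < κ → κ ≤ 1 → ∃ c : ℝ, 0 < c ∧ ∃ D0 : ℕ, ∀ D : ℕ, D0 ≤ D →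
    ∃ S : Finset ℕ, (∀ s ∈ S, 1 ≤ s ∧ s < D ∧ ∀ l : ℕ, l.Prime → l ∣ s → (l : ℝ) ≤ (D : ℝ) ^ κ) ∧
      c * D ≤ S.card

/-- task NV0 -/
def NV0 : Prop := ∀ (F : Type) [Field F] [Fintype F] (t : ℕ), t.Prime → ∀ f : F[X],
    f.eval 0 ≠ 0 → (∀ (c : F) (h : F[X]), f ≠ C c * h ^ t) → ∀ D Q : ℕ,
    t * Q + 1 = Fintype.card F → t * (D + f.natDegree) < Fintype.card F →
    ∀ k : Fin t → F[X], (∀ i, (k i).natDegree ≤ D) →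
    (X : F[X]) ^ Fintype.card F ∣ ∑ i : Fin t, k i * f ^ ((i : ℕ) * Q) → ∀ i, k i = 0

/-- task NV1 -/
def NV1 : Prop := ∀ (F : Type) [Field F] [Fintype F] (t : ℕ), t.Prime → ∀ f : F[X],
    f.eval 0 ≠ 0 → (∀ (c : F) (h : F[X]), f ≠ C c * h ^ t) → ∀ D Q : ℕ,
    t * Q + 1 = Fintype.card F → t * (D + f.natDegree) < Fintype.card F → ∀ J : ℕ,
    ∀ k : Fin t → ℕ → F[X], (∀ i j, (k i j).natDegree ≤ D) →
    (∑ j ∈ range J, (∑ i : Fin t, k i j * f ^ ((i : ℕ) * Q)) * X ^ (j * Fintype.card F) = 0) →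
    ∀ i, ∀ j < J, k i j = 0

open Classical in
/-- task COR -/
def COR : Prop := ∀ (F : Type) [Field F] [Fintype F] (t : ℕ), t.Prime → ∀ f : F[X],
    1 ≤ f.natDegree → f.eval 0 ≠ 0 → (∀ (c : F) (h : F[X]), f ≠ C c * h ^ t) →
    ∀ (a : F) (m J D Q : ℕ), t * Q + 1 = Fintype.card F →
    t * (D + f.natDegree) < Fintype.card F → m ≤ Fintype.card F → 1 ≤ J →
    ∑ k ∈ range m, (D + k * (f.natDegree - 1) + J) < t * (J * (D + 1)) →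
    m * (univ.filter fun x : F => f.eval x = 0 ∨ f.eval x ^ Q = a).card ≤
      m * f.natDegree + (t - 1) * Q * f.natDegree + D + (J - 1) * Fintype.card F

open Classical in
/-- task CRD -/
def CRD : Prop := ∀ t d : ℕ, t.Prime → ∃ K : ℝ, 0 ≤ K ∧ ∀ (F : Type) [Field F] [Fintype F]
    (f : F[X]), 1 ≤ f.natDegree → f.natDegree ≤ d → f.eval 0 ≠ 0 →
    (∀ (c : F) (h : F[X]), f ≠ C c * h ^ t) → ∀ (a : F) (Q : ℕ), t * Q + 1 = Fintype.card F →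
    ((univ.filter fun x : F => f.eval x = 0 ∨ f.eval x ^ Q = a).card : ℝ) ≤
      Fintype.card F / t + K * Real.sqrt (Fintype.card F)

/-- task WEL -/
def WEL : Prop := ∀ t d : ℕ, t.Prime → ∃ K : ℝ, 0 ≤ K ∧ ∀ (q : ℕ) [Fact q.Prime], t ∣ q - 1 →
    ∀ χ : DirichletCharacter ℂ q, χ ≠ 1 → χ ^ t = 1 → ∀ f : (ZMod q)[X], f.natDegree ≤ d →
    f ≠ 0 → (∀ (c : ZMod q) (h : (ZMod q)[X]), f ≠ C c * h ^ t) →
    ‖∑ x : ZMod q, χ (f.eval x)‖ ≤ K * Real.sqrt q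

/-- task CSL -/
def CSL : Prop := ∀ t : ℕ, t.Prime → ∃ K : ℕ → ℝ, (∀ r, 0 ≤ K r) ∧ ∀ (κ : ℝ) (q : ℕ) [NeZero q],
    q.Prime → t ∣ q - 1 → κ ≤ 1 → ∀ χ : DirichletCharacter ℂ q, χ ≠ 1 → χ ^ t = 1 →
    Fam κ K q χ

/-- task HCH: a character trivial on a proper subgroup of roots of unity -/
def HCH : Prop := ∀ (q g : ℕ) [Fact q.Prime], g ∣ q - 1 → g < q - 1 → ∃ t : ℕ, t.Prime ∧
    t ∣ (q - 1) / g ∧ ∃ χ : DirichletCharacter ℂ q, χ ≠ 1 ∧ χ ^ t = 1 ∧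
    ∀ z : ZMod q, z ^ g = 1 → χ z = 1

/-- task MNP -/
def MNP : Prop := ∀ ε : ℝ, 0 < ε → ∃ n0 : ℕ, ∀ n : ℕ, n0 ≤ n → ∀ p q : ℕ, p.Prime → q.Prime →
    p < q → n = p * q →
    ∃ b : ℕ, 1 < b ∧ (b : ℝ) ≤ (n : ℝ) ^ (1 / (8 * Real.exp (1 / 2)) + ε) ∧ ¬ Passes n b

/-- task MSQ -/
def MSQ : Prop := ∃ n0 : ℕ, ∀ n : ℕ, n0 ≤ n → ∀ p : ℕ, p.Prime → p ^ 2 ∣ n →
    ∃ b : ℕ, 1 < b ∧ (b : ℝ) ≤ 2 * (Real.log n) ^ 2 ∧ ¬ Passes n b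

end Pool.Agent.H471R4.BW
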