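import Pool.Agent.H471R4.BW.Stubs
import Pool.Agent.Helper923.HMertens

set_option autoImplicit false

namespace Pool.Agent.H471R4.BW

open Finset

namespace TRPaux

lemma large (η : ℝ) (hη : 0 < η) (hη' : η ≤ 1 / 8) : ∃ N0 : ℕ, 1 ≤ N0 ∧ ∀ N : ℕ, N0 ≤ N →
    ((⌈(N : ℝ) ^ (1 / 4 + η)⌉₊ : ℕ) : ℝ) ≤ (N : ℝ) ^ (1 / 4 + 2 * η) ∧
      (N : ℝ) ^ (1 / 4 + 2 * η) ≤ Real.sqrt N := by
  refine ⟨⌈(2 : ℝ) ^ (1 / η)⌉₊ + 1, by omega, fun N hN => ?_⟩
  have h1 : (2 : ℝ) ^ (1 / η) ≤ N := by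
    refine (Nat.le_ceil _).trans ?_
    exact_mod_cast (by omega : ⌈(2 : ℝ) ^ (1 / η)⌉₊ ≤ N)
  have hN1 : (1 : ℝ) ≤ N := by
    exact_mod_cast (by omega : 1 ≤ N)
  have hN0 : (0 : ℝ) < N := by linarith
  have h2 : (2 : ℝ) ≤ (N : ℝ) ^ η := by
    have := Real.rpow_le_rpow (by positivity) h1 hη.le
    rw [← Real.rpow_mul (by norm_num)] at this
    rw [one_div, inv_mul_cancel₀ hη.ne', Real.rpow_one] at this
    exact this
  have h3 : (1 : ℝ) ≤ (N : ℝ) ^ (1 / 4 + η) := Real.one_le_rpow hN1 (by linarith)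
  refine ⟨?_, ?_⟩
  · have h4 : ((⌈(N : ℝ) ^ (1 / 4 + η)⌉₊ : ℕ) : ℝ) < (N : ℝ) ^ (1 / 4 + η) + 1 :=
      Nat.ceil_lt_add_one (by linarith)
    have h5 : (N : ℝ) ^ (1 / 4 + 2 * η) = (N : ℝ) ^ (1 / 4 + η) * (N : ℝ) ^ η := by
      rw [← Real.rpow_add hN0]
      ring_nf
    rw [h5]
    nlinarith
  · rw [Real.sqrt_eq_rpow]
    exact Real.rpow_le_rpow_of_exponent_le hN1 (by linarith)

lemma comb (N₁ N₂ N₃ y X1 X2 X3 : ℕ) (hy : 1 ≤ y) (hyX : y ≤ X2) (h12 : X1 ≤ X2) (h23 : X2 ≤ X3)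
    (χ₁ : DirichletCharacter ℂ N₁) (χ₂ : DirichletCharacter ℂ N₂) (χ₃ : DirichletCharacter ℂ N₃)
    (E : Finset ℕ) (hE : E.card ≤ 3) (hE2 : ∀ l : ℕ, l.Prime → l ∉ E → χ₁ (l : ZMod N₁) = 1 ∨
          χ₂ (l : ZMod N₂) = 1 ∨ χ₃ (l : ZMod N₃) = 1) :
    badSum N₁ χ₁ y X1 + badSum N₂ χ₂ y X2 + badSum N₃ χ₃ y X3 ≤
      2 * (∑ l ∈ (Ioc y X2).filter Nat.Prime, (1 : ℝ) / l) + 3 / y +
        ∑ l ∈ (Ioc X2 X3).filter Nat.Prime, (1 : ℝ) / l := by
  classical
  have hy0 : (0 : ℝ) < y := by exact_mod_cast hy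
  have e1 : badSum N₁ χ₁ y X1 ≤ badSum N₁ χ₁ y X2 := by
    unfold badSum
    apply Finset.sum_le_sum_of_subset_of_nonneg
    · intro l hl
      simp only [mem_filter, mem_Ioc] at hl ⊢
      exact ⟨⟨hl.1.1, hl.1.2.trans h12⟩, hl.2⟩
    · intro l _ _
      positivity
  have e3 : badSum N₃ χ₃ y X3 ≤ badSum N₃ χ₃ y X2 +
      ∑ l ∈ (Ioc X2 X3).filter Nat.Prime, (1 : ℝ) / l := by
    unfold badSum
    rw [Finset.sum_filter, Finset.sum_filter, Finset.sum_filter,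
      ← Finset.sum_Ioc_consecutive _ hyX h23]
    gcongr with l hl
    split_ifs with h1 h2 h2
    · exact le_rfl
    · exact absurd h1.1 h2
    · positivity
    · exact le_rfl
  have e4 : badSum N₁ χ₁ y X2 + badSum N₂ χ₂ y X2 + badSum N₃ χ₃ y X2 ≤
      2 * (∑ l ∈ (Ioc y X2).filter Nat.Prime, (1 : ℝ) / l) + 3 / y := by
    have h5 : (∑ l ∈ Ioc y X2, if l ∈ E then (1 : ℝ) / y else 0) ≤ 3 / y := by
      rw [← Finset.sum_filter, Finset.sum_const, nsmul_eq_mul]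
      have h6 : ((Ioc y X2).filter (fun l => l ∈ E)).card ≤ 3 := by
        refine (Finset.card_le_card ?_).trans hE
        intro l hl
        exact (mem_filter.1 hl).2
      have h7 : (((Ioc y X2).filter (fun l => l ∈ E)).card : ℝ) ≤ 3 := by exact_mod_cast h6
      calc _ ≤ 3 * ((1 : ℝ) / y) := by gcongr
        _ = 3 / y := by ring
    refine le_trans ?_ (add_le_add le_rfl h5)
    unfold badSum
    rw [Finset.sum_filter, Finset.sum_filter, Finset.sum_filter, Finset.sum_filter,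
      ← Finset.sum_add_distrib, ← Finset.sum_add_distrib, Finset.mul_sum,
      ← Finset.sum_add_distrib]
    apply Finset.sum_le_sum
    intro l hl
    have hl1 : y < l := (mem_Ioc.1 hl).1
    have hl0 : (0 : ℝ) < l := by exact_mod_cast (by omega : 0 < l)
    have hll : (1 : ℝ) / l ≤ 1 / y := by
      apply one_div_le_one_div_of_le hy0
      exact_mod_cast hl1.le
    have hlp : (0 : ℝ) < 1 / l := by positivity
    have hyp : (0 : ℝ) < 1 / y := by positivity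
    by_cases hp : l.Prime
    · by_cases hEl : l ∈ E
      · simp only [hp, true_and, hEl, if_true]
        split_ifs <;> linarith
      · have h8 := hE2 l hp hEl
        simp only [hp, true_and, hEl, if_true, if_false]
        rcases h8 with h8 | h8 | h8
        · simp only [h8, ne_eq, not_true_eq_false, if_false]
          split_ifs <;> linarith
        · simp only [h8, ne_eq, not_true_eq_false, if_false]
          split_ifs <;> linarith
        · simp only [h8, ne_eq, not_true_eq_false, if_false]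
          split_ifs <;> linarith
    · simp only [hp, false_and, if_false]
      split_ifs <;> linarith
  linarith

/-- the statement for one value of the parameters -/
def TS (δ κ : ℝ) (K : ℕ → ℝ) : Prop :=
    ∃ N0 : ℕ, ∀ N₁ N₂ N₃ y : ℕ, N0 ≤ y → N0 ≤ N₁ → N₁ ≤ N₂ → N₂ ≤ N₃ →
      ∀ [NeZero N₁] [NeZero N₂] [NeZero N₃] (χ₁ : DirichletCharacter ℂ N₁)
        (χ₂ : DirichletCharacter ℂ N₂) (χ₃ : DirichletCharacter ℂ N₃),
        Fam κ K N₁ χ₁ → Fam κ K N₂ χ₂ → Fam κ K N₃ χ₃ →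
        (∀ l : ℕ, l.Prime → l ≤ y → χ₁ (l : ZMod N₁) = 1 ∧ χ₂ (l : ZMod N₂) = 1 ∧
          χ₃ (l : ZMod N₃) = 1) →
        ∀ E : Finset ℕ, E.card ≤ 3 → (∀ l : ℕ, l.Prime → l ∉ E → χ₁ (l : ZMod N₁) = 1 ∨
          χ₂ (l : ZMod N₂) = 1 ∨ χ₃ (l : ZMod N₃) = 1) →
        (Real.log y) ^ 2 ≤ Real.exp (-(3 / 2) + δ) / 16 * Real.log N₂ * Real.log N₃

lemma main (h : BGE) (δ κ : ℝ) (K : ℕ → ℝ) (hδ : 0 < δ) (hδ1 : δ ≤ 1) (hκ : 0 < κ)
    (hK : ∀ r, 0 ≤ K r) : TS δ κ K := by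
  obtain ⟨C, hC0, hC⟩ := Pool.Agent.Helper923.HMertens.mertens_ratio
  obtain ⟨NB, hNB⟩ := h (δ / 32) (δ / 20) κ K (by linarith) (by linarith) hκ hK
  obtain ⟨NL, hNL1, hNL⟩ := large (δ / 32) (by linarith) (by linarith)
  refine ⟨NB + NL + ⌈Real.exp ((3 * C + 3) / (δ / 20))⌉₊ + 3, ?_⟩
  intro N₁ N₂ N₃ y hy h1 h12 h23 _ _ _ χ₁ χ₂ χ₃ f1 f2 f3 hl E hE hE2
  have hey : Real.exp ((3 * C + 3) / (δ / 20)) ≤ y := by
    refine (Nat.le_ceil _).trans ?_
    exact_mod_cast (by omega : ⌈Real.exp ((3 * C + 3) / (δ / 20))⌉₊ ≤ y)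
  have hy3 : 3 ≤ y := by omega
  have hyR : (3 : ℝ) ≤ y := by exact_mod_cast hy3
  have hly : (3 * C + 3) / (δ / 20) ≤ Real.log y := by
    rw [Real.le_log_iff_exp_le (by linarith)]
    exact hey
  have hly0 : 0 < Real.log y := Real.log_pos (by linarith)
  set X1 := ⌈(N₁ : ℝ) ^ (1 / 4 + δ / 32)⌉₊ with hX1
  set X2 := ⌈(N₂ : ℝ) ^ (1 / 4 + δ / 32)⌉₊ with hX2
  set X3 := ⌈(N₃ : ℝ) ^ (1 / 4 + δ / 32)⌉₊ with hX3
  have hX12 : X1 ≤ X2 := by
    apply Nat.ceil_mono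
    exact Real.rpow_le_rpow (by positivity) (by exact_mod_cast h12) (by linarith)
  have hX23 : X2 ≤ X3 := by
    apply Nat.ceil_mono
    exact Real.rpow_le_rpow (by positivity) (by exact_mod_cast h23) (by linarith)
  obtain ⟨g1, g1'⟩ := hNL N₁ (by omega)
  obtain ⟨g2, g2'⟩ := hNL N₂ (by omega)
  obtain ⟨g3, g3'⟩ := hNL N₃ (by omega)
  have b1 := hNB N₁ (by omega) χ₁ f1 X1 y (Nat.le_ceil _) (g1.trans g1')
    (fun l hp hly => (hl l hp hly).1)
  have b2 := hNB N₂ (by omega) χ₂ f2 X2 y (Nat.le_ceil _) (g2.trans g2')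
    (fun l hp hly => (hl l hp hly).2.1)
  have b3 := hNB N₃ (by omega) χ₃ f3 X3 y (Nat.le_ceil _) (g3.trans g3')
    (fun l hp hly => (hl l hp hly).2.2)
  have hyX1 : y < X1 := by
    by_contra hcon
    push Not at hcon
    have : badSum N₁ χ₁ y X1 = 0 := by
      unfold badSum
      rw [Finset.Ioc_eq_empty (by omega)]
      simp
    rw [this] at b1
    linarith
  have hyX2 : y < X2 := by omega
  have hyX3 : y < X3 := by omega
  have hc := comb N₁ N₂ N₃ y X1 X2 X3 (by omega) hyX2.le hX12 hX23 χ₁ χ₂ χ₃ E hE hE2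
  have m1 := hC y X2 (by omega) hyX2.le
  have m2 := hC X2 X3 (by omega) hX23
  have m1' := (abs_le.1 m1).2
  have m2' := (abs_le.1 m2).2
  have hlX2 : Real.log y ≤ Real.log X2 :=
    Real.log_le_log (by linarith) (by exact_mod_cast hyX2.le)
  have hlX3 : Real.log X2 ≤ Real.log X3 :=
    Real.log_le_log (by exact_mod_cast (by omega : 0 < X2)) (by exact_mod_cast hX23)
  have hL2 : 0 < Real.log X2 := by linarith
  have hL3 : 0 < Real.log X3 := by linarith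
  have m2'' : C / Real.log X2 ≤ C / Real.log y := by gcongr
  have q1 : (3 : ℝ) / y ≤ 3 / Real.log y := by
    gcongr
    exact (Real.log_le_sub_one_of_pos (by linarith)).trans (by linarith)
  have q2 : (3 * C + 3) / Real.log y ≤ δ / 20 := by
    rw [div_le_iff₀ hly0]
    rw [div_le_iff₀ (by linarith)] at hly
    linarith
  have q3 : (3 * C + 3) / Real.log y = 2 * (C / Real.log y) + C / Real.log y +
      3 / Real.log y := by
    field_simp
    ring
  -- logarithms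
  have r1 : Real.log (Real.log X2 / Real.log y) = Real.log (Real.log X2) -
      Real.log (Real.log y) := Real.log_div hL2.ne' hly0.ne'
  have r2 : Real.log (Real.log X3 / Real.log X2) = Real.log (Real.log X3) -
      Real.log (Real.log X2) := Real.log_div hL3.ne' hL2.ne'
  have r3 : 3 / 2 - δ / 2 ≤ Real.log (Real.log X2 * Real.log X3) -
      Real.log ((Real.log y) ^ 2) := by
    rw [Real.log_mul hL2.ne' hL3.ne', Real.log_pow]
    push_cast
    linarith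
  have r4 : Real.log ((Real.log y) ^ 2) ≤
      Real.log (Real.exp (-(3 / 2) + δ / 2) * (Real.log X2 * Real.log X3)) := by
    rw [Real.log_mul (Real.exp_pos _).ne' (mul_pos hL2 hL3).ne', Real.log_exp]
    linarith
  have r5 : (Real.log y) ^ 2 ≤
      Real.exp (-(3 / 2) + δ / 2) * (Real.log X2 * Real.log X3) :=
    (Real.log_le_log_iff (by positivity) (by positivity)).1 r4
  -- upper bounds for log X2, log X3
  have key : ∀ N X : ℕ, 1 ≤ N → 1 ≤ X → (X : ℝ) ≤ (N : ℝ) ^ (1 / 4 + 2 * (δ / 32)) →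
      Real.log X ≤ Real.exp (δ / 4) / 4 * Real.log N := by
    intro N X hN hX hXN
    have hN' : (0 : ℝ) < N := by exact_mod_cast hN
    have h5 := Real.log_le_log (by exact_mod_cast hX : (0 : ℝ) < X) hXN
    rw [Real.log_rpow hN'] at h5
    refine h5.trans ?_
    have h6 : 0 ≤ Real.log N := Real.log_natCast_nonneg N
    apply mul_le_mul_of_nonneg_right _ h6
    have := Real.add_one_le_exp (δ / 4)
    linarith
  have k2 := key N₂ X2 (by omega) (by omega) g2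
  have k3 := key N₃ X3 (by omega) (by omega) g3
  have hn2 : 0 ≤ Real.log N₂ := Real.log_natCast_nonneg N₂
  have hn3 : 0 ≤ Real.log N₃ := Real.log_natCast_nonneg N₃
  refine r5.trans ?_
  have k4 : Real.log X2 * Real.log X3 ≤
      (Real.exp (δ / 4) / 4 * Real.log N₂) * (Real.exp (δ / 4) / 4 * Real.log N₃) :=
    mul_le_mul k2 k3 hL3.le (by positivity)
  calc Real.exp (-(3 / 2) + δ / 2) * (Real.log X2 * Real.log X3)
      ≤ Real.exp (-(3 / 2) + δ / 2) *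
        ((Real.exp (δ / 4) / 4 * Real.log N₂) * (Real.exp (δ / 4) / 4 * Real.log N₃)) := by
        gcongr
    _ = (Real.exp (-(3 / 2) + δ / 2) * (Real.exp (δ / 4) * Real.exp (δ / 4))) / 16 *
        Real.log N₂ * Real.log N₃ := by ring
    _ = Real.exp (-(3 / 2) + δ) / 16 * Real.log N₂ * Real.log N₃ := by
        rw [← Real.exp_add, ← Real.exp_add]
        congr 4
        ring

end TRPaux

open TRPaux in
theorem trp (h : BGE) : TRP := by
  intro δ κ K hδ hκ hK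
  obtain ⟨N0, hN0⟩ := TRPaux.main h (min δ 1) κ K (lt_min hδ one_pos) (min_le_right _ _) hκ hK
  refine ⟨N0, ?_⟩
  intro N₁ N₂ N₃ y hy h1 h12 h23 _ _ _ χ₁ χ₂ χ₃ f1 f2 f3 hl E hE hE2
  refine (hN0 N₁ N₂ N₃ y hy h1 h12 h23 χ₁ χ₂ χ₃ f1 f2 f3 hl E hE hE2).trans ?_
  have hn2 : 0 ≤ Real.log N₂ := Real.log_natCast_nonneg N₂
  have hn3 : 0 ≤ Real.log N₃ := Real.log_natCast_nonneg N₃
  gcongr
  exact min_le_left _ _

end Pool.Agent.H471R4.BW
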