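import Pool.Agent.H471R4.BW.Stubs

set_option autoImplicit false

namespace Pool.Agent.H471R4.BW

open Finset

open Classical in
theorem tup : TUP := by
  intro r B hr
  -- the map (e, s) ↦ the pair of functions
  let Φ : (Fin r → Fin B) × (Fin r ⊕ Fin r → Fin r) → (Fin r → Fin B) × (Fin r → Fin B) :=
    fun w => (fun i => w.1 (w.2 (Sum.inl i)), fun i => w.1 (w.2 (Sum.inr i)))
  have hsub : ((univ : Finset ((Fin r → Fin B) × (Fin r → Fin B))).filter fun w =>
      ¬ Uniq (fun i => (w.1 i : ℕ)) (fun i => (w.2 i : ℕ))) ⊆ (univ.image Φ) := by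
    intro w hw
    rw [mem_filter] at hw
    have hU := hw.2
    unfold Uniq at hU
    push Not at hU
    let h : Fin r ⊕ Fin r → Fin B := Sum.elim w.1 w.2
    let I : Finset (Fin B) := univ.image h
    have hfib : ∀ v ∈ I, 2 ≤ (univ.filter fun z => h z = v).card := by
      intro v hv
      have h1 : 1 ≤ (univ.filter fun z => h z = v).card := by
        obtain ⟨z, _, hz⟩ := mem_image.1 hv
        exact Finset.card_pos.2 ⟨z, by simp [hz]⟩
      have h2 : (univ.filter fun z => h z = v).card ≠ 1 := by
        intro hc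
        apply hU (v : ℕ)
        rw [← hc]
        have e : (univ.filter fun z => h z = v) =
            (univ.filter fun i => w.1 i = v).disjSum (univ.filter fun i => w.2 i = v) := by
          ext z
          rcases z with i | i <;> simp [h]
        rw [e, Finset.card_disjSum]
        congr 1 <;> · congr 1; ext i; simp [Fin.ext_iff]
      omega
    have hI : I.card ≤ r := by
      have e1 : (univ : Finset (Fin r ⊕ Fin r)).card = ∑ v ∈ I, (univ.filter fun z => h z = v).card :=
        Finset.card_eq_sum_card_image h univ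
      have e2 : (univ : Finset (Fin r ⊕ Fin r)).card = 2 * r := by simp; ring
      have e3 : I.card * 2 ≤ ∑ v ∈ I, (univ.filter fun z => h z = v).card := by
        rw [← smul_eq_mul]
        exact Finset.card_nsmul_le_sum I _ 2 hfib
      omega
    have hne : I.Nonempty := ⟨h (Sum.inl ⟨0, hr⟩), mem_image_of_mem _ (mem_univ _)⟩
    -- a surjection Fin r → I
    obtain ⟨e, he⟩ : ∃ e : Fin r → Fin B, ∀ v ∈ I, ∃ j, e j = v := by
      obtain ⟨v0, hv0⟩ := hne
      let q := I.equivFin
      refine ⟨fun j => if hj : (j : ℕ) < I.card then (q.symm ⟨j, hj⟩ : Fin B) else v0, ?_⟩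
      intro v hv
      refine ⟨⟨q ⟨v, hv⟩, lt_of_lt_of_le (q ⟨v, hv⟩).2 hI⟩, ?_⟩
      simp
    have hs : ∀ z, ∃ j, e j = h z := fun z => he (h z) (mem_image_of_mem _ (mem_univ _))
    choose s hs using hs
    refine mem_image.2 ⟨(e, s), mem_univ _, ?_⟩
    refine Prod.ext ?_ ?_
    · funext i; exact hs (Sum.inl i)
    · funext i; exact hs (Sum.inr i)
  refine (card_le_card hsub).trans (card_image_le.trans ?_)
  rw [card_univ, Fintype.card_prod, Fintype.card_fun, Fintype.card_fun]
  simp only [Fintype.card_fin, Fintype.card_sum]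
  rw [mul_comm, two_mul]

end Pool.Agent.H471R4.BW
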