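import Pool.Agent.H471R4.BW.Stubs

set_option autoImplicit false

namespace Pool.Agent.H471R4.BW

open Finset

/-- complete multiplicativity: if all prime factors are good, the value is one -/
lemma vin_one (N : ℕ) (χ : DirichletCharacter ℂ N) (m : ℕ) (hm : m ≠ 0)
    (h : ∀ l : ℕ, l.Prime → l ∣ m → χ (l : ZMod N) = 1) : χ (m : ZMod N) = 1 := by
  induction m using Nat.recOnMul with
  | zero => exact absurd rfl hm
  | one => simp
  | prime p hp => exact h p hp dvd_rfl
  | mul a b ha hb =>
    have ha0 : a ≠ 0 := fun h0 => hm (by rw [h0, zero_mul])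
    have hb0 : b ≠ 0 := fun h0 => hm (by rw [h0, mul_zero])
    push_cast
    rw [map_mul, ha ha0 fun l hl hd => h l hl (hd.mul_right _),
      hb hb0 fun l hl hd => h l hl (hd.mul_left _), one_mul]

theorem vin : VIN := by
  classical
  intro N χ y X hy
  set L := (Ioc y X).filter (fun l : ℕ => l.Prime ∧ χ (l : ZMod N) ≠ 1) with hL
  have hpt : ∀ m ∈ Icc 1 X, (1 : ℝ) - 2 * ((L.filter fun l => l ∣ m).card : ℝ) ≤
      (χ (m : ZMod N)).re := by
    intro m hm
    have hm1 := (mem_Icc.1 hm).1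
    have hm2 := (mem_Icc.1 hm).2
    by_cases hall : ∀ l : ℕ, l.Prime → l ∣ m → χ (l : ZMod N) = 1
    · rw [vin_one N χ m (by omega) hall]
      simp
    · push Not at hall
      obtain ⟨l, hl, hd, hne⟩ := hall
      have hlm : l ∈ L.filter fun l => l ∣ m := by
        rw [mem_filter, hL, mem_filter, mem_Ioc]
        refine ⟨⟨⟨?_, ?_⟩, hl, hne⟩, hd⟩
        · by_contra hc
          exact hne (hy l hl (by omega))
        · exact (Nat.le_of_dvd (by omega) hd).trans hm2
      have hc : (1 : ℝ) ≤ ((L.filter fun l => l ∣ m).card : ℝ) := by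
        exact_mod_cast Finset.card_pos.2 ⟨l, hlm⟩
      have hre : -1 ≤ (χ (m : ZMod N)).re := by
        have h1 := Complex.abs_re_le_norm (χ (m : ZMod N))
        have h2 := DirichletCharacter.norm_le_one χ (m : ZMod N)
        have := (abs_le.1 (h1.trans h2)).1
        linarith
      linarith
  have hsum : (∑ m ∈ Icc 1 X, ((1 : ℝ) - 2 * ((L.filter fun l => l ∣ m).card : ℝ))) ≤
      (shortSum N χ X).re := by
    unfold shortSum
    rw [Complex.re_sum]
    exact sum_le_sum hpt
  have hcount : (∑ m ∈ Icc 1 X, ((L.filter fun l => l ∣ m).card : ℝ)) ≤ X * badSum N χ y X := by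
    have e1 : (∑ m ∈ Icc 1 X, ((L.filter fun l => l ∣ m).card : ℝ)) =
        ∑ l ∈ L, (((Icc 1 X).filter fun m => l ∣ m).card : ℝ) := by
      simp only [Finset.card_filter, Nat.cast_sum]
      rw [sum_comm]
    rw [e1]
    unfold badSum
    rw [mul_sum]
    have : (Finset.filter (fun l : ℕ => l.Prime ∧ χ (l : ZMod N) ≠ 1) (Ioc y X)) = L := by
      rw [hL]
    refine le_of_le_of_eq (sum_le_sum (s := L) fun l hl => ?_) (by
      refine sum_congr ?_ fun _ _ => rfl
      rw [hL])
    have hcard : ((Icc 1 X).filter fun m => l ∣ m).card = X / l := by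
      have h := Nat.Ioc_filter_dvd_card_eq_div X l
      rw [← h]
      congr 1
    rw [hcard]
    have := @Nat.cast_div_le ℝ _ _ _ X l
    calc ((X / l : ℕ) : ℝ) ≤ (X : ℝ) / l := this
      _ = X * (1 / (l : ℝ)) := by ring
  have htot : (∑ m ∈ Icc 1 X, ((1 : ℝ) - 2 * ((L.filter fun l => l ∣ m).card : ℝ))) =
      X - 2 * ∑ m ∈ Icc 1 X, ((L.filter fun l => l ∣ m).card : ℝ) := by
    rw [sum_sub_distrib, ← mul_sum]
    simp
  have hre : (shortSum N χ X).re ≤ ‖shortSum N χ X‖ := Complex.re_le_norm _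
  nlinarith [hsum, hcount, htot, hre]

end Pool.Agent.H471R4.BW
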